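import Pool.Agent.Lib.MP_ae0f86_nt.StmD2

/-!
# MP_ae0f86_nt : [GE abssub]
-/

set_option autoImplicit false

universe w v u

open CategoryTheory CategoryTheory.Limits Opposite MonoidalCategory

namespace Pool.Agent.Lib.MP_ae0f86_nt

/-- An idempotent is `0` or `1` on each factor. -/
theorem abssub_idem {R : Type w} [CommRing R] {r : ℕ} {e : Fin r → R} (he : Dec R r e) {f : R}
    (hf : f * f = f) (i : Fin r) : e i * f = 0 ∨ e i * f = e i := by
  have h1 : e i * (f * (1 - f)) = 0 := by
    rw [mul_sub, mul_one, hf, sub_self, mul_zero]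
  rcases he.dom i f (1 - f) h1 with h | h
  · exact Or.inl h
  · right
    rw [mul_sub, mul_one, sub_eq_zero] at h
    exact h.symm

/-- A product which vanishes on one factor. -/
theorem abssub_prod {R : Type w} [CommRing R] {r : ℕ} {e : Fin r → R} (he : Dec R r e)
    (k : Fin r) {n : ℕ} (z : Fin n → R) (s : Finset (Fin n)) :
    e k * ∏ l ∈ s, z l = 0 → ∃ l ∈ s, e k * z l = 0 := by
  classical
  induction s using Finset.induction_on with
  | empty =>
    intro h
    rw [Finset.prod_empty, mul_one] at h
    exact absurd h (he.ne k)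
  | insert a s ha ih =>
    intro h
    rw [Finset.prod_insert ha] at h
    rcases he.dom k _ _ h with h1 | h1
    · exact ⟨a, Finset.mem_insert_self a s, h1⟩
    · obtain ⟨l, hl, hl2⟩ := ih h1
      exact ⟨l, Finset.mem_insert_of_mem hl, hl2⟩

/-- Every element which vanishes on all factors is `0`. -/
theorem abssub_zero {R : Type w} [CommRing R] {r : ℕ} {e : Fin r → R} (he : Dec R r e) {y : R}
    (h : ∀ i, e i * y = 0) : y = 0 := by
  rw [← one_mul y, ← he.sum, Finset.sum_mul]
  exact Finset.sum_eq_zero fun i _ => h i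

section Main

variable {K : Type} [Field K] {R R' : Type w} [CommRing R] [CommRing R'] [Algebra K R]
  [Algebra K R'] (j : R' →ₐ[K] R) {r r' : ℕ} {e : Fin r → R} {e' : Fin r' → R'}

/-- For each `i`, `k` the product of `e_i` and `j(e'_k)` is `0` or `e_i`. -/
theorem abssub_dich (he : Dec R r e) (he' : Dec R' r' e') (i : Fin r) (k : Fin r') :
    e i * j (e' k) = 0 ∨ e i * j (e' k) = e i :=
  abssub_idem he (by rw [← map_mul, he'.idem]) i

theorem abssub_card (hj : Function.Injective j) (he : Dec R r e) (he' : Dec R' r' e') :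
    r' ≤ r := by
  have h1 : ∀ i, ∃ k, e i * j (e' k) = e i := by
    intro i
    by_contra hcon
    push Not at hcon
    apply he.ne i
    rw [← mul_one (e i), ← map_one j, ← he'.sum, map_sum, Finset.mul_sum]
    exact Finset.sum_eq_zero fun k _ => (abssub_dich j he he' i k).resolve_right (hcon k)
  choose c hc using h1
  have hsurj : Function.Surjective c := by
    intro k
    by_contra hcon
    push Not at hcon
    apply he'.ne k
    apply hj
    rw [map_zero]
    apply abssub_zero he
    intro i
    calc e i * j (e' k) = e i * j (e' (c i)) * j (e' k) := by rw [hc i]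
      _ = e i * j (e' (c i) * e' k) := by rw [map_mul, mul_assoc]
      _ = 0 := by rw [he'.orth (c i) k (hcon i), map_zero, mul_zero]
  have := Fintype.card_le_of_surjective c hsurj
  simpa using this

end Main

theorem e_abssub : S_abssub.{w} := by
  intro K _ R R' _ _ _ _ j hj r r' e e' he he' htr
  refine ⟨abssub_card j hj he he', ?_⟩
  intro L _ _ ev i0 k0 hi0 hk0 hinj a ha
  obtain ⟨x, hx⟩ : ∃ x, x = e' k0 * a := ⟨_, rfl⟩
  rw [← hx] at ha ⊢
  have hxx : e' k0 * x = x := by rw [hx, ← mul_assoc, he'.idem]
  have h1 : e i0 * j (e' k0) = e i0 := by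
    refine (abssub_dich j he he' i0 k0).resolve_left fun h => ?_
    have h2 := congrArg ev h
    rw [map_mul, hi0, hk0, map_zero, mul_one] at h2
    exact one_ne_zero h2
  have h2 : e i0 * j x = 0 := by
    apply hinj
    rw [map_mul, ha, mul_zero]
  have h3 : ∀ l, ∃ z : R', e l * j (e' k0 * z) = 0 ∧ (e' k0 * z = 0 → x = 0) := by
    intro l
    rcases abssub_dich j he he' l k0 with hl | hl
    · refine ⟨1, by rw [mul_one]; exact hl, fun h => ?_⟩
      rw [mul_one] at h
      exact absurd h (he'.ne k0)
    · obtain ⟨τ, τ', hτ, hττ⟩ := htr i0 l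
      have h4 : e l * j (τ' x) = 0 := by
        rw [← hττ, ← hτ, ← map_mul, h2, map_zero]
      have h5 : e l * j (τ' (e' k0)) = e l := by
        rw [← hττ, ← hτ, ← map_mul, h1]
      have h6 : e' k0 * τ' (e' k0) = e' k0 := by
        refine (abssub_idem he' (by rw [← map_mul, he'.idem]) k0).resolve_left fun h => ?_
        apply he.ne l
        calc e l = e l * j (e' k0) * j (τ' (e' k0)) := by rw [hl, h5]
          _ = e l * j (e' k0 * τ' (e' k0)) := by rw [map_mul, mul_assoc]
          _ = 0 := by rw [h, map_zero, mul_zero]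
      have h7 : τ' (e' k0) = e' k0 := by
        rcases abssub_idem he' (f := τ'.symm (e' k0)) (by rw [← map_mul, he'.idem]) k0 with h | h
        · exfalso
          apply he'.ne k0
          have h8 := congrArg τ' h
          rw [map_mul, AlgEquiv.apply_symm_apply, map_zero, mul_comm, h6] at h8
          exact h8
        · have h8 := congrArg τ' h
          rw [map_mul, AlgEquiv.apply_symm_apply, mul_comm, h6] at h8
          exact h8.symm
      refine ⟨τ' x, ?_, fun h => ?_⟩
      · rw [map_mul, mul_left_comm, h4, mul_zero]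
      · have h9 : τ' x = 0 := by
          calc τ' x = τ' (e' k0 * x) := by rw [hxx]
            _ = e' k0 * τ' x := by rw [map_mul, h7]
            _ = 0 := h
        exact (map_eq_zero_iff τ' τ'.injective).1 h9
  choose z hz1 hz2 using h3
  have h4 : e' k0 * ∏ l, z l = 0 := by
    apply hj
    rw [map_zero]
    apply abssub_zero he
    intro l
    rw [← Finset.mul_prod_erase Finset.univ z (Finset.mem_univ l), ← mul_assoc, map_mul j,
      ← mul_assoc, hz1 l, zero_mul]
  obtain ⟨l, -, hl⟩ := abssub_prod he' k0 z Finset.univ h4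
  exact hz2 l hl

end Pool.Agent.Lib.MP_ae0f86_nt
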