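import Pool.Agent.Lib.MP_ae0f86_nt.StmD

/-!
# MP_ae0f86_nt, piece arel: the relations between the classes of symbols in the formal period
algebra
-/

set_option autoImplicit false

open CategoryTheory CategoryTheory.Limits Opposite MonoidalCategory

universe w v u

namespace Pool.Agent.Lib.MP_ae0f86_nt

noncomputable section

attribute [local instance] CategoryTheory.Abelian.hasFiniteBiproducts

theorem d_arel {A : Type u} [Category.{v} A] [Abelian A] [MonoidalCategory A]
    [SymmetricCategory A] {K : Type} [Field K] (H : A ⥤ ModuleCat.{0} K)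
    (HB : A ⥤ ModuleCat.{0} ℚ) [FibreFunctor H] [FibreFunctor HB]
    (h1 : S_fprel H HB) (h2 : S_algrel (A := A)) : S_arel H HB := by
  intro S
  obtain ⟨r1, r2, r3, r4, r5, r6, r7⟩ := h1 S
  obtain ⟨ht, -, -, -⟩ := h2 H HB S
  refine ⟨?_, ?_, ?_, ?_, ?_, ?_, ?_⟩
  · intro N hN ω ω' σ
    rw [← ht hN, ← ht hN, ← ht hN, r1 hN, map_add]
  · intro N hN a ω σ
    rw [← ht hN, ← ht hN, r2 hN, map_smul]
  · intro N hN ω σ σ'
    rw [← ht hN, ← ht hN, ← ht hN, r3 hN, map_add]
  · intro N hN q ω σ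
    rw [← ht hN, ← ht hN, r4 hN, map_smul]
  · intro N N' hN hN' f ω σ'
    rw [← ht hN, ← ht hN', r5 hN hN']
  · intro N hN σ
    rw [← ht hN, r6 hN, map_zero]
  · intro N hN ω
    rw [← ht hN, r7 hN, map_zero]

end

end Pool.Agent.Lib.MP_ae0f86_nt
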