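import Pool.Agent.Lib.MP_ae0f86_nt.StmD3

/-!
# MP_ae0f86_nt : piece `attain`
-/

set_option autoImplicit false

universe w v u

open CategoryTheory CategoryTheory.Limits Opposite MonoidalCategory

namespace Pool.Agent.Lib.MP_ae0f86_nt

noncomputable section

private theorem attain_li {K : Type} [Field K] {R : Type w} [CommRing R] [Algebra K R] {r : ℕ}
    {e : Fin r → R} (h : Dec R r e) : LinearIndependent K e := by
  rw [Fintype.linearIndependent_iff]
  intro g hg j
  have h1 : e j * ∑ i, g i • e i = 0 := by rw [hg, mul_zero]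
  rw [Finset.mul_sum, Finset.sum_eq_single j] at h1
  · rw [mul_smul_comm, h.idem] at h1
    exact (smul_eq_zero.mp h1).resolve_right (h.ne j)
  · intro i _ hij
    rw [mul_smul_comm, h.orth j i hij.symm, smul_zero]
  · simp

private theorem attain_map {K : Type} [Field K] {R : Type w} [CommRing R] [Algebra K R] {r : ℕ}
    {e : Fin r → R} (h : Dec R r e) {L : Type} [Field L] [Algebra K L] (ev : R →ₐ[K] L)
    (h1 : ∃ i, ev (e i) = 1) :
    (Submodule.span K (Set.range e)).map ev.toLinearMap = Submodule.span K {(1 : L)} := by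
  rw [Submodule.map_span]
  apply le_antisymm
  · rw [Submodule.span_le]
    rintro _ ⟨_, ⟨i, rfl⟩, rfl⟩
    have h2 : ev (e i) * ev (e i) = ev (e i) := by rw [← map_mul, h.idem]
    have h3 : ev (e i) = 0 ∨ ev (e i) = 1 := by
      by_cases h0 : ev (e i) = 0
      · exact Or.inl h0
      · exact Or.inr (mul_right_cancel₀ h0 (by rw [h2, one_mul]))
    rcases h3 with h3 | h3
    · have : ev.toLinearMap (e i) = 0 := h3
      rw [SetLike.mem_coe, this]
      exact Submodule.zero_mem _
    · have : ev.toLinearMap (e i) = 1 := h3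
      rw [SetLike.mem_coe, this]
      exact Submodule.mem_span_singleton_self _
  · rw [Submodule.span_le, Set.singleton_subset_iff]
    obtain ⟨i, hi⟩ := h1
    exact Submodule.subset_span ⟨e i, ⟨i, rfl⟩, hi⟩

theorem f_attain {A : Type u} [Category.{v} A] [Abelian A] [MonoidalCategory A]
    [SymmetricCategory A] [RigidCategory A] {HdR : A ⥤ ModuleCat.{0} QBar}
    {HB : A ⥤ ModuleCat.{0} ℚ} [FibreFunctor HdR] [FibreFunctor HB] (c : Comparison HdR HB)
    (h1 : S_finpart HdR HB) (h2 : S_pdec HdR HB) (h3 : S_comps.{u}) (h4 : S_fwdim (A := A))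
    (h5 : S_fwev (A := A)) (h6 : S_evcut.{u}) (h7 : S_genclosed (A := A)) : S_attain c := by
  intro _ M
  obtain ⟨r, e, he⟩ := h2 M
  obtain ⟨U, hU, hfw⟩ := h1 c M r e he
  refine ⟨U, hU, ?_, ?_⟩
  · have h8 := h4 c (h7.1 M) hU
    rw [hfw, finrank_span_eq_card (attain_li he), Fintype.card_fin] at h8
    change Module.finrank ℚ (EndBetti HB U) = _
    rw [← h8]
    exact ((h3 _ r e he).2.1).symm
  · have h9 := h5 c (S := Gen M) hU
    rw [hfw, attain_map he (c.evAlg (Gen M)) (h6 QBar _ r e he ℂ (c.evAlg (Gen M))).1] at h9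
    change Module.finrank QBar (Submodule.span QBar (c.Per U)) = 1
    rw [← h9]
    exact finrank_span_singleton one_ne_zero

end

end Pool.Agent.Lib.MP_ae0f86_nt
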