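import Pool.Agent.Lib.MP_ae0f86_nt.StmD3
import Pool.Agent.Lib.MP_ae0f86_nt.P.Base

/-!
# MP_ae0f86_nt : piece base2
-/

set_option autoImplicit false

universe w v u

open CategoryTheory CategoryTheory.Limits Opposite MonoidalCategory
open scoped TensorProduct

namespace Pool.Agent.Lib.MP_ae0f86_nt

noncomputable section

private theorem base2_collect {K V W : Type} [Field K] [CharZero K] [AddCommGroup V] [Module ℚ V]
    [AddCommGroup W] [Module K W] (ι : V → W) (hadd : ∀ a b, ι (a + b) = ι a + ι b)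
    (hsmul : ∀ (q : ℚ) a, ι (q • a) = (q : K) • ι a) {J : Type} [Fintype J] (c : J → K)
    (b : J → V) : ∃ (n : ℕ) (κ : Fin n → K) (b' : Fin n → V), LinearIndependent ℚ κ ∧
      ∑ j, c j • ι (b j) = ∑ i, κ i • ι (b' i) := by
  let U := Submodule.span ℚ (Set.range c)
  haveI : Module.Finite ℚ U := Module.Finite.span_of_finite ℚ (Set.finite_range c)
  have hc : ∀ j, c j ∈ U := fun j => Submodule.subset_span ⟨j, rfl⟩
  let B := Module.finBasis ℚ U
  let q : Fin (Module.finrank ℚ U) → J → ℚ := fun i j => B.repr ⟨c j, hc j⟩ i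
  let L : V →+ W := AddMonoidHom.mk' ι hadd
  have hcj : ∀ j, c j = ∑ i, (q i j : K) * (B i : K) := by
    intro j
    have h1 := congrArg (fun z : U => (z : K)) (B.sum_repr ⟨c j, hc j⟩)
    simp only at h1
    rw [Submodule.coe_sum] at h1
    rw [← h1]
    refine Finset.sum_congr rfl fun i _ => ?_
    rw [Submodule.coe_smul, Rat.smul_def]
  refine ⟨_, fun i => (B i : K), fun i => ∑ j, q i j • b j,
    B.linearIndependent.map' U.subtype (Submodule.ker_subtype _), ?_⟩
  have h2 : ∀ i, ι (∑ j, q i j • b j) = ∑ j, (q i j : K) • ι (b j) := by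
    intro i
    have : L (∑ j, q i j • b j) = ∑ j, L (q i j • b j) := map_sum _ _ _
    refine this.trans (Finset.sum_congr rfl fun j _ => ?_)
    exact hsmul _ _
  simp only [h2, Finset.smul_sum, smul_smul]
  rw [Finset.sum_comm]
  refine Finset.sum_congr rfl fun j _ => ?_
  rw [← Finset.sum_smul, hcj j]
  congr 1
  exact Finset.sum_congr rfl fun i _ => mul_comm _ _

theorem f_base2 {A : Type u} [Category.{v} A] [Abelian A] [MonoidalCategory A]
    [SymmetricCategory A] [RigidCategory A] {K : Type} [Field K] (H : A ⥤ ModuleCat.{0} K)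
    (HB : A ⥤ ModuleCat.{0} ℚ) [FibreFunctor H] [FibreFunctor HB]
    [CharZero K] (h1 : S_pointbij H HB) (h2 : S_points.{u, v, u} HB HB)
    (h3 : S_points.{u, v, u} H HB) (_h4 : S_algrel (A := A)) (_h5 : S_arel H HB) :
    S_base2 H HB := by
  intro S hS x
  obtain ⟨β, hβ⟩ := h2 S (PerAlg H HB S) (p_base_ptB h1 hS x)
  obtain ⟨α, hα⟩ := h3 S (K ⊗[ℚ] PerAlg HB HB S) (p_base_ptA x)
  have key : ∀ r : PerAlg HB HB S, α (β r) = (1 : K) ⊗ₜ[ℚ] r := by
    intro r
    induction r using p_base_induct with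
    | hC a =>
      rw [AlgHom.commutes]
      have e1 : (algebraMap ℚ (PerAlg H HB S)) a =
        algebraMap K (PerAlg H HB S) (algebraMap ℚ K a) :=
        IsScalarTower.algebraMap_apply ℚ K (PerAlg H HB S) a
      rw [e1, AlgHom.commutes, Algebra.TensorProduct.algebraMap_apply,
        Algebra.algebraMap_eq_smul_one (R := ℚ) (A := PerAlg HB HB S),
        TensorProduct.tmul_smul, TensorProduct.smul_tmul', Algebra.algebraMap_self,
        RingHom.id_apply, Algebra.algebraMap_eq_smul_one (R := ℚ) (A := K)]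
    | hadd a b ha hb => rw [map_add, map_add, ha, hb, TensorProduct.tmul_add]
    | hmul a b ha hb =>
      rw [map_mul, map_mul, ha, hb, Algebra.TensorProduct.tmul_mul_tmul, one_mul]
    | hsym hN b σ =>
      rw [hβ hN b σ]
      show α (asym H HB hN (p_base_iota h1 hS x hN b) σ) = _
      rw [hα]
      exact p_base_pA_iota h1 hS x hN b σ
  let γ : K ⊗[ℚ] PerAlg HB HB S →ₐ[K] PerAlg H HB S :=
    Algebra.TensorProduct.lift (Algebra.ofId K (PerAlg H HB S)) β (fun _ _ => Commute.all _ _)
  have hγ : ∀ (a : K) (r : PerAlg HB HB S), γ (a ⊗ₜ[ℚ] r) = algebraMap K _ a * β r := by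
    intro a r
    exact Algebra.TensorProduct.lift_tmul _ _ _ _ _
  have hαγ : ∀ t, α (γ t) = t := by
    intro t
    induction t with
    | zero => rw [map_zero, map_zero]
    | tmul a r =>
      rw [hγ, map_mul, key, AlgHom.commutes, Algebra.TensorProduct.algebraMap_apply,
        Algebra.TensorProduct.tmul_mul_tmul, one_mul, mul_one, Algebra.algebraMap_self,
        RingHom.id_apply]
    | add s t hs ht => rw [map_add, map_add, hs, ht]
  have hsurj : Function.Surjective γ := by
    intro r
    induction r using p_base_induct with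
    | hC a => exact ⟨algebraMap K _ a, AlgHom.commutes _ _⟩
    | hadd a b ha hb =>
      obtain ⟨a', rfl⟩ := ha
      obtain ⟨b', rfl⟩ := hb
      exact ⟨a' + b', map_add _ _ _⟩
    | hmul a b ha hb =>
      obtain ⟨a', rfl⟩ := ha
      obtain ⟨b', rfl⟩ := hb
      exact ⟨a' * b', map_mul _ _ _⟩
    | hsym hN ω σ =>
      let L : H.obj _ →+ PerAlg H HB S :=
        { toFun := fun y => asym H HB hN y σ
          map_zero' := p_base_zl hN σ
          map_add' := fun y z => p_base_al hN y z σ }
      have e1 : L ω = ∑ j, L (x (asym H HB hN ω ((Module.finBasis ℚ (HB.obj _)).coord j)) •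
          p_base_iota h1 hS x hN (Module.finBasis ℚ (HB.obj _) j)) := by
        rw [← map_sum, ← p_base_expand h1 hS x hN ω]
      refine ⟨∑ j, x (asym H HB hN ω ((Module.finBasis ℚ (HB.obj _)).coord j)) ⊗ₜ[ℚ]
        asym HB HB hN (Module.finBasis ℚ (HB.obj _) j) σ, ?_⟩
      show _ = L ω
      rw [e1, map_sum]
      refine Finset.sum_congr rfl fun j _ => ?_
      show _ = asym H HB hN (_ • _) σ
      rw [p_base_sl, hγ, ← Algebra.smul_def]
      congr 1
      exact hβ hN _ σ
  have hγα : ∀ r, γ (α r) = r := by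
    intro r
    obtain ⟨t, rfl⟩ := hsurj r
    rw [hαγ]
  refine ⟨fun hN b => p_base_iota h1 hS x hN b,
    AlgEquiv.ofAlgHom α γ (AlgHom.ext hαγ) (AlgHom.ext hγα), ?_, ?_, ?_, ?_, ?_⟩
  · intro N hN b b'
    exact p_base_iota_add h1 hS x hN b b'
  · intro N hN q b
    exact p_base_iota_smul h1 hS x hN q b
  · intro N hN b σ
    exact p_base_iota_spec h1 hS x hN b σ
  · intro N hN b σ
    show α (asym H HB hN (p_base_iota h1 hS x hN b) σ) = _
    rw [hα]
    exact p_base_pA_iota h1 hS x hN b σ
  · intro N hN ω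
    obtain ⟨n, κ, b', hκ, hsum⟩ := base2_collect (K := K)
      (fun b => p_base_iota h1 hS x hN b) (fun a b => p_base_iota_add h1 hS x hN a b)
      (fun q a => p_base_iota_smul h1 hS x hN q a)
      (fun j => x (asym H HB hN ω ((Module.finBasis ℚ (HB.obj N)).coord j)))
      (fun j => Module.finBasis ℚ (HB.obj N) j)
    exact ⟨n, κ, b', hκ, (p_base_expand h1 hS x hN ω).trans hsum⟩

end

end Pool.Agent.Lib.MP_ae0f86_nt
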