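import Pool.Agent.Lib.MP_ae0f86_nt.StmD2
import Pool.Agent.Lib.MP_ae0f86_nt.P.Cubic

/-!
# MP_ae0f86_nt : piece `[GE cubic2]`
-/

set_option autoImplicit false

universe w v u

open CategoryTheory CategoryTheory.Limits Opposite MonoidalCategory

namespace Pool.Agent.Lib.MP_ae0f86_nt

noncomputable section

attribute [local instance] CategoryTheory.Abelian.hasFiniteBiproducts

theorem e_cubic2 {A : Type u} [Category.{v} A] [Abelian A] [MonoidalCategory A] {k : Type}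
    [Field k] (T : CohTheory k A) : S_cubic2 T := by
  intro ι κ _ _ g c hc hs i hi
  obtain ⟨j, hj2⟩ : ∃ j : ℤ, i + 2 * (c : ℤ) - 1 = j := ⟨_, rfl⟩
  have hj : i + 2 * (c : ℤ) = j + 1 := by omega
  have hj1 : 1 ≤ j := by omega
  have hp := T.purity i g c hs
  rw [hj] at hp
  rw [hj2]
  obtain ⟨φ⟩ := hp
  let t : AffTriple k := ⟨ι ⊕ κ, inferInstance, Set.univ, hyp g, ∅, IsAlg.univ, hyp_alg g,
    IsAlg.empty, Set.subset_univ _, Set.empty_subset _⟩
  have hz : IsZero ((T.h (j + 1)).obj (op t.XZ)) :=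
    p_cubic_affine T (ι ⊕ κ) (j + 1) (by omega)
  have hz0 : IsZero ((T.h j).obj (op t.XZ)) :=
    p_cubic_affine T (ι ⊕ κ) j (by omega)
  obtain ⟨w1, hw1⟩ := T.exact_XY j t
  obtain ⟨w2, hw2⟩ := T.exact_YZ j t
  have he : Epi (T.δ j t) :=
    (ShortComplex.exact_iff_epi _ (hz.eq_of_tgt _ _)).1 hw1
  have hm : Mono (T.δ j t) :=
    (ShortComplex.exact_iff_mono _ (hz0.eq_of_src _ _)).1 hw2
  have hi' : IsIso (T.δ j t) := isIso_of_mono_of_epi _
  let e1 : (T.h j).obj (op (AffPair.abs (hyp_alg g))) ≅ (T.h (j + 1)).obj (op t.XY) :=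
    asIso (T.δ j t)
  let e2 : (T.h (j + 1)).obj (op t.XY) ≅
      (T.h i).obj (op (AffPair.abs (zl_alg g))) ⊗ tpow T.L c := φ
  exact ⟨e1 ≪≫ e2⟩

end

end Pool.Agent.Lib.MP_ae0f86_nt
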