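import Pool.Agent.Lib.MP_ae0f86_nt.D.Law

/-!
# MP_ae0f86_nt : density for the cubic hypersurfaces, from the pieces
-/

open CategoryTheory CategoryTheory.Limits MvPolynomial Opposite MonoidalCategory

universe w v u

namespace Pool.Agent.Lib.MP_ae0f86_nt

noncomputable section

attribute [local instance] CategoryTheory.Abelian.hasFiniteBiproducts

section Cubic

variable {A : Type u} [Category.{v} A] [Abelian A] [MonoidalCategory A] [SymmetricCategory A]
  [RigidCategory A] [Linear ℚ A] [MonoidalPreadditive A] {HdR : A ⥤ ModuleCat.{0} QBar}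
  {HB : A ⥤ ModuleCat.{0} ℚ} [FibreFunctor HdR] [FibreFunctor HB]

/-- For every smooth zero locus `Z = {q = 0}` of sign quadrics, of codimension `≥ 1`, at least the
proportion `δ` of the predicted number of periods of the positive degree cohomology of the cubic
hypersurface `V = {∑ y_j q_j(x) = 1}` is linearly independent. -/
def CubicDensity (T : CohTheory QBar A) (c : Comparison HdR HB) (δ : ℝ) : Prop :=
  ∀ (n r s : ℕ) (q : Fin r → MvPolynomial (Fin n) ℤ), 1 ≤ s → (∀ j, SignQuadric (q j)) →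
    IsSmooth s (zq q) → δ * (Nf HB (T.pos (cubic q)) : ℝ) ≤ Pf c (T.pos (cubic q))

theorem cubicdensity (T : CohTheory QBar A) (c : Comparison HdR HB) (hK : T.Kunneth)
    (hlaw : ∀ M : A, Lin M (𝟙_ A) → LawFor c M) (hfwtop : S_fwtop c) (hlineqv : S_lineqv c)
    (htwist : S_twisteqv c) (hherdim : S_herdim c) (hgentate : S_gentate A) (hunit : S_unitq T)
    (hpos : S_poseqv T) (hgeoz : S_geoz T) (hpowq : S_powq T HdR HB) (hgc : S_genclosed (A := A))
    (htw : S_twist T) (hlincl : S_lincl A) (hcomps : S_comps.{u}) (hpdec : S_pdec HdR HB)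
    (hdims : S_dims c) :
    (∀ δ : ℝ, 0 < δ → (CubicDensity T c δ ↔
      ∀ M : A, DimFormula c M ∧ δ * (ncomp HdR HB M : ℝ) ≤ 1)) ∧
    ((∀ M : A, PeriodConjecture c M) ↔ ∃ δ : ℝ, 1 / 2 < δ ∧ CubicDensity T c δ) := by
  -- numbers for `T.pos V` and `T.total Z`
  have hNP : ∀ (n r s : ℕ) (q : Fin r → MvPolynomial (Fin n) ℤ), 1 ≤ s → IsSmooth s (zq q) →
      Nf HB (T.pos (cubic q)) = Nf HB (T.tq q) ∧ Pf c (T.pos (cubic q)) = Pf c (T.tq q) := by
    intro n r s q hs hsm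
    obtain ⟨h1, h2⟩ := hpos (fun j => MvPolynomial.map (Int.castRingHom QBar) (q j)) s hs hsm
    obtain ⟨h3, h4⟩ := hlineqv _ _ h1
    obtain ⟨h5, h6⟩ := hlineqv _ _ h2
    obtain ⟨h7, h8⟩ := htwist T.L T.tate (T.tq q) T.tateIso s
    exact ⟨(le_antisymm h5 h3).trans h7, (le_antisymm h6 h4).trans h8⟩
  have main : ∀ δ : ℝ, 0 < δ → (CubicDensity T c δ ↔
      ∀ M : A, DimFormula c M ∧ δ * (ncomp HdR HB M : ℝ) ≤ 1) := by
    intro δ hδ
    constructor
    · intro hcd N
      obtain ⟨e, n, r, s, q, hs, hq, hsm, hne, hL1, hL2⟩ := hgeoz N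
      set M : A := T.tq q with hM
      have hM1 : Lin M (𝟙_ A) := hunit _ hne
      have hGL : Gen M T.L := hgc.2.2.1 _ _ hL2
      have hGt : Gen M T.tate := hgentate T.L T.tate T.tateIso M hGL
      have hpw : ∀ (X : A), Gen M X → ∀ e : ℕ, Gen M (tpow X e) := by
        intro X hX e
        induction e with
        | zero => exact Gen.unit
        | succ e ih => exact Gen.tensor ih hX
      have hGN : Gen M N := by
        have h1 : Gen M (N ⊗ tpow T.L e) := hgc.2.2.1 _ _ hL1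
        have h2 : Gen M ((N ⊗ tpow T.L e) ⊗ tpow T.tate e) := Gen.tensor h1 (hpw _ hGt e)
        obtain ⟨i3⟩ := htw.2.1 N e 0
        let i : N ≅ (N ⊗ tpow T.L e) ⊗ tpow T.tate e :=
          (ρ_ N).symm ≪≫ i3.symm ≪≫ α_ N _ _ ≪≫
            whiskerLeftIso N (β_ (tpow T.tate e) (tpow T.L e)) ≪≫ (α_ N _ _).symm
        exact Gen.sub i.hom h2
      obtain ⟨r', g, t, hr', htg, hfin, hnc, hg, ht, ⟨a, b, ha, hab⟩, hlim, htend, hdf, -, -, -⟩ :=
        hlaw M hM1
      have hle : ∀ k : ℕ, 1 ≤ k →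
          δ * (Nf HB (tpow M k) : ℝ) ≤ Pf c (tpow M k) := by
        intro k hk
        obtain ⟨n', r'', s', q', hs', hq', hsm', -, hfw⟩ := hpowq hK s q hs hq hsm hne k hk
        have h1 := hcd n' r'' s' q' hs' hq' hsm'
        rw [(hNP n' r'' s' q' hs' hsm').1, (hNP n' r'' s' q' hs' hsm').2] at h1
        rw [(hfwtop (T.tq q')).1, (hfwtop (T.tq q')).2, hfw] at h1
        rwa [(hfwtop (tpow M k)).1, (hfwtop (tpow M k)).2]
      have hNpos : ∀ k : ℕ, (0 : ℝ) < Nf HB (tpow M k) := fun k =>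
        lt_of_lt_of_le (by positivity) (hab k).1
      have hlim2 : δ ≤ (if t = g then (1 : ℝ) / r' else 0) := by
        refine ge_of_tendsto htend ?_
        filter_upwards [Filter.eventually_ge_atTop 1] with k hk
        rw [le_div_iff₀ (hNpos k)]
        exact hle k hk
      have htg' : t = g := by
        by_contra h
        rw [if_neg h] at hlim2
        linarith
      rw [if_pos htg'] at hlim2
      have hDM : DimFormula c M := hdf.2 htg'
      obtain ⟨h1, h2⟩ := hherdim M N hGN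
      refine ⟨h2 hDM, ?_⟩
      have hr0 : (0 : ℝ) < r' := by exact_mod_cast hr'
      have h3 : (ncomp HdR HB N : ℝ) ≤ r' := by
        rw [← hnc]
        exact_mod_cast h1
      calc δ * (ncomp HdR HB N : ℝ) ≤ δ * r' := mul_le_mul_of_nonneg_left h3 hδ.le
        _ ≤ 1 / r' * r' := mul_le_mul_of_nonneg_right hlim2 hr0.le
        _ = 1 := by field_simp
    · intro hall n r s q hs hq hsm
      -- apply the law to `1 ⊞ W`
      set W : A := T.pos (cubic q) with hW
      have hM1 : Lin (𝟙_ A ⊞ W) (𝟙_ A) :=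
        (hlincl.1 (𝟙_ A ⊞ W)).sub (biprod.inl : 𝟙_ A ⟶ 𝟙_ A ⊞ W) (hlincl.2.1 _)
      have hGW : Gen (𝟙_ A ⊞ W) W := Gen.sub (biprod.inr : W ⟶ 𝟙_ A ⊞ W) Gen.base
      obtain ⟨r', g, t, hr', htg, hfin, hnc, hg, ht, -, hlim, htend, hdf, -, -, -⟩ :=
        hlaw (𝟙_ A ⊞ W) hM1
      obtain ⟨h1, h2⟩ := hall (𝟙_ A ⊞ W)
      have h3 := (hlim (hdf.1 h1)).2 W hGW
      rw [hnc] at h2
      have h4 : (Nf HB W : ℝ) ≤ r' * Pf c W := by exact_mod_cast h3
      calc δ * (Nf HB W : ℝ) ≤ δ * (r' * Pf c W) := mul_le_mul_of_nonneg_left h4 hδ.le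
        _ = (δ * r') * Pf c W := by ring
        _ ≤ 1 * Pf c W := mul_le_mul_of_nonneg_right h2 (by positivity)
        _ = Pf c W := one_mul _
  refine ⟨main, ?_⟩
  have hconn : ∀ M : A, 1 ≤ ncomp HdR HB M ∧
      (ConnectedSpace (PrimeSpectrum (PerAlg HdR HB (Gen M))) ↔ ncomp HdR HB M = 1) := by
    intro M
    obtain ⟨r, e, hdec⟩ := hpdec M
    obtain ⟨hr, -⟩ := hdims M r e hdec
    obtain ⟨-, h2, h3⟩ := hcomps _ r e hdec
    rw [ncomp, h2]
    exact ⟨hr, h3⟩
  constructor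
  · intro h
    refine ⟨1, by norm_num, (main 1 one_pos).2 fun M => ?_⟩
    obtain ⟨h1, h2⟩ := h M
    rw [(hconn M).2] at h1
    exact ⟨h2, by rw [h1]; norm_num⟩
  · rintro ⟨δ, hδ, h⟩ M
    obtain ⟨h1, h2⟩ := (main δ (by linarith)).1 h M
    refine ⟨?_, h1⟩
    rw [(hconn M).2]
    have h3 := (hconn M).1
    by_contra h4
    have h5 : (2 : ℝ) ≤ ncomp HdR HB M := by
      have : 2 ≤ ncomp HdR HB M := by omega
      exact_mod_cast this
    nlinarith

end Cubic

end

end Pool.Agent.Lib.MP_ae0f86_nt
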