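import Pool.Agent.Lib.MP_ae0f86_nt.StmD

set_option autoImplicit false

/-!
# MP_ae0f86_nt : piece GD cut
-/

universe w v u

open CategoryTheory CategoryTheory.Limits Opposite MonoidalCategory

namespace Pool.Agent.Lib.MP_ae0f86_nt

section Cut

variable {K : Type} [Field K] {R : Type w} [CommRing R] [Algebra K R]

/-- The subspace `e F`. -/
def cut_mul (e : R) (F : Submodule K R) : Submodule K R := F.map (LinearMap.mulLeft K e)

theorem cut_mk (e : R) (a : R) :
    Ideal.Quotient.mkₐ K (Ideal.span {1 - e}) (e * a) =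
      Ideal.Quotient.mkₐ K (Ideal.span {1 - e}) a := by
  rw [Ideal.Quotient.mkₐ_eq_mk, Ideal.Quotient.eq]
  have : e * a - a = (-a) * (1 - e) := by ring
  rw [this]
  exact Ideal.mul_mem_left _ _ (Ideal.subset_span rfl)

theorem cut_comp_eq (e : R) (F : Submodule K R) :
    comp K e F = comp K e (cut_mul e F) := by
  apply le_antisymm
  · rintro _ ⟨a, ha, rfl⟩
    exact ⟨e * a, ⟨a, ha, rfl⟩, cut_mk (K := K) e a⟩
  · rintro _ ⟨_, ⟨a, ha, rfl⟩, rfl⟩
    exact ⟨a, ha, (cut_mk (K := K) e a).symm⟩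

theorem cut_finrank (e : R) (he : e * e = e)
    (hI : ∀ a, a ∈ Ideal.span {1 - e} ↔ e * a = 0) (F : Submodule K R) :
    Module.finrank K (comp K e F) = Module.finrank K (cut_mul e F) := by
  rw [cut_comp_eq e]
  symm
  unfold comp
  set f := (Ideal.Quotient.mkₐ K (Ideal.span {1 - e})).toLinearMap with hf
  have hinj : Function.Injective (f.domRestrict (cut_mul e F)) := by
    rw [← LinearMap.ker_eq_bot, LinearMap.ker_eq_bot']
    rintro ⟨_, ⟨a, ha, rfl⟩⟩ h
    have h1 : Ideal.Quotient.mk (Ideal.span {1 - e}) (e * a) = 0 := h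
    rw [Ideal.Quotient.eq_zero_iff_mem, hI, ← mul_assoc, he] at h1
    exact Subtype.ext h1
  have h2 := LinearMap.finrank_range_of_inj hinj
  rw [LinearMap.range_domRestrict] at h2
  exact h2.symm

theorem cut_lower {r : ℕ} (e : Fin r → R) (hs : ∑ i, e i = 1)
    (hI : ∀ i a, a ∈ Ideal.span {1 - e i} ↔ e i * a = 0) (F : Submodule K R)
    [Module.Finite K F] :
    Module.finrank K F ≤ ∑ i, Module.finrank K (comp K (e i) F) := by
  have : ∀ i, Module.Finite K (comp K (e i) F) := fun i => Module.Finite.map _ _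
  rw [← Module.finrank_pi_fintype]
  let g : F →ₗ[K] (∀ i, comp K (e i) F) := LinearMap.pi fun i =>
    ((Ideal.Quotient.mkₐ K (Ideal.span {1 - e i})).toLinearMap.restrict
      (p := F) (q := comp K (e i) F) (fun a ha => ⟨a, ha, rfl⟩))
  refine LinearMap.finrank_le_finrank_of_injective (f := g) ?_
  rw [← LinearMap.ker_eq_bot, LinearMap.ker_eq_bot']
  rintro ⟨a, ha⟩ h
  have h1 : ∀ i, e i * a = 0 := by
    intro i
    have h2 := congrArg Subtype.val (congrFun h i)
    have h3 : Ideal.Quotient.mk (Ideal.span {1 - e i}) a = 0 := h2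
    rwa [Ideal.Quotient.eq_zero_iff_mem, hI] at h3
  apply Subtype.ext
  change a = 0
  rw [← one_mul a, ← hs, Finset.sum_mul]
  exact Finset.sum_eq_zero fun i _ => h1 i

theorem cut_upper {r : ℕ} (e : Fin r → R) (he : Dec R r e)
    (hI : ∀ i a, a ∈ Ideal.span {1 - e i} ↔ e i * a = 0) (F F' : Submodule K R)
    [Module.Finite K F] [Module.Finite K F'] (hF' : ∀ j, e j ∈ F') :
    ∑ i, Module.finrank K (comp K (e i) F) ≤ Module.finrank K ↥(F' * F) := by
  have : Module.Finite K ↥(F' * F) := Module.Finite.iff_fg.2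
    (Submodule.FG.mul (Module.Finite.iff_fg.1 inferInstance) (Module.Finite.iff_fg.1 inferInstance))
  have : ∀ i, Module.Finite K (cut_mul (e i) F) := fun i => Module.Finite.map _ _
  have h0 : ∀ i, Module.finrank K (comp K (e i) F) = Module.finrank K (cut_mul (e i) F) :=
    fun i => cut_finrank (e i) (he.idem i) (hI i) F
  rw [Finset.sum_congr rfl fun i _ => h0 i, ← Module.finrank_pi_fintype]
  have hle : ∀ i, cut_mul (e i) F ≤ F' * F := by
    rintro i _ ⟨a, ha, rfl⟩
    exact Submodule.mul_mem_mul (hF' i) ha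
  let g : (∀ i, cut_mul (e i) F) →ₗ[K] ↥(F' * F) :=
    ∑ i, (Submodule.inclusion (hle i)) ∘ₗ LinearMap.proj i
  refine LinearMap.finrank_le_finrank_of_injective (f := g) ?_
  rw [← LinearMap.ker_eq_bot, LinearMap.ker_eq_bot']
  intro x h
  have h1 : ∑ i, (x i : R) = 0 := by
    have h2 := congrArg (Submodule.subtype (F' * F)) h
    rw [map_zero] at h2
    rw [← h2]
    simp only [g, LinearMap.sum_apply, map_sum, LinearMap.comp_apply, LinearMap.proj_apply]
    rfl
  funext j
  apply Subtype.ext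
  change (x j : R) = 0
  have hx : ∀ i, ∃ a, (x i : R) = e i * a := by
    intro i
    obtain ⟨a, _, ha⟩ := (x i).2
    exact ⟨a, ha.symm⟩
  have h3 : e j * ∑ i, (x i : R) = (x j : R) := by
    rw [Finset.mul_sum, Finset.sum_eq_single j]
    · obtain ⟨a, ha⟩ := hx j
      rw [ha, ← mul_assoc, he.idem]
    · intro i _ hij
      obtain ⟨a, ha⟩ := hx i
      rw [ha, ← mul_assoc, he.orth j i hij.symm, zero_mul]
    · intro h
      exact absurd (Finset.mem_univ j) h
  rw [← h3, h1, mul_zero]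

theorem cut_perm {r : ℕ} (e : Fin r → R) (he : Dec R r e)
    (hI : ∀ i a, a ∈ Ideal.span {1 - e i} ↔ e i * a = 0) (F : Submodule K R)
    (i j : Fin r) (τ : R ≃ₐ[K] R) (hτ : τ (e i) = e j) (hF : F.map τ.toLinearMap = F) :
    Module.finrank K (comp K (e i) F) = Module.finrank K (comp K (e j) F) := by
  rw [cut_finrank (e i) (he.idem i) (hI i) F, cut_finrank (e j) (he.idem j) (hI j) F]
  have h : (cut_mul (e i) F).map τ.toLinearEquiv.toLinearMap = cut_mul (e j) F := by
    apply le_antisymm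
    · rintro _ ⟨_, ⟨a, ha, rfl⟩, rfl⟩
      refine ⟨τ a, ?_, ?_⟩
      · rw [← hF]
        exact ⟨a, ha, rfl⟩
      · change e j * τ a = τ (e i * a)
        rw [map_mul, hτ]
    · rintro _ ⟨a, ha, rfl⟩
      rw [SetLike.mem_coe, ← hF] at ha
      obtain ⟨b, hb, rfl⟩ := ha
      refine ⟨e i * b, ⟨b, hb, rfl⟩, ?_⟩
      change τ (e i * b) = e j * τ b
      rw [map_mul, hτ]
  rw [← h]
  exact (LinearEquiv.finrank_map_eq τ.toLinearEquiv (cut_mul (e i) F)).symm

end Cut

theorem d_cut (h1 : S_decdom.{w}) : S_cut.{w} := by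
  intro K _ R _ _ r e he
  have hI : ∀ i a, a ∈ Ideal.span {1 - e i} ↔ e i * a = 0 := fun i => (h1 R r e he i).2
  refine ⟨?_, ?_, ?_, ?_, ?_, ?_, ?_, ?_⟩
  · intro F _
    exact cut_lower e he.sum hI F
  · intro F F' _ _ hF'
    exact cut_upper e he hI F F' hF'
  · intro F i j τ hτ hF
    exact cut_perm e he hI F i j τ hτ hF
  · intro V i n
    exact Submodule.map_pow _ _ _
  · intro V i h
    exact ⟨1, h, map_one (Ideal.Quotient.mkₐ K (Ideal.span {1 - e i}))⟩
  · intro V i h x
    obtain ⟨a, rfl⟩ := Ideal.Quotient.mk_surjective x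
    obtain ⟨n, hn⟩ := h a
    refine ⟨n, ?_⟩
    have h2 : comp K (e i) (V ^ n) = (comp K (e i) V) ^ n := Submodule.map_pow _ _ _
    rw [← h2]
    exact ⟨a, hn, rfl⟩
  · intro F _ i
    exact Module.Finite.map _ _
  · intro F _ i
    exact Submodule.finrank_map_le _ _

end Pool.Agent.Lib.MP_ae0f86_nt
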