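import Pool.Agent.Lib.MP_ae0f86_nt.StmD2
import Pool.Agent.Lib.MP_ae0f86_nt.D.Cut

/-!
# MP_ae0f86_nt : [GE cut2]
-/

set_option autoImplicit false

universe w v u

open CategoryTheory CategoryTheory.Limits Opposite MonoidalCategory

namespace Pool.Agent.Lib.MP_ae0f86_nt

section Cut2

variable {K : Type} [Field K] {R : Type w} [CommRing R] [Algebra K R]

theorem cut2_finrank (e s : R) (hes : e * s = s) (hs : ∀ a, s * a = 0 → e * a = 0)
    (hI : ∀ a, a ∈ Ideal.span {1 - e} ↔ e * a = 0) (F : Submodule K R) [Module.Finite K F] :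
    Module.finrank K (comp K e F) = Module.finrank K (cut_mul s F) := by
  set f1 := ((Ideal.Quotient.mkₐ K (Ideal.span {1 - e})).toLinearMap).domRestrict F with hf1
  set f2 := (LinearMap.mulLeft K s).domRestrict F with hf2
  have hr1 : LinearMap.range f1 = comp K e F := by
    rw [hf1, LinearMap.range_domRestrict]
    rfl
  have hr2 : LinearMap.range f2 = cut_mul s F := by
    rw [hf2, LinearMap.range_domRestrict]
    rfl
  have hk : LinearMap.ker f1 = LinearMap.ker f2 := by
    ext ⟨a, ha⟩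
    rw [LinearMap.mem_ker, LinearMap.mem_ker]
    have h1 : f1 ⟨a, ha⟩ = 0 ↔ e * a = 0 := by
      rw [← hI]
      exact Ideal.Quotient.eq_zero_iff_mem
    have h2 : f2 ⟨a, ha⟩ = 0 ↔ s * a = 0 := Iff.rfl
    rw [h1, h2]
    constructor
    · intro h
      rw [← hes, mul_comm e s, mul_assoc, h, mul_zero]
    · exact hs a
  have h1 := LinearMap.finrank_range_add_finrank_ker f1
  have h2 := LinearMap.finrank_range_add_finrank_ker f2
  rw [hr1, hk] at h1
  rw [hr2] at h2
  omega

theorem cut2_upper {r : ℕ} (e : Fin r → R) (he : Dec R r e)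
    (hI : ∀ i a, a ∈ Ideal.span {1 - e i} ↔ e i * a = 0) (F F' : Submodule K R)
    [Module.Finite K F] [Module.Finite K F'] (s : Fin r → R) (hF' : ∀ j, s j ∈ F')
    (hes : ∀ i, e i * s i = s i) (hs : ∀ i a, s i * a = 0 → e i * a = 0) :
    ∑ i, Module.finrank K (comp K (e i) F) ≤ Module.finrank K ↥(F' * F) := by
  have : Module.Finite K ↥(F' * F) := Module.Finite.iff_fg.2
    (Submodule.FG.mul (Module.Finite.iff_fg.1 inferInstance) (Module.Finite.iff_fg.1 inferInstance))
  have : ∀ i, Module.Finite K (cut_mul (s i) F) := fun i => Module.Finite.map _ _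
  have h0 : ∀ i, Module.finrank K (comp K (e i) F) = Module.finrank K (cut_mul (s i) F) :=
    fun i => cut2_finrank (e i) (s i) (hes i) (hs i) (hI i) F
  rw [Finset.sum_congr rfl fun i _ => h0 i, ← Module.finrank_pi_fintype]
  have hle : ∀ i, cut_mul (s i) F ≤ F' * F := by
    rintro i _ ⟨a, ha, rfl⟩
    exact Submodule.mul_mem_mul (hF' i) ha
  let g : (∀ i, cut_mul (s i) F) →ₗ[K] ↥(F' * F) :=
    ∑ i, (Submodule.inclusion (hle i)) ∘ₗ LinearMap.proj i
  refine LinearMap.finrank_le_finrank_of_injective (f := g) ?_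
  rw [← LinearMap.ker_eq_bot, LinearMap.ker_eq_bot']
  intro x h
  have h1 : ∑ i, (x i : R) = 0 := by
    have h2 := congrArg (Submodule.subtype (F' * F)) h
    rw [map_zero] at h2
    rw [← h2]
    simp only [g, LinearMap.sum_apply, map_sum, LinearMap.comp_apply, LinearMap.proj_apply]
    rfl
  funext j
  apply Subtype.ext
  change (x j : R) = 0
  have hx : ∀ i, ∃ a, (x i : R) = e i * a := by
    intro i
    obtain ⟨a, _, ha⟩ := (x i).2
    refine ⟨s i * a, ?_⟩
    rw [← mul_assoc, hes i]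
    exact ha.symm
  have h3 : e j * ∑ i, (x i : R) = (x j : R) := by
    rw [Finset.mul_sum, Finset.sum_eq_single j]
    · obtain ⟨a, ha⟩ := hx j
      rw [ha, ← mul_assoc, he.idem]
    · intro i _ hij
      obtain ⟨a, ha⟩ := hx i
      rw [ha, ← mul_assoc, he.orth j i hij.symm, zero_mul]
    · intro h
      exact absurd (Finset.mem_univ j) h
  rw [← h3, h1, mul_zero]

end Cut2

theorem e_cut2 (h1 : S_decdom.{w}) : S_cut2.{w} := by
  intro K _ R _ _ r e he
  have hI : ∀ i a, a ∈ Ideal.span {1 - e i} ↔ e i * a = 0 := fun i => (h1 R r e he i).2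
  refine ⟨?_, ?_⟩
  · intro F F' _ _ s hF' hes hs
    exact cut2_upper e he hI F F' s hF' hes hs
  · rintro V i ⟨δ, hδ, ⟨n0, hn0⟩, hex⟩
    have hp : ∀ n, comp K (e i) (V ^ n) = (comp K (e i) V) ^ n := fun n =>
      Submodule.map_pow _ _ _
    refine ⟨Ideal.Quotient.mk (Ideal.span {1 - e i}) δ, hδ.map _, ⟨n0, ?_⟩, ?_⟩
    · rw [← hp]
      exact ⟨δ, hn0, rfl⟩
    · intro x
      obtain ⟨a, rfl⟩ := Ideal.Quotient.mk_surjective x
      obtain ⟨m, n, hmn⟩ := hex a
      refine ⟨m, n, ?_⟩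
      rw [← hp, ← map_pow, ← map_mul]
      exact ⟨δ ^ m * a, hmn, rfl⟩

end Pool.Agent.Lib.MP_ae0f86_nt
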