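import Pool.Agent.Lib.MP_ae0f86_nt.StmD

set_option autoImplicit false

universe w v u

open CategoryTheory CategoryTheory.Limits Opposite MonoidalCategory

namespace Pool.Agent.Lib.MP_ae0f86_nt

theorem d_decdom : S_decdom.{w} := by
  intro R _ r e h i
  have hmem : ∀ a, a ∈ Ideal.span {1 - e i} ↔ e i * a = 0 := by
    intro a
    rw [Ideal.mem_span_singleton']
    constructor
    · rintro ⟨b, rfl⟩
      linear_combination (-b) * h.idem i
    · intro ha
      exact ⟨a, by linear_combination -ha⟩
  have hp : (Ideal.span {1 - e i}).IsPrime := by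
    refine ⟨fun htop => ?_, fun {a b} hab => ?_⟩
    · have h1 : (1 : R) ∈ Ideal.span {1 - e i} := by
        rw [htop]
        exact Submodule.mem_top
      rw [hmem, mul_one] at h1
      exact h.ne i h1
    · rw [hmem] at hab
      rw [hmem, hmem]
      exact h.dom i a b hab
  exact ⟨Ideal.Quotient.isDomain _, hmem⟩

end Pool.Agent.Lib.MP_ae0f86_nt
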