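import Pool.Agent.Lib.MP_ae0f86_nt.StmD

set_option autoImplicit false

universe w v u

open CategoryTheory CategoryTheory.Limits Opposite MonoidalCategory

namespace Pool.Agent.Lib.MP_ae0f86_nt

/-- the elements killed by something outside the maximal ideal `m` -/
private def decomp_q {R : Type w} [CommRing R] (m : Ideal R) (hm : m.IsMaximal) : Ideal R where
  carrier := {a | ∃ s, s ∉ m ∧ s * a = 0}
  zero_mem' := ⟨1, fun h => hm.ne_top ((Ideal.eq_top_iff_one m).mpr h), by simp⟩
  add_mem' := by
    rintro a b ⟨s, hs, ha⟩ ⟨t, ht, hb⟩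
    refine ⟨s * t, fun h => ?_, ?_⟩
    · rcases hm.isPrime.mem_or_mem h with h | h
      · exact hs h
      · exact ht h
    · linear_combination t * ha + s * hb
  smul_mem' := by
    rintro c a ⟨s, hs, ha⟩
    refine ⟨s, hs, ?_⟩
    rw [smul_eq_mul]
    linear_combination c * ha

theorem d_decomp : S_decomp.{w} := by
  intro R _ _ hyp
  have hq : ∀ (m : Ideal R) (hm : m.IsMaximal), (decomp_q m hm).IsPrime := by
    intro m hm
    refine ⟨fun htop => ?_, fun {a b} hab => ?_⟩
    · have h1 : (1 : R) ∈ decomp_q m hm := by
        rw [htop]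
        exact Submodule.mem_top
      obtain ⟨s, hs, h⟩ := h1
      rw [mul_one] at h
      exact hs (h ▸ m.zero_mem)
    · obtain ⟨s, hs, h⟩ := hab
      rcases hyp m hm (s * a) b (by linear_combination h) with ⟨t, ht, h'⟩ | ⟨t, ht, h'⟩
      · refine Or.inl ⟨t * s, fun h => ?_, by linear_combination h'⟩
        rcases hm.isPrime.mem_or_mem h with h | h
        · exact ht h
        · exact hs h
      · exact Or.inr ⟨t, ht, h'⟩
  -- a minimal prime below a maximal ideal
  have hA : ∀ (m : Ideal R) (hm : m.IsMaximal) (p : Ideal R), p ∈ minimalPrimes R → p ≤ m → p = decomp_q m hm := by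
    intro m hm p hp hpm
    have hpp : p.IsPrime := hp.1.1
    have hle : decomp_q m hm ≤ p := by
      rintro a ⟨s, hs, ha⟩
      have h0 : s * a ∈ p := by rw [ha]; exact p.zero_mem
      rcases hpp.mem_or_mem h0 with h | h
      · exact absurd (hpm h) hs
      · exact h
    exact le_antisymm (hp.2 ⟨hq m hm, bot_le⟩ hle) hle
  have hfin : (minimalPrimes R).Finite := minimalPrimes.finite_of_isNoetherianRing R
  have : Fintype (minimalPrimes R) := hfin.fintype
  set r := Fintype.card (minimalPrimes R) with hr
  let φ : Fin r ≃ minimalPrimes R := (Fintype.equivFin (minimalPrimes R)).symm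
  let P : Fin r → Ideal R := fun i => (φ i).1
  have hPm : ∀ i, P i ∈ minimalPrimes R := fun i => (φ i).2
  have hPp : ∀ i, (P i).IsPrime := fun i => (hPm i).1.1
  have hcop : Pairwise (Function.onFun IsCoprime P) := by
    intro i j hij
    show IsCoprime (P i) (P j)
    rw [Ideal.isCoprime_iff_sup_eq]
    by_contra hne
    obtain ⟨m, hm, hle⟩ := Ideal.exists_le_maximal _ hne
    have h1 := hA m hm (P i) (hPm i) (le_sup_left.trans hle)
    have h2 := hA m hm (P j) (hPm j) (le_sup_right.trans hle)
    exact hij (φ.injective (Subtype.ext (h1.trans h2.symm)))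
  have hzero : ∀ a : R, (∀ i, a ∈ P i) → a = 0 := by
    intro a ha
    by_contra hne
    let I : Ideal R := Submodule.annihilator (Ideal.span {a})
    have hI : I ≠ ⊤ := by
      intro htop
      have h1 : (1 : R) ∈ I := by
        rw [htop]
        exact Submodule.mem_top
      rw [Submodule.mem_annihilator] at h1
      have := h1 a (Ideal.mem_span_singleton_self a)
      rw [one_smul] at this
      exact hne this
    obtain ⟨m, hm, hle⟩ := Ideal.exists_le_maximal _ hI
    have := hq m hm
    obtain ⟨p, hp, hpq⟩ := Ideal.exists_minimalPrimes_le (I := (⊥ : Ideal R)) (J := decomp_q m hm) bot_le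
    have hpa : a ∈ p := by
      have := ha (φ.symm ⟨p, hp⟩)
      simpa [P] using this
    obtain ⟨s, hs, hsa⟩ := hpq hpa
    apply hs
    apply hle
    rw [Submodule.mem_annihilator]
    intro b hb
    rw [Ideal.mem_span_singleton'] at hb
    obtain ⟨c, rfl⟩ := hb
    rw [smul_eq_mul]
    linear_combination c * hsa
  have hex : ∀ i : Fin r, ∃ x : R, ∀ j, x - (if i = j then 1 else 0) ∈ P j := fun i =>
    Ideal.exists_forall_sub_mem_ideal hcop (fun j => if i = j then 1 else 0)
  choose e he using hex
  have hone : ∀ i, e i - 1 ∈ P i := fun i => by simpa using he i i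
  have hoff : ∀ i j, i ≠ j → e i ∈ P j := fun i j hij => by simpa [hij] using he i j
  have hni : ∀ i, e i ∉ P i := by
    intro i hi
    apply (hPp i).ne_top
    rw [Ideal.eq_top_iff_one]
    have := (P i).sub_mem hi (hone i)
    simpa using this
  refine ⟨r, e, ⟨?_, ?_, ?_, ?_, ?_⟩⟩
  · intro i h0
    apply hni i
    rw [h0]
    exact (P i).zero_mem
  · intro i
    rw [← sub_eq_zero]
    apply hzero
    intro j
    by_cases hij : i = j
    · subst hij
      have : e i * e i - e i = e i * (e i - 1) := by ring
      rw [this]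
      exact (P i).mul_mem_left _ (hone i)
    · have : e i * e i - e i = (e i - 1) * e i := by ring
      rw [this]
      exact (P j).mul_mem_left _ (hoff i j hij)
  · intro i j hij
    apply hzero
    intro k
    by_cases hik : i = k
    · subst hik
      exact (P i).mul_mem_left _ (hoff j i hij.symm)
    · exact (P k).mul_mem_right _ (hoff i k hik)
  · rw [← sub_eq_zero]
    apply hzero
    intro j
    have h1 : ∑ i, e i - 1 = ∑ i ∈ Finset.univ.erase j, e i + (e j - 1) := by
      rw [← Finset.sum_erase_add _ _ (Finset.mem_univ j)]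
      ring
    rw [h1]
    refine (P j).add_mem (Ideal.sum_mem _ fun i hi => hoff i j (Finset.ne_of_mem_erase hi)) (hone j)
  · intro i a b hab
    have h1 : e i * (a * b) ∈ P i := by rw [hab]; exact (P i).zero_mem
    have h2 := ((hPp i).mem_or_mem h1).resolve_left (hni i)
    have key : ∀ c, c ∈ P i → e i * c = 0 := by
      intro c hc
      apply hzero
      intro j
      by_cases hij : i = j
      · subst hij
        exact (P i).mul_mem_left _ hc
      · exact (P j).mul_mem_right _ (hoff i j hij)
    rcases (hPp i).mem_or_mem h2 with h | h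
    · exact Or.inl (key a h)
    · exact Or.inr (key b h)

end Pool.Agent.Lib.MP_ae0f86_nt
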