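import Pool.Agent.Lib.MP_ae0f86_nt.StmD

/-!
# MP_ae0f86_nt, piece GD dimdec

If the idempotents of a product of domains are permuted transitively by automorphisms, each
factor has the Krull dimension of the whole ring.
-/

set_option autoImplicit false

universe w v u

open CategoryTheory CategoryTheory.Limits Opposite MonoidalCategory

namespace Pool.Agent.Lib.MP_ae0f86_nt

/-- A chain of primes lives in one of the factors. -/
theorem dimdec_chain {R : Type w} [CommRing R] {r : ℕ} {e : Fin r → R} (h : Dec R r e)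
    (p : LTSeries (PrimeSpectrum R)) :
    ∃ j, (p.length : WithBot ℕ∞) ≤ ringKrullDim (R ⧸ Ideal.span {1 - e j}) := by
  have h0 : ∃ j, e j ∉ (p.last).asIdeal := by
    by_contra hcon
    push Not at hcon
    apply (p.last).isPrime.ne_top
    rw [Ideal.eq_top_iff_one, ← h.sum]
    exact Ideal.sum_mem _ fun j _ => hcon j
  obtain ⟨j, hj⟩ := h0
  refine ⟨j, ?_⟩
  have h1 : ∀ l, (p l) ∈ PrimeSpectrum.zeroLocus
      ((Ideal.span {1 - e j} : Ideal R) : Set R) := by
    intro l
    have hle : (p l).asIdeal ≤ (p.last).asIdeal := LTSeries.monotone p (Fin.le_last l)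
    have hjl : e j ∉ (p l).asIdeal := fun hh => hj (hle hh)
    rw [PrimeSpectrum.mem_zeroLocus, SetLike.coe_subset_coe, Ideal.span_singleton_le_iff_mem]
    have h2 : e j * (1 - e j) ∈ (p l).asIdeal := by
      rw [mul_sub, mul_one, h.idem, sub_self]
      exact Ideal.zero_mem _
    exact ((p l).isPrime.mem_or_mem h2).resolve_left hjl
  let q : LTSeries (PrimeSpectrum.zeroLocus ((Ideal.span {1 - e j} : Ideal R) : Set R)) :=
    { length := p.length
      toFun := fun l => ⟨p l, h1 l⟩
      step := fun l => p.step l }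
  rw [ringKrullDim_quotient]
  exact Order.LTSeries.length_le_krullDim q

theorem d_dimdec : S_dimdec.{w} := by
  intro R _ r e h htr i
  apply le_antisymm (ringKrullDim_quotient_le _)
  rw [ringKrullDim, Order.krullDim]
  apply iSup_le
  intro p
  obtain ⟨j, hj⟩ := dimdec_chain h p
  refine hj.trans (le_of_eq ?_)
  obtain ⟨τ, hτ⟩ := htr j i
  apply ringKrullDim_eq_of_ringEquiv
  refine Ideal.quotientEquiv _ _ τ ?_
  rw [Ideal.map_span, Set.image_singleton]
  congr 2
  simp [hτ]

end Pool.Agent.Lib.MP_ae0f86_nt
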