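import Pool.Agent.Lib.MP_ae0f86_nt.StmD

/-!
# MP_ae0f86_nt : [GD dims]
-/

set_option autoImplicit false

universe w v u

open CategoryTheory CategoryTheory.Limits Opposite MonoidalCategory

namespace Pool.Agent.Lib.MP_ae0f86_nt

/-- Krull dimension and transcendence degree of a finitely generated domain are one natural
number. -/
private theorem dims_nat (h : S_fgdim.{w}) (K : Type) [Field K] (R : Type w) [CommRing R]
    [IsDomain R] [Algebra K R] [Algebra.FiniteType K R] :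
    ∃ g : ℕ, ringKrullDim R = (g : WithBot ℕ∞) ∧ Algebra.trdeg K R = (g : Cardinal) := by
  obtain ⟨h1, h2⟩ := h K R
  rcases eq_or_ne (Cardinal.toENat (Algebra.trdeg K R)) ⊤ with ht | ht
  · rw [ht] at h1
    exact absurd h1 h2
  · obtain ⟨g, hg⟩ := ENat.ne_top_iff_exists.mp ht
    refine ⟨g, ?_, ?_⟩
    · rw [h1, ← hg]
      rfl
    · exact Cardinal.toENat_eq_natCast.mp hg.symm

theorem d_dims {A : Type u} [Category.{v} A] [Abelian A] [MonoidalCategory A]
    [SymmetricCategory A] [RigidCategory A] {HdR : A ⥤ ModuleCat.{0} QBar}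
    {HB : A ⥤ ModuleCat.{0} ℚ} [FibreFunctor HdR] [FibreFunctor HB] (c : Comparison HdR HB)
    (h1 : S_dimdec.{u}) (h2 : S_decdom.{u}) (h3 : S_fgdim.{u}) (h4 : S_fgdim.{0})
    (h5 : S_basedim (HdR := HdR) (HB := HB)) (h6 : S_trdeg) (h7 : S_perfield c)
    (h8 : S_fintype HdR HB) (h9 : S_perm HdR HB) (h10 : S_evcut.{u}) : S_dims c := by
  intro M r e he
  haveI := h8 M
  set ev := c.evAlg (Gen M) with hev
  obtain ⟨i0, -⟩ := (h10 QBar (PerAlg HdR HB (Gen M)) r e he ℂ ev).1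
  have hr : 1 ≤ r := Nat.one_le_of_lt i0.2
  refine ⟨hr, ?_⟩
  have hdim : ∀ i, ringKrullDim (PerAlg HdR HB (Gen M) ⧸ Ideal.span {1 - e i}) =
      ringKrullDim (PerAlg HdR HB (Gen M)) := by
    refine h1 (PerAlg HdR HB (Gen M)) r e he ?_
    intro i j
    obtain ⟨τ, hτ, -⟩ := h9 M r e he i j
    exact ⟨τ.toRingEquiv, hτ⟩
  haveI hd0 := (h2 (PerAlg HdR HB (Gen M)) r e he i0).1
  obtain ⟨g, hg1, hg2⟩ := dims_nat h3 QBar (PerAlg HdR HB (Gen M) ⧸ Ideal.span {1 - e i0})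
  haveI hft : Algebra.FiniteType QBar ev.range :=
    Algebra.FiniteType.of_surjective ev.rangeRestrict ev.rangeRestrict_surjective
  obtain ⟨t, ht1, ht2⟩ := dims_nat h4 QBar ev.range
  have htr := h6 (c.Per M) ev.range (h7 M).1 (h7 M).2
  refine ⟨g, t, ?_, ?_, ht1, ht2, ?_⟩
  · rw [h5 c M, ← hdim i0, hg1]
  · intro i
    haveI hd := (h2 (PerAlg HdR HB (Gen M)) r e he i).1
    obtain ⟨g', hg1', hg2'⟩ := dims_nat h3 QBar (PerAlg HdR HB (Gen M) ⧸ Ideal.span {1 - e i})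
    have hgg : (g' : WithBot ℕ∞) = (g : WithBot ℕ∞) := by
      rw [← hg1', ← hg1, hdim i, hdim i0]
    have hgg' : g' = g := by exact_mod_cast hgg
    subst hgg'
    exact ⟨hg1', hg2'⟩
  · rw [← htr, ht2]

end Pool.Agent.Lib.MP_ae0f86_nt
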