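import Pool.Agent.Lib.MP_ae0f86_nt.StmD

/-! # MP_ae0f86_nt : piece [GD evcut] (helper34) -/

set_option autoImplicit false

universe w v u

open CategoryTheory CategoryTheory.Limits Opposite MonoidalCategory

namespace Pool.Agent.Lib.MP_ae0f86_nt

theorem d_evcut : S_evcut.{w} := by
  intro K _ R _ _ r e hD L _ _ ev
  constructor
  · have h1 : ∑ i, ev (e i) = 1 := by
      rw [← map_sum, hD.sum, map_one]
    have hex : ∃ i, ev (e i) ≠ 0 := by
      by_contra h
      push Not at h
      rw [Finset.sum_eq_zero (fun i _ => h i)] at h1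
      exact zero_ne_one h1
    obtain ⟨i, hi⟩ := hex
    refine ⟨i, ?_⟩
    have h2 : ev (e i) * ev (e i) = ev (e i) := by
      rw [← map_mul, hD.idem]
    exact mul_right_cancel₀ hi (by rw [h2, one_mul])
  · intro i hi F _
    have hker : ∀ a : R, a ∈ Ideal.span {1 - e i} → ev a = 0 := by
      intro a ha
      obtain ⟨b, rfl⟩ := Ideal.mem_span_singleton'.1 ha
      rw [map_mul, map_sub, map_one, hi, sub_self, mul_zero]
    let ev' : (R ⧸ Ideal.span {1 - e i}) →ₐ[K] L := Ideal.Quotient.liftₐ _ ev hker
    have hev' : ∀ a : R, ev' (Ideal.Quotient.mk _ a) = ev a := fun a => rfl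
    have hmap : F.map ev.toLinearMap = (comp K (e i) F).map ev'.toLinearMap := by
      unfold comp
      rw [← Submodule.map_comp]
      rfl
    have : Module.Finite K (comp K (e i) F) := by
      unfold comp
      infer_instance
    constructor
    · rw [hmap]
      exact Submodule.finrank_map_le _ _
    · intro hinj
      have hinj' : Function.Injective ev' := by
        rw [injective_iff_map_eq_zero]
        intro x
        obtain ⟨a, rfl⟩ := Ideal.Quotient.mk_surjective x
        intro hx
        rw [hev'] at hx
        have h0 : e i * a = 0 := hinj a (by rw [map_mul, hx, mul_zero])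
        rw [Ideal.Quotient.eq_zero_iff_mem, Ideal.mem_span_singleton']
        exact ⟨a, by rw [mul_sub, mul_one, mul_comm, h0, sub_zero]⟩
      rw [hmap]
      exact (LinearEquiv.finrank_eq (Submodule.equivMapOfInjective ev'.toLinearMap hinj' (comp K (e i) F))).symm

end Pool.Agent.Lib.MP_ae0f86_nt
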