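import Pool.Agent.Lib.MP_ae0f86_nt.StmD3

/-!
# MP_ae0f86_nt : [GF finpart] the finite part of `⟨M⟩` (helper4)
-/

set_option autoImplicit false

open CategoryTheory CategoryTheory.Limits Opposite MonoidalCategory
open scoped TensorProduct

universe w v u

namespace Pool.Agent.Lib.MP_ae0f86_nt

noncomputable section

attribute [local instance] CategoryTheory.Abelian.hasFiniteBiproducts

theorem finpart_repr {B : Type w} [CommRing B] [Algebra ℚ B] (z : QBar ⊗[ℚ] B) :
    ∃ (n : ℕ) (κ : Fin n → QBar) (a : Fin n → B), LinearIndependent ℚ κ ∧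
      z = ∑ t, κ t ⊗ₜ[ℚ] a t := by
  classical
  let β := Module.Basis.ofVectorSpace ℚ QBar
  obtain ⟨c, hc⟩ := TensorProduct.eq_repr_basis_left β z
  let eq := c.support.equivFin
  refine ⟨c.support.card, fun t => β (eq.symm t), fun t => c (eq.symm t),
    β.linearIndependent.comp _ (Subtype.val_injective.comp eq.symm.injective), ?_⟩
  rw [← hc, Finsupp.sum, ← Finset.sum_coe_sort, ← Equiv.sum_comp eq.symm]

theorem finpart_idem {R : Type w} [CommRing R] [Algebra ℚ R] (z : R) (hz : z * z = z) :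
    IsIntegral ℚ z := by
  refine ⟨Polynomial.X ^ 2 - Polynomial.X, ?_, ?_⟩
  · exact Polynomial.monic_X_pow_sub (by rw [Polynomial.degree_X]; norm_num)
  · simp [pow_two, hz]

theorem f_finpart {A : Type u} [Category.{v} A] [Abelian A] [MonoidalCategory A]
    [SymmetricCategory A] [RigidCategory A] {HdR : A ⥤ ModuleCat.{0} QBar}
    {HB : A ⥤ ModuleCat.{0} ℚ} [FibreFunctor HdR] [FibreFunctor HB]
    (h1 : S_base2 HdR HB) (h2 : S_intspan.{u}) (h3 : S_galdesc.{u}) (h4 : S_minrep HB)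
    (h5 : S_stepa HdR HB) (h6 : S_stepb HdR HB) (h7 : S_fwlin HdR HB) (h8 : S_arel HdR HB)
    (h9 : S_arel HB HB) (h10 : S_nullst.{u}) (h11 : S_fintype HdR HB) (h12 : S_genclosed (A := A))
    (h13 : S_lincl A) : S_finpart HdR HB := by
  intro hlin c M r e he
  have hT : TClosed (Gen M) := h12.1 M
  have hD : DClosed (Gen M) := { toTClosed := hT, dual := Gen.dual }
  have : IsAlgClosed QBar := (algebraicClosure.isAlgClosure ℚ ℂ).isAlgClosed
  -- a point
  haveI : Algebra.FiniteType QBar (PerAlg HdR HB (Gen M)) := h11 M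
  haveI : Nontrivial (PerAlg HdR HB (Gen M)) := ⟨0, 1, fun h => by
    have := congrArg (c.evAlg (Gen M)) h
    rw [map_zero, map_one] at this
    exact zero_ne_one this⟩
  obtain ⟨m, hm⟩ := Ideal.exists_maximal (PerAlg HdR HB (Gen M))
  obtain ⟨x, -⟩ := h10 QBar (PerAlg HdR HB (Gen M)) m
  obtain ⟨ι, α, ι_add, ι_smul, ι_spec, α_spec, ι_exp⟩ := h1 (Gen M) hD x
  obtain ⟨hal, hsl, har, hsr, hnat, hz, hz'⟩ := h8 (Gen M)
  obtain ⟨hal', hsl', har', hsr', hnat', hz₀, hz₁⟩ := h9 (Gen M)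
  have hαs : ∀ {N : A} (hN : Gen M N) (b : HB.obj N) (σ : Module.Dual ℚ (HB.obj N)),
      asym HdR HB hN (ι hN b) σ = α.symm ((1 : QBar) ⊗ₜ[ℚ] asym HB HB hN b σ) := by
    intro N hN b σ
    rw [← α_spec, AlgEquiv.symm_apply_apply]
  -- finite objects
  have step1 : ∀ {N : A} (hN : Gen M N), (∀ b σ, IsIntegral ℚ (asym HB HB hN b σ)) →
      fw HdR HB hN ≤ Submodule.span QBar (Set.range e) := by
    intro N hN hfin
    rw [fw, Submodule.span_le]
    rintro _ ⟨ω, σ, rfl⟩
    obtain ⟨n, κ, b, -, hω⟩ := ι_exp hN ω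
    let L : HdR.obj N →ₗ[QBar] PerAlg HdR HB (Gen M) :=
      { toFun := fun ω => asym HdR HB hN ω σ
        map_add' := fun ω ω' => hal hN ω ω' σ
        map_smul' := fun a ω => hsl hN a ω σ }
    have h14 : L ω = ∑ i, κ i • L (ι hN (b i)) := by
      conv_lhs => rw [hω]
      rw [map_sum]
      exact Finset.sum_congr rfl fun i _ => map_smul _ _ _
    have h15 : asym HdR HB hN ω σ = ∑ i, κ i • asym HdR HB hN (ι hN (b i)) σ := h14
    rw [SetLike.mem_coe, h15]
    refine Submodule.sum_mem _ fun i _ => Submodule.smul_mem _ _ ?_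
    rw [← h2 QBar _ r e he, hαs]
    have h16 : IsIntegral ℚ ((1 : QBar) ⊗ₜ[ℚ] asym HB HB hN (b i) σ) :=
      (hfin (b i) σ).map (Algebra.TensorProduct.includeRight :
        PerAlg HB HB (Gen M) →ₐ[ℚ] QBar ⊗[ℚ] PerAlg HB HB (Gen M))
    exact (h16.tower_top (A := QBar)).map α.symm
  have step2 : ∀ f : PerAlg HB HB (Gen M), IsIntegral ℚ f → ∃ (N : A) (hN : Gen M N)
      (b : HB.obj N) (σ : Module.Dual ℚ (HB.obj N)), f = asym HB HB hN b σ ∧
        ∀ b' σ', IsIntegral ℚ (asym HB HB hN b' σ') := by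
    intro f hf
    obtain ⟨N, hN, b, σ, rfl, hg, hc⟩ := h4 (Gen M) hT f
    exact ⟨N, hN, b, σ, rfl, fun b' σ' => h5 c M hN b' σ hc (h6 c M hN b σ hg hf b') σ'⟩
  -- the class of finite objects
  have hcl : Closed (fun N : A => ∃ hN : Gen M N, ∀ b σ, IsIntegral ℚ (asym HB HB hN b σ)) := by
    refine ⟨?_, ?_, ?_, ?_⟩
    · rintro N N' ⟨hN, h⟩ ⟨hN', h'⟩
      refine ⟨Gen.sum hN hN', fun b σ => ?_⟩
      have h14 : b = (HB.map (biprod.inl : N ⟶ N ⊞ N')).hom
            ((HB.map (biprod.fst : N ⊞ N' ⟶ N)).hom b) +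
          (HB.map (biprod.inr : N' ⟶ N ⊞ N')).hom
            ((HB.map (biprod.snd : N ⊞ N' ⟶ N')).hom b) := by
        have h15 : (HB.map (𝟙 (N ⊞ N'))).hom b = b := by
          rw [HB.map_id]; rfl
        rw [← biprod.total, Functor.map_add] at h15
        conv_lhs => rw [← h15]
        rw [ModuleCat.hom_add, LinearMap.add_apply, HB.map_comp, HB.map_comp]
        rfl
      rw [h14, hal', ← hnat' hN (Gen.sum hN hN') biprod.inl,
        ← hnat' hN' (Gen.sum hN hN') biprod.inr]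
      exact (h _ _).add (h' _ _)
    · rintro N N' i hi ⟨hN, h⟩
      refine ⟨Gen.sub i hN, fun b σ => ?_⟩
      have his : Function.Injective (HB.map i).hom := by
        have : Mono (HB.map i) := inferInstance
        exact (ModuleCat.mono_iff_injective _).1 this
      obtain ⟨σ', hσ'⟩ := LinearMap.exists_leftInverse_of_injective (HB.map i).hom
        (LinearMap.ker_eq_bot.2 his)
      have hσ : σ = (σ ∘ₗ σ') ∘ₗ (HB.map i).hom := by
        rw [LinearMap.comp_assoc, hσ', LinearMap.comp_id]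
      rw [hσ, hnat' (Gen.sub i hN) hN i]
      exact h _ _
    · rintro N N' p hp ⟨hN, h⟩
      refine ⟨Gen.quot p hN, fun b σ => ?_⟩
      have hps : Function.Surjective (HB.map p).hom := by
        have : Epi (HB.map p) := inferInstance
        exact (ModuleCat.epi_iff_surjective _).1 this
      obtain ⟨b', rfl⟩ := hps b
      have := h b' (σ ∘ₗ (HB.map p).hom)
      rwa [hnat' hN (Gen.quot p hN) p] at this
    · obtain ⟨N, hN, -, -, -, h⟩ := step2 0 isIntegral_zero
      exact ⟨N, hN, h⟩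
  -- the idempotents
  have step3 : ∀ i, ∃ W : A, (∃ hW : Gen M W, (∀ b σ, IsIntegral ℚ (asym HB HB hW b σ)) ∧
      e i ∈ fw HdR HB hW) := by
    intro i
    obtain ⟨n, κ, a, hκ, hsum⟩ := finpart_repr (α (e i))
    have h14 : IsIntegral ℚ (α (e i)) :=
      finpart_idem (α (e i)) (by rw [← map_mul α (e i) (e i), he.idem i])
    rw [hsum] at h14
    have h15 := h3 (PerAlg HB HB (Gen M)) n κ a hκ h14
    choose N hN b σ hf hfin using fun t => step2 (a t) (h15 t)
    obtain ⟨W, ⟨hW, hWf⟩, hL⟩ := h13.2.2.2.1 _ hcl n N (fun t => ⟨hN t, hfin t⟩)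
    refine ⟨W, hW, hWf, ?_⟩
    have h16 : e i = ∑ t, κ t • asym HdR HB (hN t) (ι (hN t) (b t)) (σ t) := by
      have h17 : e i = α.symm (α (e i)) := (α.symm_apply_apply _).symm
      rw [h17, hsum, map_sum]
      refine Finset.sum_congr rfl fun t _ => ?_
      rw [hαs, ← map_smul, TensorProduct.smul_tmul', smul_eq_mul, mul_one, hf t]
    rw [h16]
    exact Submodule.sum_mem _ fun t _ => Submodule.smul_mem _ _
      (h7 hT.toClosed (hN t) hW (hL t) (Submodule.subset_span ⟨_, _, rfl⟩))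
  choose V hV hVf heV using step3
  obtain ⟨U, ⟨hU, hUf⟩, hL⟩ := h13.2.2.2.1 _ hcl r V (fun t => ⟨hV t, hVf t⟩)
  refine ⟨U, hU, le_antisymm (step1 hU hUf) ?_⟩
  rw [Submodule.span_le]
  rintro _ ⟨i, rfl⟩
  exact h7 hT.toClosed (hV i) hU (hL i) (heV i)

end

end Pool.Agent.Lib.MP_ae0f86_nt
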