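import Pool.Agent.Lib.MP_ae0f86_nt.StmD3

/-!
# MP_ae0f86_nt : piece finval
-/

set_option autoImplicit false

universe w v u

open CategoryTheory CategoryTheory.Limits Opposite MonoidalCategory

namespace Pool.Agent.Lib.MP_ae0f86_nt

private theorem finval_pow {R : Type w} [CommRing R] {r : ℕ} {e : Fin r → R} (hd : Dec R r e)
    (b : R) (n : ℕ) (hb : b ^ n = 0) (i : Fin r) : e i * b = 0 := by
  induction n with
  | zero =>
    rw [pow_zero] at hb
    rw [← one_mul b, hb, zero_mul, mul_zero]
  | succ n ih =>
    have h1 : ∀ m : ℕ, e i * b ^ m = 0 → e i * b = 0 := by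
      intro m
      induction m with
      | zero =>
        intro h
        rw [pow_zero, mul_one] at h
        exact absurd h (hd.ne i)
      | succ m ihm =>
        intro h
        rw [pow_succ] at h
        rcases hd.dom i _ _ h with h' | h'
        · exact ihm h'
        · exact h'
    exact h1 (n + 1) (by rw [hb, mul_zero])

theorem f_finval (h1 : S_nullst.{w}) : S_finval.{w} := by
  intro K _ _ R _ _ _ r e hd a hfin
  classical
  haveI : IsJacobsonRing R := isJacobsonRing_of_finiteType (A := K)
  let p : Polynomial K := ∏ z ∈ hfin.toFinset, (Polynomial.X - Polynomial.C z)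
  have hp : p.Monic := Polynomial.monic_prod_of_monic _ _ fun z _ => Polynomial.monic_X_sub_C z
  have hmem : Polynomial.aeval a p ∈ (⊥ : Ideal R).jacobson := by
    rw [Ideal.jacobson, Submodule.mem_sInf]
    rintro m ⟨-, hm⟩
    haveI := hm
    obtain ⟨y, hy⟩ := h1 K R m
    rw [← hy, RingHom.mem_ker]
    have h2 : y (Polynomial.aeval a p) = Polynomial.eval (y a) p := by
      rw [← Polynomial.aeval_algHom_apply, Polynomial.coe_aeval_eq_eval]
    show y (Polynomial.aeval a p) = 0
    rw [h2, Polynomial.eval_prod]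
    refine Finset.prod_eq_zero (i := y a) (hfin.mem_toFinset.2 ⟨y, rfl⟩) ?_
    simp
  rw [← Ideal.radical_eq_jacobson] at hmem
  obtain ⟨n, hn⟩ := hmem
  have h3 : (Polynomial.aeval a p) = 0 := by
    rw [← one_mul (Polynomial.aeval a p), ← hd.sum, Finset.sum_mul]
    exact Finset.sum_eq_zero fun i _ => finval_pow hd _ n hn i
  exact ⟨p, hp, h3⟩

end Pool.Agent.Lib.MP_ae0f86_nt
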