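import Pool.Agent.Lib.MP_ae0f86_nt.StmD

/-!
# MP_ae0f86_nt : piece freq
-/

set_option autoImplicit false

universe w v u

open CategoryTheory CategoryTheory.Limits Opposite MonoidalCategory

namespace Pool.Agent.Lib.MP_ae0f86_nt

theorem freq_tendsto (N P : ℕ → ℝ) (r g t : ℕ) (htg : t ≤ g)
    (hN : ∀ n, 0 < N n) (hP : ∀ n, 0 ≤ P n)
    (hab : ∃ a b : ℝ, 0 < a ∧ ∀ n : ℕ, a * ((n : ℝ) + 1) ^ g ≤ N n ∧
      P n ≤ b * ((n : ℝ) + 1) ^ t)
    (hC : t = g → ∃ C : ℝ, ∀ n : ℕ, (1 : ℝ) / r ≤ P n / N n ∧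
      P n / N n ≤ 1 / r + C / ((n : ℝ) + 1)) :
    Filter.Tendsto (fun n => P n / N n) Filter.atTop
      (nhds (if t = g then (1 : ℝ) / r else 0)) := by
  have hone : Filter.Tendsto (fun n : ℕ => 1 / ((n : ℝ) + 1)) Filter.atTop (nhds 0) :=
    tendsto_one_div_add_atTop_nhds_zero_nat
  by_cases h : t = g
  · obtain ⟨C, hC'⟩ := hC h
    rw [if_pos h]
    refine tendsto_of_tendsto_of_tendsto_of_le_of_le tendsto_const_nhds ?_
      (fun n => (hC' n).1) (fun n => (hC' n).2)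
    have h2 : Filter.Tendsto (fun n : ℕ => (1 : ℝ) / r + C * (1 / ((n : ℝ) + 1))) Filter.atTop
        (nhds (1 / r + C * 0)) := tendsto_const_nhds.add (hone.const_mul C)
    rw [mul_zero, add_zero] at h2
    refine h2.congr (fun n => ?_)
    rw [mul_one_div]
  · rw [if_neg h]
    obtain ⟨a, b, ha, hab'⟩ := hab
    have htg' : t + 1 ≤ g := by omega
    refine tendsto_of_tendsto_of_tendsto_of_le_of_le tendsto_const_nhds
      (g := fun _ => (0 : ℝ)) (h := fun n : ℕ => b / a * (1 / ((n : ℝ) + 1))) ?_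
      (fun n => div_nonneg (hP n) (hN n).le) (fun n => ?_)
    · have h2 := hone.const_mul (b / a)
      rwa [mul_zero] at h2
    · have hn : (0 : ℝ) < (n : ℝ) + 1 := by positivity
      have hn1 : (1 : ℝ) ≤ (n : ℝ) + 1 := by linarith [Nat.cast_nonneg (α := ℝ) n]
      have hb : 0 ≤ b * ((n : ℝ) + 1) ^ t := le_trans (hP n) (hab' n).2
      have hpow : ((n : ℝ) + 1) ^ t * ((n : ℝ) + 1) ≤ ((n : ℝ) + 1) ^ g := by
        rw [← pow_succ]; exact pow_le_pow_right₀ hn1 htg'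
      show P n / N n ≤ b / a * (1 / ((n : ℝ) + 1))
      rw [div_mul_div_comm, mul_one, div_le_div_iff₀ (hN n) (mul_pos ha hn)]
      have hb0 : 0 ≤ b := by
        by_contra hneg
        push Not at hneg
        have : b * ((n : ℝ) + 1) ^ t < 0 := mul_neg_of_neg_of_pos hneg (pow_pos hn t)
        linarith
      calc P n * (a * ((n : ℝ) + 1)) ≤ (b * ((n : ℝ) + 1) ^ t) * (a * ((n : ℝ) + 1)) :=
            mul_le_mul_of_nonneg_right (hab' n).2 (by positivity)
        _ = b * (a * (((n : ℝ) + 1) ^ t * ((n : ℝ) + 1))) := by ring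
        _ ≤ b * (a * ((n : ℝ) + 1) ^ g) :=
            mul_le_mul_of_nonneg_left (mul_le_mul_of_nonneg_left hpow ha.le) hb0
        _ ≤ b * N n := mul_le_mul_of_nonneg_left (hab' n).1 hb0

theorem freq_lower (N P : ℕ → ℝ) (hN : ∀ n, 0 < N n) (l δ : ℝ)
    (hl : Filter.Tendsto (fun n => P n / N n) Filter.atTop (nhds l))
    (hf : ∃ᶠ n in Filter.atTop, δ * N n ≤ P n) : δ ≤ l := by
  by_contra hcon
  push Not at hcon
  have h1 : ∀ᶠ n in Filter.atTop, P n / N n < δ := hl.eventually_lt_const hcon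
  obtain ⟨n, hn1, hn2⟩ := (hf.and_eventually h1).exists
  rw [div_lt_iff₀ (hN n)] at hn2
  linarith

theorem d_freq : S_freq := by
  intro N P r g t hr htg hN hP hab hC
  have hlim := freq_tendsto N P r g t htg hN hP hab hC
  have hr0 : (0 : ℝ) < r := by exact_mod_cast hr
  refine ⟨hlim, ⟨?_, ?_⟩, ⟨?_, ?_⟩⟩
  · intro h
    obtain ⟨C, hC'⟩ := hC h
    refine ⟨1 / r, by positivity, (Filter.Eventually.of_forall fun n => ?_).frequently⟩
    exact (le_div_iff₀ (hN n)).mp (hC' n).1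
  · rintro ⟨δ, hδ, hf⟩
    have h1 := freq_lower N P hN _ δ hlim hf
    by_contra hne
    rw [if_neg hne] at h1
    linarith
  · rintro ⟨h1, h⟩
    obtain ⟨C, hC'⟩ := hC h
    refine ⟨1, by norm_num, (Filter.Eventually.of_forall fun n => ?_).frequently⟩
    have h2 := (hC' n).1
    rw [h1, Nat.cast_one, div_one] at h2
    exact (le_div_iff₀ (hN n)).mp h2
  · rintro ⟨δ, hδ, hf⟩
    have h1 := freq_lower N P hN _ δ hlim hf
    have h : t = g := by
      by_contra hne
      rw [if_neg hne] at h1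
      linarith
    rw [if_pos h] at h1
    refine ⟨?_, h⟩
    have h2 : (1 : ℝ) / 2 < 1 / r := lt_of_lt_of_le hδ h1
    rw [div_lt_div_iff_of_pos_left one_pos two_pos hr0] at h2
    have h3 : r < 2 := by exact_mod_cast h2
    omega

end Pool.Agent.Lib.MP_ae0f86_nt
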