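import Pool.Agent.Lib.MP_ae0f86_nt.StmD

/-!
# MP_ae0f86_nt : piece `fwev`
-/

set_option autoImplicit false

universe w v u

open CategoryTheory CategoryTheory.Limits Opposite MonoidalCategory

namespace Pool.Agent.Lib.MP_ae0f86_nt

private theorem fwev_asym {A : Type u} [Category.{v} A] [Abelian A] [MonoidalCategory A]
    [SymmetricCategory A] {K : Type} [Field K] [Algebra K ℂ]
    {HdR : A ⥤ ModuleCat.{0} K} {HB : A ⥤ ModuleCat.{0} ℚ} [FibreFunctor HdR] [FibreFunctor HB]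
    (c : Comparison HdR HB) (S : A → Prop) {N : A} (hN : S N) (ω : HdR.obj N)
    (σ : Module.Dual ℚ (HB.obj N)) :
    c.evAlg S (asym HdR HB hN ω σ) = c.per N ω σ :=
  MvPolynomial.aeval_X (R := K) (fun s : Symb HdR HB S => c.per s.N s.ω s.σ) ⟨N, hN, ω, σ⟩

theorem d_fwev {A : Type u} [Category.{v} A] [Abelian A] [MonoidalCategory A]
    [SymmetricCategory A] : S_fwev (A := A) := by
  intro K _ _ HdR HB _ _ c S W hW
  unfold fw
  rw [Submodule.map_span]
  congr 1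
  ext z
  constructor
  · rintro ⟨r, ⟨ω, σ, rfl⟩, rfl⟩
    exact ⟨ω, σ, (fwev_asym c S hW ω σ).symm⟩
  · rintro ⟨ω, σ, rfl⟩
    exact ⟨asym HdR HB hW ω σ, ⟨ω, σ, rfl⟩, fwev_asym c S hW ω σ⟩

end Pool.Agent.Lib.MP_ae0f86_nt
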