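import Pool.Agent.Lib.MP_ae0f86_nt.StmD

/-!
# MP_ae0f86_nt : piece `fwfin`
-/

set_option autoImplicit false

universe w v u

open CategoryTheory CategoryTheory.Limits Opposite MonoidalCategory

namespace Pool.Agent.Lib.MP_ae0f86_nt

noncomputable section

theorem d_fwfin {A : Type u} [Category.{v} A] [Abelian A] [MonoidalCategory A]
    [SymmetricCategory A] {K : Type} [Field K] (H : A ⥤ ModuleCat.{0} K)
    (HB : A ⥤ ModuleCat.{0} ℚ) [FibreFunctor H] [FibreFunctor HB]
    (h1 : S_arel H HB) : S_fwfin H HB := by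
  intro S W hW
  obtain ⟨hal, hsl, har, hsr, -, hz, hz'⟩ := h1 S
  have hf1 : Module.Finite K (H.obj W) := FibreFunctor.finite W
  have hf2 : Module.Finite ℚ (HB.obj W) := FibreFunctor.finite W
  let bω := Module.finBasis K (H.obj W)
  let bσ := Module.finBasis ℚ (Module.Dual ℚ (HB.obj W))
  let L : Module.Dual ℚ (HB.obj W) → (H.obj W →ₗ[K] PerAlg H HB S) := fun σ =>
    { toFun := fun ω => asym H HB hW ω σ
      map_add' := fun ω ω' => hal hW ω ω' σ
      map_smul' := fun a ω => hsl hW a ω σ }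
  let R : H.obj W → (Module.Dual ℚ (HB.obj W) →+ PerAlg H HB S) := fun ω =>
    { toFun := fun σ => asym H HB hW ω σ
      map_zero' := hz' hW ω
      map_add' := fun σ σ' => har hW ω σ σ' }
  let P : Submodule K (PerAlg H HB S) := Submodule.span K
    (Set.range fun p : Fin (Module.finrank K (H.obj W)) ×
      Fin (Module.finrank ℚ (Module.Dual ℚ (HB.obj W))) => asym H HB hW (bω p.1) (bσ p.2))
  have key2 : ∀ i σ, asym H HB hW (bω i) σ ∈ P := by
    intro i σ
    have e : asym H HB hW (bω i) σ = R (bω i) σ := rfl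
    rw [e, ← bσ.sum_repr σ, map_sum]
    refine Submodule.sum_mem _ fun j _ => ?_
    have e2 : R (bω i) (bσ.repr σ j • bσ j) =
        ((bσ.repr σ j : ℚ) : K) • asym H HB hW (bω i) (bσ j) := hsr hW _ (bω i) (bσ j)
    rw [e2]
    exact Submodule.smul_mem _ _ (Submodule.subset_span ⟨(i, j), rfl⟩)
  have key : ∀ ω σ, asym H HB hW ω σ ∈ P := by
    intro ω σ
    have e : asym H HB hW ω σ = L σ ω := rfl
    rw [e, ← bω.sum_repr ω, map_sum]
    refine Submodule.sum_mem _ fun i _ => ?_
    rw [map_smul]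
    exact Submodule.smul_mem _ _ (key2 i σ)
  have hle : fw H HB hW ≤ P := by
    unfold fw
    rw [Submodule.span_le]
    rintro r ⟨ω, σ, rfl⟩
    exact key ω σ
  have hP : Module.Finite K P := Module.Finite.span_of_finite K (Set.finite_range _)
  exact Submodule.finiteDimensional_of_le hle

end

end Pool.Agent.Lib.MP_ae0f86_nt
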