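import Pool.Agent.Lib.MP_ae0f86_nt.StmD2

/-!
# MP_ae0f86_nt : piece `fwgen2`
-/

set_option autoImplicit false

universe w v u

open CategoryTheory CategoryTheory.Limits Opposite MonoidalCategory

namespace Pool.Agent.Lib.MP_ae0f86_nt

noncomputable section

section

variable {K : Type} [Field K] {R : Type w} [CommRing R] [Algebra K R] (V : Submodule K R)

private theorem fwgen2_mono (hV : (1 : R) ∈ V) {n m : ℕ} (h : n ≤ m) : V ^ n ≤ V ^ m := by
  obtain ⟨k, rfl⟩ := Nat.exists_eq_add_of_le h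
  rw [pow_add]
  have h1 : (1 : R) ∈ V ^ k := by
    have := Submodule.pow_mem_pow V hV k
    rwa [one_pow] at this
  intro x hx
  have := Submodule.mul_mem_mul hx h1
  rwa [mul_one] at this

private theorem fwgen2_mulpow {a b : R} {n m : ℕ} (ha : a ∈ V ^ n) (hb : b ∈ V ^ m) :
    a * b ∈ V ^ (n + m) := by
  rw [pow_add]
  exact Submodule.mul_mem_mul ha hb

private theorem fwgen2_powpow {a : R} {n : ℕ} (ha : a ∈ V ^ n) (k : ℕ) : a ^ k ∈ V ^ (n * k) := by
  rw [pow_mul]
  exact Submodule.pow_mem_pow _ ha k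

private theorem fwgen2_prod {ι : Type} [DecidableEq ι] (s : Finset ι) (f : ι → R)
    (h : ∀ i ∈ s, f i ∈ V) : ∏ i ∈ s, f i ∈ V ^ s.card := by
  induction s using Finset.induction_on with
  | empty =>
    rw [Finset.prod_empty, Finset.card_empty, pow_zero]
    exact Submodule.one_le.1 le_rfl
  | insert a s ha ih =>
    rw [Finset.prod_insert ha, Finset.card_insert_of_notMem ha, pow_succ']
    exact Submodule.mul_mem_mul (h a (Finset.mem_insert_self a s))
      (ih fun i hi => h i (Finset.mem_insert_of_mem hi))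

private theorem fwgen2_det {p : ℕ} (X : Matrix (Fin p) (Fin p) R) (h : ∀ i j, X i j ∈ V) :
    X.det ∈ V ^ p := by
  rw [Matrix.det_apply]
  refine Submodule.sum_mem _ fun σ _ => ?_
  have h1 : ∏ i, X (σ i) i ∈ V ^ p := by
    have := fwgen2_prod V Finset.univ (fun i => X (σ i) i) (fun i _ => h _ _)
    rwa [Finset.card_univ, Fintype.card_fin] at this
  rcases Int.units_eq_one_or (Equiv.Perm.sign σ) with h2 | h2
  · rw [h2, one_smul]
    exact h1
  · rw [h2, Units.neg_smul, one_smul]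
    exact Submodule.neg_mem _ h1

private theorem fwgen2_adj (hV : (1 : R) ∈ V) {p : ℕ} (X : Matrix (Fin p) (Fin p) R)
    (h : ∀ i j, X i j ∈ V) (i j : Fin p) : X.adjugate i j ∈ V ^ p := by
  rw [Matrix.adjugate_apply]
  refine fwgen2_det V _ fun k l => ?_
  rw [Matrix.updateRow_apply]
  split_ifs with h1
  · by_cases h2 : l = i
    · subst h2
      rw [Pi.single_eq_same]
      exact hV
    · rw [Pi.single_eq_of_ne h2]
      exact V.zero_mem
  · exact h k l

private theorem fwgen2_exh (hV : (1 : R) ∈ V) (δ : R) (p : ℕ) (hδ : δ ∈ V ^ p) (X : Set R)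
    (hX : ∀ y ∈ X, ∃ m n : ℕ, δ ^ m * y ∈ V ^ n) (hX' : Algebra.adjoin K X = ⊤) (x : R) :
    ∃ m n : ℕ, δ ^ m * x ∈ V ^ n := by
  have hx : x ∈ Algebra.adjoin K X := by
    rw [hX']
    exact Algebra.mem_top
  induction hx using Algebra.adjoin_induction with
  | mem y hy => exact hX y hy
  | algebraMap r =>
    refine ⟨0, 0, ?_⟩
    rw [pow_zero, pow_zero, one_mul]
    exact Submodule.algebraMap_mem r
  | add y z _ _ hy hz =>
    obtain ⟨m, n, hn⟩ := hy
    obtain ⟨m', n', hn'⟩ := hz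
    refine ⟨m + m', (p * m' + n) + (p * m + n'), ?_⟩
    have e : δ ^ (m + m') * (y + z) = δ ^ m' * (δ ^ m * y) + δ ^ m * (δ ^ m' * z) := by ring
    rw [e]
    refine Submodule.add_mem _ ?_ ?_
    · exact fwgen2_mono V hV (Nat.le_add_right _ _)
        (fwgen2_mulpow V (fwgen2_powpow V hδ m') hn)
    · exact fwgen2_mono V hV (Nat.le_add_left _ _)
        (fwgen2_mulpow V (fwgen2_powpow V hδ m) hn')
  | mul y z _ _ hy hz =>
    obtain ⟨m, n, hn⟩ := hy
    obtain ⟨m', n', hn'⟩ := hz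
    refine ⟨m + m', n + n', ?_⟩
    have e : δ ^ (m + m') * (y * z) = (δ ^ m * y) * (δ ^ m' * z) := by ring
    rw [e]
    exact fwgen2_mulpow V hn hn'

private theorem fwgen2_dual (hV : (1 : R) ∈ V) {p : ℕ} (X Y : Matrix (Fin p) (Fin p) R)
    (hX : ∀ i j, X i j ∈ V) (hXY : X * Y = 1) {M : Type} [AddCommGroup M] [Module K M]
    {N : Type} [AddCommGroup N] [Module ℚ N] (g : M → N → R)
    (hal : ∀ ω ω' σ, g (ω + ω') σ = g ω σ + g ω' σ) (hsl : ∀ (a : K) ω σ, g (a • ω) σ = a • g ω σ)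
    (har : ∀ ω σ σ', g ω (σ + σ') = g ω σ + g ω σ')
    (hsr : ∀ (q : ℚ) ω σ, g ω (q • σ) = (q : K) • g ω σ) (hz' : ∀ ω, g ω 0 = 0)
    (ω' : Module.Basis (Fin p) K M) (β' : Module.Basis (Fin p) ℚ N)
    (hY : ∀ i j, g (ω' i) (β' j) = Y j i) (η : M) (τ : N) : X.det * g η τ ∈ V ^ p := by
  have hadj : X.det • Y = X.adjugate := by
    have e1 : X.adjugate * (X * Y) = X.adjugate := by rw [hXY, Matrix.mul_one]
    rw [← Matrix.mul_assoc, Matrix.adjugate_mul, Matrix.smul_mul, Matrix.one_mul] at e1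
    exact e1
  have hYV : ∀ j i, X.det * Y j i ∈ V ^ p := by
    intro j i
    have e2 : X.det * Y j i = X.adjugate j i := by
      rw [← hadj, Matrix.smul_apply, smul_eq_mul]
    rw [e2]
    exact fwgen2_adj V hV X hX j i
  let L : N → (M →ₗ[K] R) := fun σ =>
    { toFun := fun ω => g ω σ
      map_add' := fun ω ω' => hal ω ω' σ
      map_smul' := fun a ω => hsl a ω σ }
  let T : M → (N →+ R) := fun ω =>
    { toFun := fun σ => g ω σ
      map_zero' := hz' ω
      map_add' := fun σ σ' => har ω σ σ' }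
  have key2 : ∀ i τ, X.det * g (ω' i) τ ∈ V ^ p := by
    intro i τ
    have e : g (ω' i) τ = T (ω' i) τ := rfl
    rw [e, ← β'.sum_repr τ, map_sum, Finset.mul_sum]
    refine Submodule.sum_mem _ fun j _ => ?_
    have e2 : T (ω' i) (β'.repr τ j • β' j) = ((β'.repr τ j : ℚ) : K) • Y j i := by
      rw [← hY]
      exact hsr _ (ω' i) (β' j)
    rw [e2, mul_smul_comm]
    exact Submodule.smul_mem _ _ (hYV j i)
  have e : g η τ = L τ η := rfl
  rw [e, ← ω'.sum_repr η, map_sum, Finset.mul_sum]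
  refine Submodule.sum_mem _ fun i _ => ?_
  rw [map_smul, mul_smul_comm]
  exact Submodule.smul_mem _ _ (key2 i τ)

private theorem fwgen2_core (hV : (1 : R) ∈ V) {p q : ℕ} (X : Matrix (Fin p) (Fin q) R)
    (Y : Matrix (Fin q) (Fin p) R) (hX : ∀ i j, X i j ∈ V) (hXY : X * Y = 1) (hYX : Y * X = 1)
    {M : Type} [AddCommGroup M] [Module K M]
    {N : Type} [AddCommGroup N] [Module ℚ N] (g : M → N → R)
    (hal : ∀ ω ω' σ, g (ω + ω') σ = g ω σ + g ω' σ) (hsl : ∀ (a : K) ω σ, g (a • ω) σ = a • g ω σ)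
    (har : ∀ ω σ σ', g ω (σ + σ') = g ω σ + g ω σ')
    (hsr : ∀ (q : ℚ) ω σ, g ω (q • σ) = (q : K) • g ω σ) (hz' : ∀ ω, g ω 0 = 0)
    (ω' : Module.Basis (Fin p) K M) (β' : Module.Basis (Fin q) ℚ N)
    (hY : ∀ i j, g (ω' i) (β' j) = Y j i) (Z : Set R)
    (hZ : ∀ z ∈ Z, z ∈ V ∨ ∃ η τ, z = g η τ) (hZ' : Algebra.adjoin K Z = ⊤) : GenLoc K V := by
  rcases subsingleton_or_nontrivial R with hs | hs
  · refine ⟨1, isUnit_one, ⟨1, ?_⟩, fun x => ⟨1, 1, ?_⟩⟩
    · rw [pow_one]
      exact hV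
    · rw [Subsingleton.elim ((1 : R) ^ 1 * x) 0]
      exact Submodule.zero_mem _
  · have hpq : p = q := by
      have := Matrix.square_of_invertible _ _ hXY hYX
      rwa [Fintype.card_fin, Fintype.card_fin] at this
    subst hpq
    have hu : IsUnit X.det := by
      rw [← Matrix.isUnit_iff_isUnit_det]
      exact ⟨⟨X, Y, hXY, hYX⟩, rfl⟩
    refine ⟨X.det, hu, ⟨p, fwgen2_det V X hX⟩, fun x => ?_⟩
    refine fwgen2_exh V hV X.det p (fwgen2_det V X hX) _ ?_ hZ' x
    intro z hz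
    rcases hZ z hz with h | ⟨η, τ, rfl⟩
    · refine ⟨0, 1, ?_⟩
      rw [pow_zero, one_mul, pow_one]
      exact h
    · refine ⟨1, p, ?_⟩
      rw [pow_one]
      exact fwgen2_dual V hV X Y hX hXY g hal hsl har hsr hz' ω' β' hY η τ

end

theorem e_fwgen2 {A : Type u} [Category.{v} A] [Abelian A] [MonoidalCategory A]
    [SymmetricCategory A] [RigidCategory A] {K : Type} [Field K] (H : A ⥤ ModuleCat.{0} K)
    (HB : A ⥤ ModuleCat.{0} ℚ) [FibreFunctor H] [FibreFunctor HB]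
    (h1 : S_fwprod H HB) (h2 : S_fwlin H HB) (h3 : S_gens H HB) (h4 : S_genclosed (A := A))
    (h5 : S_xmat H HB) (h6 : S_arel H HB) : S_fwgen2 H HB := by
  intro T hT
  have hC : TClosed (Gen T) := h4.1 T
  have hD : DClosed (Gen T) := { hC with dual := fun h => Gen.dual h }
  have hone : (1 : PerAlg H HB (Gen T)) ∈ fw H HB (S := Gen T) (W := T) Gen.base := by
    have h7 : fw H HB (S := Gen T) (W := 𝟙_ A) Gen.unit ≤
        fw H HB (S := Gen T) (W := T) Gen.base := h2 hC.toClosed _ _ hT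
    rw [h1.2 (S := Gen T) Gen.unit] at h7
    exact h7 (Submodule.one_le.1 le_rfl)
  refine ⟨hone, ?_, ?_⟩
  · have hf1 : Module.Finite K (H.obj T) := FibreFunctor.finite T
    have hf2 : Module.Finite ℚ (HB.obj T) := FibreFunctor.finite T
    obtain ⟨ω', β', hXY, hYX⟩ := h5 (Gen T) hD (N := T) Gen.base
      (Module.finBasis K (H.obj T)) (Module.finBasis ℚ (HB.obj T))
    obtain ⟨hal, hsl, har, hsr, -, hz, hz'⟩ := h6 (Gen T)
    have hN : Gen T (Tᘁ) := hD.dual Gen.base
    exact fwgen2_core (fw H HB (S := Gen T) (W := T) Gen.base) hone _ _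
      (fun i j => Submodule.subset_span ⟨_, _, rfl⟩) hXY hYX (fun η τ => asym H HB hN η τ)
      (hal hN) (hsl hN) (har hN) (hsr hN) (hz' hN) ω' β' (fun i j => rfl) _
      (fun z hz => hz.elim (fun h => Or.inl (Submodule.subset_span h)) (fun h => Or.inr h)) (h3 T)
  · intro n
    induction n with
    | zero =>
      exact (h1.2 (S := Gen T) Gen.unit).trans
        (pow_zero (fw H HB (S := Gen T) (W := T) Gen.base)).symm
    | succ n ih =>
      have h9 := h1.1 (genpow_mem T n) (S := Gen T) (N := T) Gen.base (genpow_mem T (n + 1))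
      rw [ih] at h9
      exact h9.trans (pow_succ (fw H HB (S := Gen T) (W := T) Gen.base) n).symm

end

end Pool.Agent.Lib.MP_ae0f86_nt
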