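import Pool.Agent.Lib.MP_ae0f86_nt.StmD

/-!
# MP_ae0f86_nt : piece `fwlin`
-/

set_option autoImplicit false

universe w v u

open CategoryTheory CategoryTheory.Limits Opposite MonoidalCategory

namespace Pool.Agent.Lib.MP_ae0f86_nt

noncomputable section

attribute [local instance] CategoryTheory.Abelian.hasFiniteBiproducts

theorem d_fwlin {A : Type u} [Category.{v} A] [Abelian A] [MonoidalCategory A]
    [SymmetricCategory A] {K : Type} [Field K] (H : A ⥤ ModuleCat.{0} K)
    (HB : A ⥤ ModuleCat.{0} ℚ) [FibreFunctor H] [FibreFunctor HB]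
    (h1 : S_arel H HB) (h2 : S_lincl A) : S_fwlin H HB := by
  intro S hS N W hN hW hL
  obtain ⟨hal, hsl, har, hsr, hnat, hz, hz'⟩ := h1 S
  obtain ⟨hcl, hself, hsub, -, -⟩ := h2
  obtain ⟨n, N', i, p, hi, hp⟩ := hL
  have hN' : S N' := hsub S W hS hW N' ⟨n, N', i, 𝟙 N', hi, inferInstance⟩
  have hWn : S (⨁ fun _ : Fin n => W) :=
    hsub S W hS hW _ ⟨n, _, 𝟙 _, 𝟙 _, inferInstance, inferInstance⟩
  -- symbols of the power
  have hpow : ∀ (η : H.obj (⨁ fun _ : Fin n => W))
      (σ : Module.Dual ℚ (HB.obj (⨁ fun _ : Fin n => W))),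
      asym H HB hWn η σ ∈ fw H HB hW := by
    intro η σ
    let L : H.obj (⨁ fun _ : Fin n => W) →ₗ[K] PerAlg H HB S :=
      { toFun := fun ω => asym H HB hWn ω σ
        map_add' := fun ω ω' => hal hWn ω ω' σ
        map_smul' := fun a ω => hsl hWn a ω σ }
    have h3 : η = ∑ l : Fin n, (H.map (biproduct.ι (fun _ : Fin n => W) l)).hom
        ((H.map (biproduct.π (fun _ : Fin n => W) l)).hom η) := by
      have h4 : (H.map (𝟙 (⨁ fun _ : Fin n => W))).hom η = η := by
        rw [H.map_id]; rfl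
      rw [← biproduct.total, Functor.map_sum] at h4
      conv_lhs => rw [← h4]
      rw [ModuleCat.hom_sum, LinearMap.sum_apply]
      refine Finset.sum_congr rfl fun l _ => ?_
      rw [H.map_comp]
      rfl
    have e : asym H HB hWn η σ = L η := rfl
    rw [e, h3, map_sum]
    refine Submodule.sum_mem _ fun l _ => ?_
    have e2 : L ((H.map (biproduct.ι (fun _ : Fin n => W) l)).hom
        ((H.map (biproduct.π (fun _ : Fin n => W) l)).hom η)) =
        asym H HB hW ((H.map (biproduct.π (fun _ : Fin n => W) l)).hom η)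
          (σ ∘ₗ (HB.map (biproduct.ι (fun _ : Fin n => W) l)).hom) :=
      (hnat hW hWn _ _ _).symm
    rw [e2]
    exact Submodule.subset_span ⟨_, _, rfl⟩
  rw [fw, Submodule.span_le]
  rintro r ⟨ω, σ, rfl⟩
  have hps : Function.Surjective (H.map p).hom := by
    have : Epi (H.map p) := inferInstance
    exact (ModuleCat.epi_iff_surjective _).1 this
  obtain ⟨ω', rfl⟩ := hps ω
  have his : Function.Injective (HB.map i).hom := by
    have : Mono (HB.map i) := inferInstance
    exact (ModuleCat.mono_iff_injective _).1 this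
  obtain ⟨σ', hσ'⟩ := LinearMap.exists_leftInverse_of_injective (HB.map i).hom
    (LinearMap.ker_eq_bot.2 his)
  have hσ : (σ ∘ₗ (HB.map p).hom) = ((σ ∘ₗ (HB.map p).hom) ∘ₗ σ') ∘ₗ (HB.map i).hom := by
    rw [LinearMap.comp_assoc, hσ', LinearMap.comp_id]
  have e3 : asym H HB hN ((H.map p).hom ω') σ = asym H HB hN' ω' (σ ∘ₗ (HB.map p).hom) :=
    (hnat hN' hN p ω' σ).symm
  rw [SetLike.mem_coe, e3, hσ, hnat hN' hWn i]
  exact hpow _ _

end

end Pool.Agent.Lib.MP_ae0f86_nt
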