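import Pool.Agent.Lib.MP_ae0f86_nt.StmD

/-!
# MP_ae0f86_nt : [GD fwprod]
-/

set_option autoImplicit false

open CategoryTheory CategoryTheory.Limits Opposite MonoidalCategory
open scoped TensorProduct

universe w v u

namespace Pool.Agent.Lib.MP_ae0f86_nt

noncomputable section

attribute [local instance] CategoryTheory.Abelian.hasFiniteBiproducts

variable {A : Type u} [Category.{v} A] [Abelian A] [MonoidalCategory A] [SymmetricCategory A]
  {K : Type} [Field K] (H : A ⥤ ModuleCat.{0} K) (HB : A ⥤ ModuleCat.{0} ℚ)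
  [FibreFunctor H] [FibreFunctor HB]

omit [FibreFunctor H] in
theorem fwprod_span {M N : A} (φ : Module.Dual ℚ (HB.obj (M ⊗ N))) :
    φ ∈ AddSubmonoid.closure {ψ | ∃ σ τ, ψ = tdual HB σ τ} := by
  have hM : Module.Finite ℚ (HB.obj M) := FibreFunctor.finite M
  have hN : Module.Finite ℚ (HB.obj N) := FibreFunctor.finite N
  obtain ⟨t, ht⟩ : ∃ t, φ = (TensorProduct.dualDistribEquiv ℚ (HB.obj M) (HB.obj N) t) ∘ₗ
      (LinearEquiv.ofBijective _ (FibreFunctor.bij (H := HB) M N)).symm.toLinearMap := by
    refine ⟨(TensorProduct.dualDistribEquiv ℚ (HB.obj M) (HB.obj N)).symm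
      (φ ∘ₗ (LinearEquiv.ofBijective _ (FibreFunctor.bij (H := HB) M N)).toLinearMap), ?_⟩
    rw [LinearEquiv.apply_symm_apply]
    ext z
    simp
  rw [ht]
  clear ht
  induction t using TensorProduct.induction_on with
  | zero =>
    rw [map_zero, LinearMap.zero_comp]
    exact zero_mem _
  | tmul σ τ => exact AddSubmonoid.subset_closure ⟨σ, τ, rfl⟩
  | add a b ha hb =>
    rw [map_add, LinearMap.add_comp]
    exact add_mem ha hb

omit [FibreFunctor HB] in
theorem fwprod_mul {M N : A} (z : H.obj (M ⊗ N)) :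
    z ∈ AddSubmonoid.closure {w | ∃ x y, w = FibreFunctor.mul M N x y} := by
  obtain ⟨t, rfl⟩ := (FibreFunctor.bij (H := H) M N).2 z
  induction t using TensorProduct.induction_on with
  | zero =>
    rw [map_zero]
    exact zero_mem _
  | tmul σ τ => exact AddSubmonoid.subset_closure ⟨σ, τ, TensorProduct.lift.tmul _ _⟩
  | add a b ha hb =>
    rw [map_add]
    exact add_mem ha hb

theorem d_fwprod (h1 : S_arel H HB) (h2 : S_algrel (A := A)) : S_fwprod H HB := by
  refine ⟨?_, ?_⟩
  · intro S M N hM hN hMN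
    apply le_antisymm
    · rw [fw, Submodule.span_le]
      rintro r ⟨z, φ, rfl⟩
      have hz := fwprod_mul H z
      have hφ := fwprod_span HB φ
      rw [SetLike.mem_coe]
      induction hz using AddSubmonoid.closure_induction with
      | mem z hz =>
        obtain ⟨ω, η, rfl⟩ := hz
        induction hφ using AddSubmonoid.closure_induction with
        | mem φ hφ =>
          obtain ⟨σ, τ, rfl⟩ := hφ
          rw [← (h2 H HB S).2.1 hM hN hMN]
          exact Submodule.mul_mem_mul (Submodule.subset_span ⟨ω, σ, rfl⟩)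
            (Submodule.subset_span ⟨η, τ, rfl⟩)
        | zero =>
          rw [(h1 S).2.2.2.2.2.2 hMN]
          exact zero_mem _
        | add a b _ _ ha hb =>
          rw [(h1 S).2.2.1 hMN]
          exact add_mem ha hb
      | zero =>
        rw [(h1 S).2.2.2.2.2.1 hMN]
        exact zero_mem _
      | add a b _ _ ha hb =>
        rw [(h1 S).1 hMN]
        exact add_mem ha hb
    · rw [fw, fw, Submodule.span_mul_span, Submodule.span_le]
      rintro r ⟨a, ⟨ω, σ, rfl⟩, b, ⟨η, τ, rfl⟩, rfl⟩
      exact Submodule.subset_span ⟨FibreFunctor.mul M N ω η, tdual HB σ τ,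
        (h2 H HB S).2.1 hM hN hMN ω η σ τ⟩
  · intro S hS1
    have hc : coord HB (FibreFunctor.one (H := HB)) = 1 := by
      rw [coord, LinearEquiv.symm_apply_eq, LinearEquiv.ofBijective_apply,
        LinearMap.toSpanSingleton_apply, one_smul]
    have h11 : asym H HB hS1 FibreFunctor.one (coord HB).toLinearMap = 1 :=
      (h2 H HB S).2.2.1 hS1 _ hc
    apply le_antisymm
    · rw [fw, Submodule.span_le]
      rintro r ⟨ω, φ, rfl⟩
      have hφ : φ = (φ FibreFunctor.one) • (coord HB).toLinearMap := by
        ext z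
        obtain ⟨a, ha⟩ := (FibreFunctor.one_bij (H := HB)).2 z
        simp only at ha
        rw [← ha, map_smul, map_smul, LinearMap.smul_apply, LinearEquiv.coe_coe, hc]
        simp [mul_comm]
      obtain ⟨a, rfl⟩ := (FibreFunctor.one_bij (H := H)).2 ω
      rw [SetLike.mem_coe, hφ, (h1 S).2.2.2.1 hS1, (h1 S).2.1 hS1, h11]
      exact Submodule.smul_mem _ _ (Submodule.smul_mem _ _ (Submodule.one_le.1 le_rfl))
    · rw [Submodule.one_eq_span, Submodule.span_le]
      rintro r hr
      rw [Set.mem_singleton_iff] at hr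
      rw [hr, ← h11]
      exact Submodule.subset_span ⟨_, _, rfl⟩

end

end Pool.Agent.Lib.MP_ae0f86_nt
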