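import Pool.Agent.Lib.MP_ae0f86_nt.StmD2

/-!
# MP_ae0f86_nt : piece `fwtop`
-/

set_option autoImplicit false

universe w v u

open CategoryTheory CategoryTheory.Limits Opposite MonoidalCategory

namespace Pool.Agent.Lib.MP_ae0f86_nt

noncomputable section

theorem e_fwtop {A : Type u} [Category.{v} A] [Abelian A] [MonoidalCategory A]
    [SymmetricCategory A] [RigidCategory A] {HdR : A ⥤ ModuleCat.{0} QBar}
    {HB : A ⥤ ModuleCat.{0} ℚ} [FibreFunctor HdR] [FibreFunctor HB] (c : Comparison HdR HB)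
    (h1 : S_fwdim (A := A)) (h2 : S_fwev (A := A)) (h3 : S_genclosed (A := A)) : S_fwtop c := by
  intro _ W
  refine ⟨(h1 c h3.2.1 (W := W) trivial).symm, ?_⟩
  rw [h2 c (S := fun _ : A => True) (W := W) trivial]

end

end Pool.Agent.Lib.MP_ae0f86_nt
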