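import Pool.Agent.Lib.MP_ae0f86_nt.StmD3

/-!
# MP_ae0f86_nt : [GF galdesc]
-/

set_option autoImplicit false

universe w v u

open CategoryTheory CategoryTheory.Limits Opposite MonoidalCategory TensorProduct

namespace Pool.Agent.Lib.MP_ae0f86_nt

/-- dual elements for the trace form -/
private theorem galdesc_dual (L : Type) [Field L] [Algebra ℚ L] [FiniteDimensional ℚ L] {n : ℕ}
    (κ : Fin n → L) (hκ : LinearIndependent ℚ κ) (i : Fin n) :
    ∃ β : L, ∀ j, Algebra.trace ℚ L (β * κ j) = if j = i then 1 else 0 := by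
  classical
  obtain ⟨g, hg⟩ := LinearMap.exists_extend ((Module.Basis.span hκ).coord i)
  have hnd := traceForm_nondegenerate ℚ L
  refine ⟨((Algebra.traceForm ℚ L).toDual hnd).symm g, fun j => ?_⟩
  have h1 : ((Algebra.traceForm ℚ L).toDual hnd
      (((Algebra.traceForm ℚ L).toDual hnd).symm g)) (κ j) = g (κ j) := by
    rw [LinearEquiv.apply_symm_apply]
  rw [LinearMap.BilinForm.toDual_def, Algebra.traceForm_apply] at h1
  rw [h1]
  have h2 : g ((Module.Basis.span hκ j : Submodule.span ℚ (Set.range κ)) : L) =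
      (Module.Basis.span hκ).coord i (Module.Basis.span hκ j) :=
    congrArg (fun f => f (Module.Basis.span hκ j)) hg
  have h3 : ((Module.Basis.span hκ j : Submodule.span ℚ (Set.range κ)) : L) = κ j := by
    rw [Module.Basis.span_apply]
  rw [h3, Module.Basis.coord_apply, Module.Basis.repr_self, Finsupp.single_apply] at h2
  exact h2

theorem f_galdesc : S_galdesc.{w} := by
  classical
  intro B _ _ n κ a hκ hint i
  have i1 : Algebra.IsAlgebraic ℚ QBar := algebraicClosure.isAlgebraic ℚ ℂ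
  have i2 : IsAlgClosed QBar := (algebraicClosure.isAlgClosure ℚ ℂ).isAlgClosed
  let L : IntermediateField ℚ QBar := IntermediateField.adjoin ℚ (Set.range κ)
  have i3 : FiniteDimensional ℚ L := IntermediateField.finiteDimensional_adjoin
    fun x _ => Algebra.IsIntegral.isIntegral x
  let κ' : Fin n → L := fun j => ⟨κ j, IntermediateField.subset_adjoin ℚ _ ⟨j, rfl⟩⟩
  have hκ' : LinearIndependent ℚ κ' := by
    refine LinearIndependent.of_comp L.val.toLinearMap ?_
    exact hκ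
  -- the element over `L`
  let F : L ⊗[ℚ] B := ∑ j, κ' j ⊗ₜ[ℚ] a j
  have hF : IsIntegral ℚ F := by
    have hinj : Function.Injective (Algebra.TensorProduct.map L.val (AlgHom.id ℚ B)) :=
      Module.Flat.rTensor_preserves_injective_linearMap (M := B) L.val.toLinearMap
        L.val.injective
    refine (isIntegral_algHom_iff _ hinj).1 ?_
    have h1 : Algebra.TensorProduct.map L.val (AlgHom.id ℚ B) F =
        ∑ j, κ j ⊗ₜ[ℚ] a j := by
      rw [map_sum]
      rfl
    rw [h1]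
    exact hint
  obtain ⟨β, hβ⟩ := galdesc_dual L κ' hκ' i
  have h2 : (1 : QBar) ⊗ₜ[ℚ] a i = ∑ σ : L →ₐ[ℚ] QBar,
      (σ β ⊗ₜ[ℚ] (1 : B)) * Algebra.TensorProduct.map σ (AlgHom.id ℚ B) F := by
    have h3 : ∀ σ : L →ₐ[ℚ] QBar, (σ β ⊗ₜ[ℚ] (1 : B)) *
        Algebra.TensorProduct.map σ (AlgHom.id ℚ B) F = ∑ j, σ (β * κ' j) ⊗ₜ[ℚ] a j := by
      intro σ
      rw [map_sum, Finset.mul_sum]
      refine Finset.sum_congr rfl fun j _ => ?_
      rw [Algebra.TensorProduct.map_tmul, Algebra.TensorProduct.tmul_mul_tmul, one_mul,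
        map_mul, AlgHom.id_apply]
    rw [Finset.sum_congr rfl fun σ _ => h3 σ, Finset.sum_comm]
    have h4 : ∀ j, ∑ σ : L →ₐ[ℚ] QBar, σ (β * κ' j) ⊗ₜ[ℚ] a j =
        if j = i then (1 : QBar) ⊗ₜ[ℚ] a i else 0 := by
      intro j
      rw [← TensorProduct.sum_tmul, ← trace_eq_sum_embeddings QBar, hβ j]
      by_cases h : j = i
      · rw [if_pos h, if_pos h, map_one, h]
      · rw [if_neg h, if_neg h, map_zero, TensorProduct.zero_tmul]
    rw [Finset.sum_congr rfl fun j _ => h4 j, Finset.sum_ite_eq' Finset.univ i,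
      if_pos (Finset.mem_univ i)]
  have h5 : IsIntegral ℚ ((1 : QBar) ⊗ₜ[ℚ] a i) := by
    rw [h2]
    refine IsIntegral.sum (R := ℚ) (A := QBar ⊗[ℚ] B) _ (fun σ _ => ?_)
    have h6 : IsIntegral ℚ (σ β) := Algebra.IsIntegral.isIntegral (R := ℚ) (A := QBar) (σ β)
    have h7 : IsIntegral ℚ (σ β ⊗ₜ[ℚ] (1 : B)) :=
      h6.map (Algebra.TensorProduct.includeLeft : QBar →ₐ[ℚ] QBar ⊗[ℚ] B)
    have h8 : IsIntegral ℚ (Algebra.TensorProduct.map σ (AlgHom.id ℚ B) F) :=
      IsIntegral.map (A := ℚ) (Algebra.TensorProduct.map σ (AlgHom.id ℚ B)) hF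
    exact h7.mul h8
  exact (isIntegral_algHom_iff (Algebra.TensorProduct.includeRight : B →ₐ[ℚ] QBar ⊗[ℚ] B)
    (Algebra.TensorProduct.includeRight_injective (algebraMap ℚ QBar).injective)).1 h5

end Pool.Agent.Lib.MP_ae0f86_nt
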