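import Pool.Agent.Lib.MP_ae0f86_nt.StmD2

/-!
# MP_ae0f86_nt : [GE gentate]
-/

set_option autoImplicit false

universe w v u

open CategoryTheory CategoryTheory.Limits Opposite MonoidalCategory

namespace Pool.Agent.Lib.MP_ae0f86_nt

/-- The coevaluation of an invertible object is a monomorphism. -/
theorem gentate_mono {A : Type u} [Category.{v} A] [MonoidalCategory A]
    (L L' D : A) [ExactPairing L D] (e : L ⊗ L' ≅ 𝟙_ A) : Mono (η_ L D) := by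
  have h1 : IsSplitMono (η_ L D ▷ L) := by
    refine ⟨⟨⟨(α_ L D L).hom ≫ L ◁ ε_ L D ≫ (ρ_ L).hom ≫ (λ_ L).inv, ?_⟩⟩⟩
    have h2 := ExactPairing.evaluation_coevaluation L D
    rw [← Category.assoc, ← Category.assoc, ← Category.assoc, Category.assoc (η_ L D ▷ L),
      h2]
    simp
  have h3 : Mono ((tensorRight L').map (η_ L D ▷ L)) := inferInstance
  have h4 : Mono (η_ L D ▷ (L ⊗ L')) := by
    rw [MonoidalCategory.whiskerRight_tensor]
    have h5 : Mono (η_ L D ▷ L ▷ L') := h3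
    infer_instance
  have h6 : η_ L D = (ρ_ (𝟙_ A)).inv ≫ (𝟙_ A ◁ e.inv) ≫ (η_ L D ▷ (L ⊗ L')) ≫
      ((L ⊗ D) ◁ e.hom) ≫ (ρ_ (L ⊗ D)).hom := by
    rw [← MonoidalCategory.whisker_exchange_assoc, ← MonoidalCategory.whiskerLeft_comp_assoc,
      e.inv_hom_id]
    simp
  rw [h6]
  infer_instance

theorem e_gentate {A : Type u} [Category.{v} A] [Abelian A] [MonoidalCategory A]
    [SymmetricCategory A] [RigidCategory A] : S_gentate A := by
  intro L L' e W hL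
  have hη : Mono (η_ L Lᘁ) := gentate_mono L L' Lᘁ e
  have hp : (tensorLeft L').PreservesMonomorphisms :=
    Functor.preservesMonomorphisms_of_adjunction (tensorLeftAdjunction L' L'ᘁ)
  have h1 : Mono (L' ◁ η_ L Lᘁ) := inferInstanceAs (Mono ((tensorLeft L').map (η_ L Lᘁ)))
  let i : L' ⟶ Lᘁ := (ρ_ L').inv ≫ (L' ◁ η_ L Lᘁ) ≫ (α_ L' L Lᘁ).inv ≫
    ((β_ L' L).hom ▷ Lᘁ) ≫ (e.hom ▷ Lᘁ) ≫ (λ_ Lᘁ).hom
  have hi : Mono i := by
    change Mono ((ρ_ L').inv ≫ (L' ◁ η_ L Lᘁ) ≫ (α_ L' L Lᘁ).inv ≫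
      ((β_ L' L).hom ▷ Lᘁ) ≫ (e.hom ▷ Lᘁ) ≫ (λ_ Lᘁ).hom)
    infer_instance
  exact Gen.sub i (Gen.dual hL)

end Pool.Agent.Lib.MP_ae0f86_nt
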