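import Pool.Agent.Lib.MP_ae0f86_nt.StmD2
import Pool.Agent.Lib.MP_ae0f86_nt.P.Slpext
import Pool.Agent.Lib.MP_ae0f86_nt.P.Zero

/-!
# MP_ae0f86_nt : piece geoz
-/

set_option autoImplicit false

universe w v u

open CategoryTheory CategoryTheory.Limits Opposite MonoidalCategory

namespace Pool.Agent.Lib.MP_ae0f86_nt

noncomputable section

attribute [local instance] CategoryTheory.Abelian.hasFiniteBiproducts

private theorem geoz_uw {τ : Type} (a b : τ) :
    SignQuadric (MvPolynomial.X a * MvPolynomial.X b - 1 : MvPolynomial τ ℤ) := by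
  have h1 := p_slpext_add (p_slpext_zero (τ := τ)) (Finsupp.single a 1 + Finsupp.single b 1)
    (by
      rw [Finsupp.sum_add_index' (fun _ => rfl) (fun _ _ _ => rfl)]
      rw [Finsupp.sum_single_index (by rfl), Finsupp.sum_single_index (by rfl)]
      simp) (by simp) 1 (Or.inl rfl)
  have h2 := p_slpext_add h1 0 (by simp) (by
    classical
    rw [zero_add, MvPolynomial.coeff_monomial, if_neg]
    intro h
    have := congrArg (fun f => f a) h
    simp only [Finsupp.add_apply, Finsupp.single_eq_same, Finsupp.zero_apply] at this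
    omega) (-1) (Or.inr rfl)
  have h3 : (0 + MvPolynomial.monomial (Finsupp.single a 1 + Finsupp.single b 1) (1 : ℤ) +
      MvPolynomial.monomial 0 (-1 : ℤ) : MvPolynomial τ ℤ) =
      MvPolynomial.X a * MvPolynomial.X b - 1 := by
    rw [zero_add, MvPolynomial.X, MvPolynomial.X, MvPolynomial.monomial_mul, mul_one,
      sub_eq_add_neg]
    congr 1
    rw [← MvPolynomial.C_apply]
    simp
  rwa [h3] at h2

/-- The renaming of the coordinates is an isomorphism. -/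
private theorem geoz_iso {k : Type} [Field k] {ι ι' : Type} [Finite ι] [Finite ι'] (ε : ι ≃ ι')
    {X : Set (ι → k)} {X' : Set (ι' → k)} (hX : IsAlg X) (hX' : IsAlg X')
    (h : X' = {z | z ∘ ε ∈ X}) : Nonempty (AffPair.abs hX' ≅ AffPair.abs hX) := by
  subst h
  let f : AffPair.abs hX' ⟶ AffPair.abs hX :=
    ⟨fun z => ⟨z.1 ∘ ε, z.2⟩, ⟨fun j => MvPolynomial.X (ε j), by intro x j; simp⟩,
      fun x hx => hx.elim⟩
  let g : AffPair.abs hX ⟶ AffPair.abs hX' :=
    ⟨fun z => ⟨z.1 ∘ ε.symm, by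
        show (z.1 ∘ ε.symm) ∘ ε ∈ X
        have : (z.1 ∘ ε.symm) ∘ ε = z.1 := by
          funext i
          simp
        rw [this]
        exact z.2⟩, ⟨fun j => MvPolynomial.X (ε.symm j), by intro x j; simp⟩,
      fun x hx => hx.elim⟩
  have : IsIso f := by
    refine isIso_of_inv f g (fun x => ?_) (fun y => ?_)
    · funext i
      show (x.1 : ι' → k) (ε (ε.symm i)) = x.1 i
      rw [Equiv.apply_symm_apply]
    · funext i
      show (y.1 : ι → k) (ε.symm (ε i)) = y.1 i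
      rw [Equiv.symm_apply_apply]
  exact ⟨asIso f⟩

private theorem geoz_total {k : Type} [Field k] {A : Type u} [Category.{v} A] [Abelian A]
    [MonoidalCategory A] (T : CohTheory k A) (h1 : S_subsum A) (h2 : S_subq A) (P : AffPair k)
    (N : A) (h : SubSum (T.cl P) N) : Lin (T.total P) N := by
  obtain ⟨s1, s2, s3, -, s5, s6, s7⟩ := h1
  obtain ⟨-, -, -, q4, -, -⟩ := h2
  rw [← s7]
  refine s3 _ _ _ ?_ h
  rintro M ⟨i, rfl⟩
  rcases lt_or_ge i 0 with hi | hi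
  · exact s6 _ _ (T.bounded i _ (Or.inl hi))
  · by_cases hj : i ≤ 2 * (Nat.card P.ι : ℤ)
    · obtain ⟨j, rfl⟩ := Int.eq_ofNat_of_zero_le hi
      have hidx : j < 2 * Nat.card P.ι + 1 := by omega
      let m := biproduct.ι (fun i : Fin (2 * Nat.card P.ι + 1) =>
        (T.h ((i : ℕ) : ℤ)).obj (op P)) ⟨j, hidx⟩
      have hm : Mono m := inferInstanceAs (Mono (biproduct.ι
        (fun i : Fin (2 * Nat.card P.ι + 1) => (T.h ((i : ℕ) : ℤ)).obj (op P)) ⟨j, hidx⟩))
      exact s1 _ (T.total P) _ (s5 _ _ rfl) (q4 _ _ m hm)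
    · exact s6 _ _ (T.bounded i _ (Or.inr (by omega)))

private theorem geoz_total' {k : Type} [Field k] {A : Type u} [Category.{v} A] [Abelian A]
    [MonoidalCategory A] (T : CohTheory k A) (h1 : S_subsum A) (P : AffPair k)
    (N : A) (h : Lin (T.total P) N) : SubSum (T.cl P) N := by
  obtain ⟨s1, s2, s3, -, s5, s6, s7⟩ := h1
  rw [← s7] at h
  refine s3 _ _ _ ?_ h
  rintro M rfl
  exact s2 _ _ _ (fun i => s5 _ _ ⟨((i : ℕ) : ℤ), rfl⟩)

private theorem geoz_key {A : Type u} [Category.{v} A] [Abelian A] [MonoidalCategory A]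
    [MonoidalPreadditive A] [SymmetricCategory A] (T : CohTheory QBar A)
    (h4 : S_gmsub T) (h5 : S_prodsub T)
    (h6 : S_smgm QBar) (h7 : S_smreindex QBar) (h8 : S_unitq T) (h9 : S_subtens T)
    (h10 : S_subsum A) (h11 : S_subq A)
    {n r c : ℕ} (q0 : Fin r → MvPolynomial (Fin n) ℤ) (hq : ∀ j, SignQuadric (q0 j))
    (hs : IsSmooth c (zq q0)) (hne : (zq q0).Nonempty) :
    ∃ q : Fin (r + 1) → MvPolynomial (Fin (n + 2)) ℤ, (∀ j, SignQuadric (q j)) ∧
      IsSmooth (c + 1) (zq q) ∧ (zq q).Nonempty ∧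
      (∀ M, SubSum (T.cl (AffPair.abs (zq_alg q0))) M → Lin (T.tq q) M) ∧
      Lin (T.tq q) T.L := by
  have h10' := h10
  obtain ⟨s1, s2, s3, -, s5, s6, s7⟩ := h10
  have h11' := h11
  obtain ⟨-, -, q3, q4, q5, -⟩ := h11
  let ε : Fin n ⊕ Fin 2 ≃ Fin (n + 2) := finSumFinEquiv
  let ε' : Fin r ⊕ Fin 1 ≃ Fin (r + 1) := finSumFinEquiv
  let Q : Fin r ⊕ Fin 1 → MvPolynomial (Fin (n + 2)) ℤ :=
    Sum.elim (fun a => MvPolynomial.rename (ε ∘ Sum.inl) (q0 a))
      (fun _ => MvPolynomial.X (ε (Sum.inr 0)) * MvPolynomial.X (ε (Sum.inr 1)) - 1)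
  let q : Fin (r + 1) → MvPolynomial (Fin (n + 2)) ℤ := fun j => Q (ε'.symm j)
  let Y : Set (Fin n ⊕ Fin 2 → QBar) :=
    {z | z ∘ Sum.inl ∈ zq q0 ∧ z (Sum.inr 0) * z (Sum.inr 1) = 1}
  have hmem : ∀ z : Fin (n + 2) → QBar, z ∈ zq q ↔ z ∘ ε ∈ Y := by
    intro z
    have e1 : z ∈ zq q ↔ ∀ j, MvPolynomial.eval z
        (MvPolynomial.map (Int.castRingHom QBar) (Q j)) = 0 := by
      constructor
      · intro h j
        have := h (ε' j)
        simpa only [q, Equiv.symm_apply_apply] using this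
      · intro h j
        exact h (ε'.symm j)
    have e2 : MvPolynomial.eval z (MvPolynomial.map (Int.castRingHom QBar) (Q (Sum.inr 0))) =
        z (ε (Sum.inr 0)) * z (ε (Sum.inr 1)) - 1 := by
      simp only [Q, Sum.elim_inr, map_sub, map_mul, MvPolynomial.map_X, MvPolynomial.eval_X,
        map_one]
    rw [e1]
    constructor
    · intro h
      refine ⟨fun a => ?_, ?_⟩
      · have := h (Sum.inl a)
        simp only [Q, Sum.elim_inl, MvPolynomial.map_rename, MvPolynomial.eval_rename] at this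
        exact this
      · have := h (Sum.inr 0)
        rw [e2] at this
        exact sub_eq_zero.1 this
    · rintro ⟨ha, hb⟩ (a | b)
      · simp only [Q, Sum.elim_inl, MvPolynomial.map_rename, MvPolynomial.eval_rename]
        exact ha a
      · rw [Subsingleton.elim b 0, e2]
        exact sub_eq_zero.2 hb
  have hset : zq q = {z | z ∘ ε ∈ Y} := by
    ext z
    exact hmem z
  have hYs : IsSmooth (c + 1) Y := h6 _ hs
  have hYa : IsAlg Y := hYs.1
  have hs'' : IsSmooth (c + 1) (zq q) := by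
    rw [hset]
    exact h7 ε _ hYs
  obtain ⟨x, hx⟩ := hne
  have hne'' : (zq q).Nonempty := by
    refine ⟨Sum.elim x (fun _ => 1) ∘ ε.symm, ?_⟩
    rw [hmem]
    have e2 : (Sum.elim x (fun _ => 1) ∘ ε.symm) ∘ ε = Sum.elim x (fun _ : Fin 2 => (1 : QBar)) := by
      funext i
      simp
    rw [e2]
    exact ⟨hx, by simp⟩
  have hsq : ∀ j, SignQuadric (q j) := by
    intro j
    have : ∀ s, SignQuadric (Q s) := by
      rintro (a | b)
      · exact p_slpext_rename _ (ε.injective.comp Sum.inl_injective) (hq a)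
      · exact geoz_uw _ _
    exact this _
  obtain ⟨e⟩ := geoz_iso ε hYa (zq_alg q) hset
  -- from `Y` to `zq q`
  have hYq : ∀ M, SubSum (T.cl (AffPair.abs hYa)) M → SubSum (T.cl (AffPair.abs (zq_alg q))) M := by
    intro M hM
    refine s3 _ _ _ ?_ hM
    rintro M ⟨i, rfl⟩
    exact s1 _ _ _ (s5 _ _ ⟨i, rfl⟩) (q3 _ _ ((T.h i).mapIso e.op))
  have hcl : ∀ M, SubSum (T.cl (AffPair.abs (zq_alg q0))) M → SubSum (T.cl (AffPair.abs hYa)) M := by
    intro M hM
    refine s3 _ _ _ ?_ hM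
    rintro M ⟨i, rfl⟩
    have hG : IsAlg {w : Fin 2 → QBar | w 0 * w 1 = 1} := AffPair.gmOne.algX
    obtain ⟨f, hf⟩ := (h5 (zq_alg q0) hG hYa rfl i).1 ⟨fun _ => 1, by simp⟩
    exact s1 _ _ _ (s5 _ _ ⟨i, rfl⟩) (q4 _ _ f hf)
  refine ⟨q, hsq, hs'', hne'', fun M hM => geoz_total T h10' h11' _ _ (hYq _ (hcl _ hM)), ?_⟩
  refine geoz_total T h10' h11' _ _ (hYq _ ?_)
  have hu : SubSum (T.cl (AffPair.abs (zq_alg q0))) (𝟙_ A) :=
    geoz_total' T h10' _ _ (h8 (zq_alg q0) ⟨x, hx⟩)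
  have key : SubSum (T.cl (AffPair.abs hYa)) (𝟙_ A ⊗ tpow T.L 1) := by
    refine h9 (T.cl (AffPair.abs (zq_alg q0))) (T.cl (AffPair.abs hYa)) 1 (𝟙_ A) ?_ hu
    rintro M ⟨i, rfl⟩
    obtain ⟨f, hf⟩ := h4 (zq_alg q0) hYa rfl i
    have a1 : SubSum (T.cl (AffPair.abs hYa)) ((T.h (i + 1)).obj (op (AffPair.abs hYa))) :=
      s5 _ _ ⟨i + 1, rfl⟩
    have a2 : SubSum (T.cl (AffPair.abs hYa))
        ((T.h i).obj (op (AffPair.abs (zq_alg q0))) ⊗ T.L) :=
      s1 _ _ _ a1 (q4 _ _ f hf)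
    exact s1 _ _ _ a2 (q3 _ _ (whiskerLeftIso ((T.h i).obj (op (AffPair.abs (zq_alg q0))))
      (λ_ T.L)))
  exact s1 _ _ _ key (q3 _ _ ((λ_ (tpow T.L 1) ≪≫ λ_ T.L).symm))

theorem e_geoz {A : Type u} [Category.{v} A] [Abelian A]
    [MonoidalCategory A] [SymmetricCategory A] [MonoidalPreadditive A] (T : CohTheory QBar A)
    (h1 : S_domall T) (h2 : S_quadrics) (h3 : S_clopen T) (h4 : S_gmsub T) (h5 : S_prodsub T)
    (h6 : S_smgm QBar) (h7 : S_smreindex QBar) (h8 : S_unitq T) (h9 : S_subtens T)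
    (h10 : S_subsum A)
    (h11 : S_subq A) (_h12 : S_twist T) (_h13 : S_lincl A) : S_geoz T := by
  intro N
  obtain ⟨e, ι, _, c, X, hX, hdom⟩ := h1 N
  obtain ⟨n, r, c', q0, hc', hq, hsm, g, hg⟩ := h2 X hX
  have h10' := h10
  obtain ⟨s1, s2, s3, -, s5, s6, s7⟩ := h10
  have h11' := h11
  obtain ⟨-, -, q3, q4, q5, -⟩ := h11
  have hcl : ∀ M, T.cl (AffPair.abs hX.1) M → SubSum (T.cl (AffPair.abs (zq_alg q0))) M := by
    rintro M ⟨i, rfl⟩
    have he := h3 hX.1 _ g hg i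
    exact s1 _ _ _ (s5 _ _ ⟨i, rfl⟩) (q5 _ _ ((T.h i).map g.op) he)
  have hdom' : SubSum (T.cl (AffPair.abs (zq_alg q0))) (N ⊗ tpow T.L e) := s3 _ _ _ hcl hdom
  by_cases hne : (zq q0).Nonempty
  · obtain ⟨q, k1, k2, k3, k4, k5⟩ := geoz_key T h4 h5 h6 h7 h8 h9 h10' h11' q0 hq hsm hne
    exact ⟨e, n + 2, r + 1, c' + 1, q, by omega, k1, k2, k3, k4 _ hdom', k5⟩
  · -- the empty case
    have hz : ∀ (i : ℤ), IsZero ((T.h i).obj (op (AffPair.abs (zq_alg q0)))) := by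
      intro i
      exact p_zero T (AffPair.abs (zq_alg q0)) (Set.not_nonempty_iff_eq_empty.1 hne).symm i
    let p0 : Fin 0 → MvPolynomial (Fin 0) ℤ := fun j => j.elim0
    have hp0 : IsSmooth 0 (zq p0) := by
      refine ⟨zq_alg p0, fun x _ => ⟨fun j => j.elim0, 1, by simp, fun z _ => ?_, ?_⟩⟩
      · exact ⟨fun _ a => a.elim0, fun _ a => a.elim0⟩
      · exact linearIndependent_empty_type
    obtain ⟨q, k1, k2, k3, k4, k5⟩ := geoz_key T h4 h5 h6 h7 h8 h9 h10' h11' p0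
      (fun j => j.elim0) hp0 ⟨fun i => i.elim0, fun j => j.elim0⟩
    refine ⟨e, 2, 1, 1, q, le_rfl, k1, k2, k3, ?_, k5⟩
    rw [← s7]
    refine s3 _ _ _ ?_ hdom'
    rintro M ⟨i, rfl⟩
    exact s6 _ _ (hz i)

end

end Pool.Agent.Lib.MP_ae0f86_nt
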