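import Pool.Agent.Lib.MP_ae0f86_nt.StmD

/-!
# MP_ae0f86_nt : [GD gklow]
-/

set_option autoImplicit false

universe w v u

open CategoryTheory CategoryTheory.Limits Opposite MonoidalCategory

namespace Pool.Agent.Lib.MP_ae0f86_nt

theorem gklow_mono {K : Type} [Field K] {R : Type w} [CommRing R] [Algebra K R]
    (V : Submodule K R) (h1 : (1 : R) ∈ V) {m n : ℕ} (h : m ≤ n) : V ^ m ≤ V ^ n := by
  induction n, h using Nat.le_induction with
  | base => exact le_rfl
  | succ n _ ih =>
    refine ih.trans ?_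
    intro x hx
    rw [pow_succ]
    have := Submodule.mul_mem_mul hx h1
    rwa [mul_one] at this

theorem gklow_pow {K : Type} [Field K] {R : Type w} [CommRing R] [Algebra K R]
    (V : Submodule K R) {x : R} {k : ℕ} (hx : x ∈ V ^ k) (j : ℕ) : x ^ j ∈ V ^ (k * j) := by
  rw [pow_mul]
  exact Submodule.pow_mem_pow _ hx j

theorem gklow_prod {K : Type} [Field K] {R : Type w} [CommRing R] [Algebra K R]
    (V : Submodule K R) (h1 : (1 : R) ∈ V) (k m : ℕ) {ι : Type} (s : Finset ι) (y : ι → R)
    (hy : ∀ i, y i ∈ V ^ k) (a : ι → ℕ) (ha : ∀ i, a i ≤ m) :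
    ∏ i ∈ s, y i ^ a i ∈ V ^ (s.card * (k * m)) := by
  classical
  induction s using Finset.induction_on with
  | empty =>
    rw [Finset.prod_empty, Finset.card_empty, zero_mul, pow_zero]
    exact Submodule.one_le.1 le_rfl
  | insert i s his ih =>
    rw [Finset.prod_insert his, Finset.card_insert_of_notMem his, add_mul, one_mul, add_comm, pow_add]
    refine Submodule.mul_mem_mul ?_ ih
    exact gklow_mono V h1 (Nat.mul_le_mul_left k (ha i)) (gklow_pow V (hy i) (a i))

theorem gklow_indep {K : Type} [Field K] {R : Type w} [CommRing R] [Algebra K R] {d : ℕ}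
    (y : Fin d → R) (hy : AlgebraicIndependent K y) (m : ℕ) :
    LinearIndependent K (fun a : Fin d → Fin (m + 1) => ∏ i, y i ^ (a i : ℕ)) := by
  have h1 : LinearIndependent K (fun a : Fin d → Fin (m + 1) =>
      (MvPolynomial.basisMonomials (Fin d) K) (Finsupp.equivFunOnFinite.symm (fun i => (a i : ℕ)))) := by
    refine (MvPolynomial.basisMonomials (Fin d) K).linearIndependent.comp _ ?_
    intro a b hab
    have := Finsupp.equivFunOnFinite.symm.injective hab
    funext i
    exact Fin.ext (congrFun this i)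
  have h2 := h1.map' (MvPolynomial.aeval y).toLinearMap
    (LinearMap.ker_eq_bot.2 hy)
  have h3 : (fun a : Fin d → Fin (m + 1) => ∏ i, y i ^ (a i : ℕ)) =
      (MvPolynomial.aeval y).toLinearMap ∘ fun a : Fin d → Fin (m + 1) =>
      (MvPolynomial.basisMonomials (Fin d) K) (Finsupp.equivFunOnFinite.symm (fun i => (a i : ℕ))) := by
    funext a
    simp only [Function.comp, MvPolynomial.coe_basisMonomials, AlgHom.toLinearMap_apply,
      MvPolynomial.aeval_monomial, map_one, one_mul]
    rw [Finsupp.prod_fintype _ _ (fun i => pow_zero _)]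
    simp
  rw [h3]
  exact h2

theorem d_gklow : S_gklow.{w} := by
  intro K _ R _ _ _ V _ d h1 hex htr
  -- a transcendence basis
  obtain ⟨s, hs⟩ := exists_isTranscendenceBasis K R
  have hcard : Cardinal.mk s = (d : Cardinal) := by
    rw [← htr]
    exact hs.cardinalMk_eq_trdeg
  obtain ⟨e⟩ : Nonempty (Fin d ≃ s) := by
    have h2 : Cardinal.lift.{w} (Cardinal.mk (Fin d)) = Cardinal.lift.{0} (Cardinal.mk s) := by
      rw [hcard]; simp
    exact Cardinal.lift_mk_eq'.1 h2
  have hy : AlgebraicIndependent K (fun i : Fin d => ((e i : s) : R)) :=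
    hs.1.comp e e.injective
  set y : Fin d → R := fun i => ((e i : s) : R) with hydef
  -- a common exponent
  choose n hn using fun i => hex (y i)
  set k : ℕ := ∑ i, n i with hk
  have hyk : ∀ i, y i ∈ V ^ k := fun i =>
    gklow_mono V h1 (Finset.single_le_sum (f := n) (fun _ _ => Nat.zero_le _) (Finset.mem_univ i)) (hn i)
  set c : ℕ := (k + 1) * (d + 1) with hc
  have hcpos : 0 < c := by positivity
  have hVfg : V.FG := Module.Finite.iff_fg.1 inferInstance
  refine ⟨(1 / (c : ℝ)) ^ d, by positivity, fun N => ?_⟩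
  have : Module.Finite K ↥(V ^ N) := Module.Finite.iff_fg.2 (hVfg.pow N)
  set m : ℕ := N / c with hm
  have hmem : ∀ a : Fin d → Fin (m + 1), ∏ i, y i ^ (a i : ℕ) ∈ V ^ N := by
    intro a
    have h3 := gklow_prod V h1 k m Finset.univ y hyk (fun i => (a i : ℕ)) (fun i => Nat.lt_succ_iff.1 (a i).2)
    refine gklow_mono V h1 ?_ h3
    rw [Finset.card_univ, Fintype.card_fin]
    calc d * (k * m) ≤ (d + 1) * ((k + 1) * m) := by gcongr <;> omega
      _ = c * m := by rw [hc]; ring
      _ ≤ N := Nat.mul_div_le N c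
  have hind : LinearIndependent K (fun a : Fin d → Fin (m + 1) => (⟨∏ i, y i ^ (a i : ℕ), hmem a⟩ : ↥(V ^ N))) := by
    have h4 := gklow_indep y hy m
    exact LinearIndependent.of_comp (V ^ N).subtype h4
  have hle := hind.fintype_card_le_finrank
  rw [Fintype.card_fun, Fintype.card_fin, Fintype.card_fin] at hle
  have hlt : N + 1 ≤ c * (m + 1) := Nat.lt_mul_div_succ N hcpos
  have hltR : (N : ℝ) + 1 ≤ c * ((m : ℝ) + 1) := by exact_mod_cast hlt
  have hcR : (0 : ℝ) < c := by exact_mod_cast hcpos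
  calc (1 / (c : ℝ)) ^ d * ((N : ℝ) + 1) ^ d = (((N : ℝ) + 1) / c) ^ d := by
        rw [← mul_pow]; congr 1; field_simp
    _ ≤ ((m : ℝ) + 1) ^ d := by
        gcongr
        rw [div_le_iff₀ hcR]; linarith
    _ ≤ _ := by exact_mod_cast hle

end Pool.Agent.Lib.MP_ae0f86_nt
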