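import Pool.Agent.Lib.MP_ae0f86_nt.StmD2
import Pool.Agent.Lib.MP_ae0f86_nt.D.Gklow

/-!
# MP_ae0f86_nt : [GE gklow2]
-/

set_option autoImplicit false

universe w v u

open CategoryTheory CategoryTheory.Limits Opposite MonoidalCategory

namespace Pool.Agent.Lib.MP_ae0f86_nt

theorem gklow2_adj {K : Type} [Field K] {R : Type w} [CommRing R] [Algebra K R]
    (V : Submodule K R) (n : ℕ) {x : R} (hx : x ∈ V ^ n) :
    x ∈ Algebra.adjoin K (V : Set R) := by
  have h : V ^ n ≤ Subalgebra.toSubmodule (Algebra.adjoin K (V : Set R)) := by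
    clear hx
    induction n with
    | zero =>
      rw [pow_zero, Submodule.one_le]
      exact (Algebra.adjoin K (V : Set R)).one_mem
    | succ n ih =>
      rw [pow_succ, Submodule.mul_le]
      intro a ha b hb
      exact (Algebra.adjoin K (V : Set R)).mul_mem (ih ha) (Algebra.subset_adjoin hb)
  exact h hx

theorem gklow2_alg {K : Type} [Field K] {R : Type w} [CommRing R] [IsDomain R] [Algebra K R]
    (V : Submodule K R) (hV : GenLoc K V) :
    Algebra.IsAlgebraic (Algebra.adjoin K (V : Set R)) R := by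
  obtain ⟨δ, hδ, ⟨n0, hn0⟩, hex⟩ := hV
  constructor
  intro x
  obtain ⟨m, n, hmn⟩ := hex x
  have hδm : δ ^ m ∈ Algebra.adjoin K (V : Set R) :=
    (Algebra.adjoin K (V : Set R)).pow_mem (gklow2_adj V n0 hn0) m
  set a : Algebra.adjoin K (V : Set R) := ⟨δ ^ m, hδm⟩ with ha
  set b : Algebra.adjoin K (V : Set R) := ⟨δ ^ m * x, gklow2_adj V n hmn⟩ with hb
  have ha0 : a ≠ 0 := by
    intro h
    have h1 : δ ^ m = 0 := congrArg Subtype.val h
    exact (hδ.pow m).ne_zero h1
  refine ⟨Polynomial.C a * Polynomial.X - Polynomial.C b, ?_, ?_⟩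
  · intro h
    have h1 := congrArg (fun q => Polynomial.coeff q 1) h
    simp only [Polynomial.coeff_sub, Polynomial.coeff_C_mul, Polynomial.coeff_X_one, mul_one,
      Polynomial.coeff_zero] at h1
    rw [Polynomial.coeff_C_of_ne_zero one_ne_zero, sub_zero] at h1
    exact ha0 h1
  · simp only [map_sub, map_mul, Polynomial.aeval_C, Polynomial.aeval_X]
    show δ ^ m * x - δ ^ m * x = 0
    exact sub_self _

theorem e_gklow2 : S_gklow2.{w} := by
  intro K _ R _ _ _ V _ d h1 hV htr
  have halg := gklow2_alg V hV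
  have hinj : Function.Injective (algebraMap K R) := (algebraMap K R).injective
  -- a transcendence basis contained in V
  obtain ⟨s, -, hsV, hs⟩ := exists_isTranscendenceBasis_between (R := K) (∅ : Set R) (V : Set R)
    (Set.empty_subset _) ((algebraicIndependent_empty_type_iff).2 hinj)
  have hcard : Cardinal.mk s = (d : Cardinal) := by
    rw [← htr]
    exact hs.cardinalMk_eq_trdeg
  obtain ⟨e⟩ : Nonempty (Fin d ≃ s) := by
    have h2 : Cardinal.lift.{w} (Cardinal.mk (Fin d)) = Cardinal.lift.{0} (Cardinal.mk s) := by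
      rw [hcard]; simp
    exact Cardinal.lift_mk_eq'.1 h2
  have hy : AlgebraicIndependent K (fun i : Fin d => ((e i : s) : R)) :=
    hs.1.comp e e.injective
  set y : Fin d → R := fun i => ((e i : s) : R) with hydef
  have hyk : ∀ i, y i ∈ V ^ 1 := fun i => by
    rw [pow_one]
    exact hsV (e i).2
  set c : ℕ := d + 1 with hc
  have hcpos : 0 < c := Nat.succ_pos d
  have hVfg : V.FG := Module.Finite.iff_fg.1 inferInstance
  refine ⟨(1 / (c : ℝ)) ^ d, by positivity, fun N => ?_⟩
  have : Module.Finite K ↥(V ^ N) := Module.Finite.iff_fg.2 (hVfg.pow N)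
  set m : ℕ := N / c with hm
  have hmem : ∀ a : Fin d → Fin (m + 1), ∏ i, y i ^ (a i : ℕ) ∈ V ^ N := by
    intro a
    have h3 := gklow_prod V h1 1 m Finset.univ y hyk (fun i => (a i : ℕ))
      (fun i => Nat.lt_succ_iff.1 (a i).2)
    refine gklow_mono V h1 ?_ h3
    rw [Finset.card_univ, Fintype.card_fin, one_mul]
    calc d * m ≤ c * m := Nat.mul_le_mul_right m (Nat.le_succ d)
      _ ≤ N := Nat.mul_div_le N c
  have hind : LinearIndependent K
      (fun a : Fin d → Fin (m + 1) => (⟨∏ i, y i ^ (a i : ℕ), hmem a⟩ : ↥(V ^ N))) := by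
    have h4 := gklow_indep y hy m
    exact LinearIndependent.of_comp (V ^ N).subtype h4
  have hle := hind.fintype_card_le_finrank
  rw [Fintype.card_fun, Fintype.card_fin, Fintype.card_fin] at hle
  have hlt : N + 1 ≤ c * (m + 1) := Nat.lt_mul_div_succ N hcpos
  have hltR : (N : ℝ) + 1 ≤ c * ((m : ℝ) + 1) := by exact_mod_cast hlt
  have hcR : (0 : ℝ) < c := by exact_mod_cast hcpos
  calc (1 / (c : ℝ)) ^ d * ((N : ℝ) + 1) ^ d = (((N : ℝ) + 1) / c) ^ d := by
        rw [← mul_pow]; congr 1; field_simp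
    _ ≤ ((m : ℝ) + 1) ^ d := by
        gcongr
        rw [div_le_iff₀ hcR]; linarith
    _ ≤ _ := by exact_mod_cast hle

end Pool.Agent.Lib.MP_ae0f86_nt
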