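import Pool.Agent.Lib.MP_ae0f86_nt.StmD

/-!
# MP_ae0f86_nt : [GD gkup]
-/

set_option autoImplicit false

universe w v u

open CategoryTheory CategoryTheory.Limits Opposite MonoidalCategory

namespace Pool.Agent.Lib.MP_ae0f86_nt

/-- The monomials with exponents in `{0, ..., c}^s`. -/
private noncomputable def gkup_mon (K : Type) [Field K] (s c : ℕ) (a : Fin s → Fin (c + 1)) :
    MvPolynomial (Fin s) K :=
  ∏ i, MvPolynomial.X i ^ (a i : ℕ)

/-- Polynomials of degree at most `c` in each variable. -/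
private noncomputable def gkup_A (K : Type) [Field K] (s c : ℕ) :
    Submodule K (MvPolynomial (Fin s) K) :=
  Submodule.span K (Set.range (gkup_mon K s c))

private theorem gkup_mono (K : Type) [Field K] (s : ℕ) {c c' : ℕ} (h : c ≤ c') :
    gkup_A K s c ≤ gkup_A K s c' := by
  refine Submodule.span_mono ?_
  rintro _ ⟨a, rfl⟩
  refine ⟨fun i => ⟨a i, by have := (a i).2; omega⟩, ?_⟩
  simp [gkup_mon]

private theorem gkup_mul (K : Type) [Field K] (s c c' : ℕ) :
    gkup_A K s c * gkup_A K s c' ≤ gkup_A K s (c + c') := by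
  rw [gkup_A, gkup_A, Submodule.span_mul_span, Submodule.span_le]
  rintro _ ⟨_, ⟨a, rfl⟩, _, ⟨a', rfl⟩, rfl⟩
  refine Submodule.subset_span ⟨fun i => ⟨(a i : ℕ) + a' i, ?_⟩, ?_⟩
  · have h1 := (a i).2
    have h2 := (a' i).2
    omega
  · simp only [gkup_mon, pow_add, Finset.prod_mul_distrib]

private theorem gkup_exists (K : Type) [Field K] (s : ℕ) (p : MvPolynomial (Fin s) K) :
    ∃ c, p ∈ gkup_A K s c := by
  induction p using MvPolynomial.induction_on with
  | C a =>
    refine ⟨0, ?_⟩
    have h : (MvPolynomial.C a : MvPolynomial (Fin s) K) = a • gkup_mon K s 0 (fun _ => 0) := by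
      simp [gkup_mon, MvPolynomial.smul_eq_C_mul]
    rw [h]
    exact Submodule.smul_mem _ _ (Submodule.subset_span ⟨_, rfl⟩)
  | add p r ihp ihm =>
    obtain ⟨c, hc⟩ := ihp
    obtain ⟨c', hc'⟩ := ihm
    exact ⟨max c c', Submodule.add_mem _ (gkup_mono K s (le_max_left _ _) hc)
      (gkup_mono K s (le_max_right _ _) hc')⟩
  | mul_X p i ih =>
    obtain ⟨c, hc⟩ := ih
    refine ⟨c + 1, gkup_mul K s c 1 (Submodule.mul_mem_mul hc ?_)⟩
    refine Submodule.subset_span ⟨fun j => if j = i then 1 else 0, ?_⟩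
    rw [gkup_mon, Finset.prod_eq_single i]
    · simp
    · intro j _ hj
      simp [hj]
    · simp

/-- A finite-dimensional subspace of a directed union of subspaces is contained in one of them. -/
private theorem gkup_dir {K : Type} [Field K] {R : Type w} [CommRing R] [Algebra K R]
    (E : ℕ → Submodule K R) (hmono : ∀ {c c'}, c ≤ c' → E c ≤ E c') (hex : ∀ x, ∃ c, x ∈ E c)
    (F : Submodule K R) (hF : F.FG) : ∃ c, F ≤ E c := by
  obtain ⟨t, rfl⟩ := hF
  classical
  induction t using Finset.induction_on with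
  | empty => exact ⟨0, by simp⟩
  | insert a t _ ih =>
    obtain ⟨c, hc⟩ := ih
    obtain ⟨c', hc'⟩ := hex a
    refine ⟨max c c', ?_⟩
    rw [Finset.coe_insert, Submodule.span_insert]
    refine sup_le ?_ (hc.trans (hmono (le_max_left _ _)))
    rw [Submodule.span_le, Set.singleton_subset_iff]
    exact hmono (le_max_right _ _) hc'

theorem d_gkup : S_gkup.{w} := by
  intro K _ R _ _ _ _ V _ d hd
  obtain ⟨s, g, ginj, gint⟩ := exists_integral_inj_algHom_of_fg K R
  -- the number of variables is the transcendence degree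
  have htr : Algebra.trdeg K R = (s : Cardinal) := by
    algebraize [g.toRingHom]
    have : IsScalarTower K (MvPolynomial (Fin s) K) R :=
      IsScalarTower.of_algebraMap_eq fun x => (g.commutes x).symm
    have : FaithfulSMul (MvPolynomial (Fin s) K) R :=
      (faithfulSMul_iff_algebraMap_injective _ _).mpr ginj
    have hb := (IsTranscendenceBasis.mvPolynomial (Fin s) K).algebraMap_comp (A := R)
    have hc := hb.lift_cardinalMk_eq_trdeg
    simpa using hc.symm
  have hsd : s = d := by
    have h := htr.symm.trans hd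
    exact_mod_cast h
  subst hsd
  -- `R` is a finite module over the polynomials
  obtain ⟨k, wt, hwt⟩ : ∃ (k : ℕ) (wt : Fin k → R), ∀ r : R, ∃ p : Fin k → MvPolynomial (Fin s) K,
      r = ∑ l, g (p l) * wt l := by
    have hft : g.toRingHom.FiniteType := by
      have h1 : (algebraMap K R).FiniteType := RingHom.finiteType_algebraMap.mpr inferInstance
      have h2 : g.toRingHom.comp (algebraMap K (MvPolynomial (Fin s) K)) = algebraMap K R :=
        g.comp_algebraMap
      rw [← h2] at h1
      exact RingHom.FiniteType.of_comp_finiteType h1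
    have hfin : g.toRingHom.Finite := RingHom.IsIntegral.to_finite gint hft
    algebraize [g.toRingHom]
    have hM : Module.Finite (MvPolynomial (Fin s) K) R := hfin
    obtain ⟨k, wt, hw⟩ := Module.Finite.exists_fin (R := MvPolynomial (Fin s) K) (M := R)
    refine ⟨k, wt, fun r => ?_⟩
    have hr : r ∈ Submodule.span (MvPolynomial (Fin s) K) (Set.range wt) := by
      rw [hw]; trivial
    obtain ⟨p, hp⟩ := (Submodule.mem_span_range_iff_exists_fun _).mp hr
    refine ⟨p, ?_⟩
    rw [← hp]
    rfl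
  -- the filtration
  let W : Submodule K R := Submodule.span K (Set.range wt)
  let E : ℕ → Submodule K R := fun c => (gkup_A K s c).map g.toLinearMap * W
  have hEmono : ∀ {c c'}, c ≤ c' → E c ≤ E c' := fun {c c'} h =>
    mul_le_mul_left (Submodule.map_mono (gkup_mono K s h)) _
  have hEex : ∀ x, ∃ c, x ∈ E c := by
    intro x
    obtain ⟨p, rfl⟩ := hwt x
    have h1 : ∀ l, ∃ c, p l ∈ gkup_A K s c := fun l => gkup_exists K s (p l)
    choose c hc using h1
    refine ⟨Finset.univ.sup c, Submodule.sum_mem _ fun l _ => Submodule.mul_mem_mul ?_ ?_⟩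
    · exact ⟨p l, gkup_mono K s (Finset.le_sup (Finset.mem_univ l)) (hc l), rfl⟩
    · exact Submodule.subset_span ⟨l, rfl⟩
  have hVfg : V.FG := Module.Finite.iff_fg.mp inferInstance
  have hWfg : W.FG := Submodule.fg_span (Set.finite_range wt)
  obtain ⟨c1, hc1⟩ := gkup_dir E hEmono hEex (V * W) (hVfg.mul hWfg)
  obtain ⟨c2, hc2⟩ := hEex 1
  set c := max c1 c2 with hc
  have hVW : V * W ≤ E c := hc1.trans (hEmono (le_max_left _ _))
  have h1E : (1 : R) ∈ E c := hEmono (le_max_right _ _) hc2
  have hstep : ∀ e, V * E e ≤ E (e + c) := by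
    intro e
    calc V * E e = (gkup_A K s e).map g.toLinearMap * (V * W) := by
          simp only [E]
          rw [← mul_assoc, mul_comm V, mul_assoc]
      _ ≤ (gkup_A K s e).map g.toLinearMap * E c := mul_le_mul_right hVW _
      _ = ((gkup_A K s e).map g.toLinearMap * (gkup_A K s c).map g.toLinearMap) * W := by
          simp only [E]
          rw [mul_assoc]
      _ = (gkup_A K s e * gkup_A K s c).map g.toLinearMap * W := by
          rw [Submodule.map_mul]
      _ ≤ E (e + c) := mul_le_mul_left (Submodule.map_mono (gkup_mul K s e c)) _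
  have hpow : ∀ n : ℕ, V ^ n * E c ≤ E (c * (n + 1)) := by
    intro n
    induction n with
    | zero => simp
    | succ n ih =>
      calc V ^ (n + 1) * E c = V * (V ^ n * E c) := by rw [pow_succ, mul_comm (V ^ n) V, mul_assoc]
        _ ≤ V * E (c * (n + 1)) := mul_le_mul_right ih _
        _ ≤ E (c * (n + 1) + c) := hstep _
        _ = E (c * (n + 1 + 1)) := by ring_nf
  have hle : ∀ n : ℕ, V ^ n ≤ E (c * (n + 1)) := by
    intro n x hx
    have h := Submodule.mul_mem_mul hx h1E
    rw [mul_one] at h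
    exact hpow n h
  have hEspan : ∀ e, E e = Submodule.span K
      (Set.range fun p : (Fin s → Fin (e + 1)) × Fin k => g (gkup_mon K s e p.1) * wt p.2) := by
    intro e
    simp only [E, W, gkup_A]
    rw [Submodule.map_span, Submodule.span_mul_span]
    congr 1
    ext x
    constructor
    · rintro ⟨_, ⟨_, ⟨a, rfl⟩, rfl⟩, _, ⟨l, rfl⟩, rfl⟩
      exact ⟨(a, l), rfl⟩
    · rintro ⟨⟨a, l⟩, rfl⟩
      exact ⟨_, ⟨_, ⟨a, rfl⟩, rfl⟩, _, ⟨l, rfl⟩, rfl⟩
  have hEfin : ∀ e, Module.finrank K (E e) ≤ (e + 1) ^ s * k := by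
    intro e
    rw [hEspan e]
    refine (finrank_range_le_card _).trans ?_
    simp
  have hEF : ∀ e, Module.Finite K (E e) := by
    intro e
    rw [hEspan e]
    exact Module.Finite.iff_fg.mpr (Submodule.fg_span (Set.finite_range _))
  refine ⟨((c : ℝ) + 1) ^ s * k, fun n => ?_⟩
  have h1 : Module.finrank K ↥(V ^ n) ≤ (c * (n + 1) + 1) ^ s * k := by
    have := hEF (c * (n + 1))
    exact (Submodule.finrank_mono (hle n)).trans (hEfin _)
  have h2 : (Module.finrank K ↥(V ^ n) : ℝ) ≤ ((c : ℝ) * (n + 1) + 1) ^ s * k := by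
    exact_mod_cast h1
  refine h2.trans ?_
  have h3 : ((c : ℝ) * (n + 1) + 1) ≤ ((c : ℝ) + 1) * (n + 1) := by
    have : (0 : ℝ) ≤ n := Nat.cast_nonneg n
    linarith
  calc ((c : ℝ) * (n + 1) + 1) ^ s * k ≤ (((c : ℝ) + 1) * (n + 1)) ^ s * k :=
        mul_le_mul_of_nonneg_right (pow_le_pow_left₀ (by positivity) h3 s) (Nat.cast_nonneg k)
    _ = ((c : ℝ) + 1) ^ s * k * ((n : ℝ) + 1) ^ s := by rw [mul_pow]; ring

end Pool.Agent.Lib.MP_ae0f86_nt
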