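import Pool.Agent.Lib.MP_ae0f86_nt.StmD2

set_option autoImplicit false

/-!
# MP_ae0f86_nt : [GE herdim]
-/

universe w v u

open CategoryTheory CategoryTheory.Limits Opposite MonoidalCategory

namespace Pool.Agent.Lib.MP_ae0f86_nt

section

variable {A : Type u} [Category.{v} A] [Abelian A] [MonoidalCategory A] [SymmetricCategory A]

omit [MonoidalCategory A] [SymmetricCategory A] in
private theorem herdim_fpMap_sym {K : Type} [Field K] (H : A ⥤ ModuleCat.{0} K)
    (HB : A ⥤ ModuleCat.{0} ℚ) {S S' : A → Prop} (h : ∀ N, S N → S' N) {N : A} (hN : S N)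
    (ω : H.obj N) (σ : Module.Dual ℚ (HB.obj N)) :
    fpMap H HB h (sym H HB hN ω σ) = sym H HB (h N hN) ω σ := by
  unfold fpMap sym
  rw [Submodule.mapQ_apply]
  simp [symbMap]

private theorem herdim_evAlg_asym {K : Type} [Field K] [Algebra K ℂ]
    {HdR : A ⥤ ModuleCat.{0} K}
    {HB : A ⥤ ModuleCat.{0} ℚ} [FibreFunctor HdR] [FibreFunctor HB] (c : Comparison HdR HB)
    (S : A → Prop) {N : A} (hN : S N) (ω : HdR.obj N) (σ : Module.Dual ℚ (HB.obj N)) :
    c.evAlg S (asym HdR HB hN ω σ) = c.per N ω σ :=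
  MvPolynomial.aeval_X (R := K) (fun s : Symb HdR HB S => c.per s.N s.ω s.σ) ⟨N, hN, ω, σ⟩

/-- The homomorphism `PerAlg S → PerAlg S'` for `S ⊆ S'`. -/
private theorem herdim_map {K : Type} [Field K] (H : A ⥤ ModuleCat.{0} K)
    (HB : A ⥤ ModuleCat.{0} ℚ) [FibreFunctor H] [FibreFunctor HB]
    (h12 : S_algrel (A := A)) (h14 : S_points.{u, v, u} H HB) (h15 : S_arel H HB)
    {S S' : A → Prop} (h : ∀ N, S N → S' N) :
    ∃ j : PerAlg H HB S →ₐ[K] PerAlg H HB S', ∀ {N : A} (hN : S N) (ω : H.obj N)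
      (σ : Module.Dual ℚ (HB.obj N)), j (asym H HB hN ω σ) = asym H HB (h N hN) ω σ := by
  obtain ⟨a1, a2, a3, a4, a5, -, -⟩ := h15 S'
  obtain ⟨-, b1, b2, -⟩ := h12 H HB S'
  let P : Pt H HB S (PerAlg H HB S') :=
    { p := fun hN ω σ => asym H HB (h _ hN) ω σ
      add_left := fun hN ω ω' σ => a1 (h _ hN) ω ω' σ
      smul_left := fun hN a ω σ => a2 (h _ hN) a ω σ
      add_right := fun hN ω σ σ' => a3 (h _ hN) ω σ σ'
      smul_right := fun hN q ω σ => a4 (h _ hN) q ω σ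
      nat := fun hN hN' f ω σ' => a5 (h _ hN) (h _ hN') f ω σ'
      mul := fun hM hN hMN ω η σ τ => (b1 (h _ hM) (h _ hN) (h _ hMN) ω η σ τ).symm
      one := fun h1 σ hσ => b2 (h _ h1) σ hσ }
  obtain ⟨f, hf⟩ := h14 S (PerAlg H HB S') P
  exact ⟨f, fun hN ω σ => hf hN ω σ⟩

private theorem herdim_sub_equiv {K R R' : Type*} [Field K] [CommRing R] [CommRing R']
    [Algebra K R] [Algebra K R'] (j : R' →ₐ[K] R) (hj : Function.Injective j)
    (τ : R ≃ₐ[K] R) (h1 : ∀ a, τ (j a) ∈ j.range) (h2 : ∀ a, ∃ b, j a = τ (j b)) :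
    ∃ τ' : R' ≃ₐ[K] R', ∀ a, τ (j a) = j (τ' a) := by
  choose f hf using fun a => h1 a
  let F : R' →ₐ[K] R' := AlgHom.ofLinearMap
    { toFun := f
      map_add' := fun x y => hj (by
        have := hf (x + y)
        rw [map_add]
        erw [this, hf x, hf y]
        rw [map_add, map_add])
      map_smul' := fun k x => hj (by
        have := hf (k • x)
        rw [RingHom.id_apply, map_smul]
        erw [this, hf x]
        rw [map_smul, map_smul]) }
    (hj (by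
      have := hf 1
      show j (f 1) = j 1
      erw [this]
      rw [map_one, map_one]))
    (fun x y => hj (by
      have := hf (x * y)
      show j (f (x * y)) = j (f x * f y)
      rw [map_mul]
      erw [this, hf x, hf y]
      rw [map_mul, map_mul]))
  have hF : ∀ a, j (F a) = τ (j a) := fun a => hf a
  have hinj : Function.Injective F := by
    intro a b hab
    have := congrArg j hab
    rw [hF, hF] at this
    exact hj (τ.injective this)
  have hsurj : Function.Surjective F := by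
    intro a
    obtain ⟨b, hb⟩ := h2 a
    exact ⟨b, hj (by rw [hF, ← hb])⟩
  exact ⟨AlgEquiv.ofBijective F ⟨hinj, hsurj⟩, fun a => (hF a).symm⟩

end

theorem e_herdim {A : Type u} [Category.{v} A] [Abelian A] [MonoidalCategory A]
    [SymmetricCategory A] [RigidCategory A] {HdR : A ⥤ ModuleCat.{0} QBar}
    {HB : A ⥤ ModuleCat.{0} ℚ} [FibreFunctor HdR] [FibreFunctor HB] (c : Comparison HdR HB)
    (h1 : S_abssub.{u}) (h2 : S_injdim.{u}) (h3 : S_injdim2.{u}) (h4 : S_dims c) (h5 : S_comps.{u})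
    (h6 : S_pdec HdR HB) (h7 : S_perm HdR HB) (h8 : S_evcut.{u}) (h9 : S_heredity HdR HB)
    (h10 : S_fpring (A := A)) (h11 : S_single HdR HB) (h12 : S_algrel (A := A))
    (h13 : S_genclosed (A := A)) (h14 : S_points.{u, v, u} HdR HB) (h15 : S_arel HdR HB)
    (h16 : S_fintype HdR HB) : S_herdim c := by
  intro _ T M hTM
  have hsub : ∀ N, Gen M N → Gen T N := fun N hN => h13.2.2.2 T M N hTM hN
  obtain ⟨j, hj⟩ := herdim_map HdR HB h12 h14 h15 hsub
  have hTc := h13.1 T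
  have hMc := h13.1 M
  -- every element of `R'` is a symbol
  have hsym : ∀ x : PerAlg HdR HB (Gen M), ∃ (N : A) (hN : Gen M N) (ω : HdR.obj N)
      (σ : Module.Dual ℚ (HB.obj N)), x = asym HdR HB hN ω σ ∧
        x = toPerAlg HdR HB (Gen M) (sym HdR HB hN ω σ) := by
    intro x
    obtain ⟨y, rfl⟩ := (h10 HdR HB (Gen M) hMc).2 x
    obtain ⟨N, hN, ω, σ, rfl⟩ := h11 (Gen M) hMc.toClosed y
    exact ⟨N, hN, ω, σ, (h12 HdR HB (Gen M)).1 hN ω σ, rfl⟩
  have hinj : Function.Injective j := by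
    rw [injective_iff_map_eq_zero]
    intro x hx
    obtain ⟨N, hN, ω, σ, hx1, hx2⟩ := hsym x
    rw [hx1, hj hN ω σ, ← (h12 HdR HB (Gen T)).1 (hsub N hN) ω σ] at hx
    have h17 : sym HdR HB (hsub N hN) ω σ = 0 :=
      (h10 HdR HB (Gen T) hTc).1 (by rw [hx, map_zero])
    have hher : Function.Injective (fpMap HdR HB hsub) :=
      h9 (FibreFunctor.finite (H := HB)) (Gen M) (Gen T) hsub hMc.toClosed hTc.toClosed
    have h18 : sym HdR HB hN ω σ = 0 := by
      apply hher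
      rw [herdim_fpMap_sym, h17, map_zero]
    rw [hx2, h18, map_zero]
  have hev : ∀ x, c.evAlg (Gen T) (j x) = c.evAlg (Gen M) x := by
    intro x
    obtain ⟨N, hN, ω, σ, hx1, -⟩ := hsym x
    rw [hx1, hj hN ω σ, herdim_evAlg_asym, herdim_evAlg_asym]
  obtain ⟨r, e, he⟩ := h6 T
  obtain ⟨r', e', he'⟩ := h6 M
  have hfw : ∀ {N : A} (hN : Gen M N), fw HdR HB (hsub N hN) ≤
      Subalgebra.toSubmodule j.range := by
    intro N hN
    rw [fw, Submodule.span_le]
    rintro _ ⟨ω, σ, rfl⟩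
    exact ⟨asym HdR HB hN ω σ, hj hN ω σ⟩
  have hauto : ∀ i l, ∃ (τ : PerAlg HdR HB (Gen T) ≃ₐ[QBar] PerAlg HdR HB (Gen T))
      (τ' : PerAlg HdR HB (Gen M) ≃ₐ[QBar] PerAlg HdR HB (Gen M)),
      τ (e i) = e l ∧ ∀ a, τ (j a) = j (τ' a) := by
    intro i l
    obtain ⟨τ, hτ, hτfw⟩ := h7 T r e he i l
    have hmem : ∀ {N : A} (hN : Gen M N) (ω : HdR.obj N) (σ : Module.Dual ℚ (HB.obj N)),
        asym HdR HB (hsub N hN) ω σ ∈ fw HdR HB (hsub N hN) :=
      fun hN ω σ => Submodule.subset_span ⟨ω, σ, rfl⟩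
    obtain ⟨τ', hτ'⟩ := herdim_sub_equiv j hinj τ (by
      intro a
      obtain ⟨N, hN, ω, σ, ha, -⟩ := hsym a
      rw [ha, hj hN ω σ]
      apply hfw hN
      rw [← hτfw (hsub N hN)]
      exact ⟨_, hmem hN ω σ, rfl⟩) (by
      intro a
      obtain ⟨N, hN, ω, σ, ha, -⟩ := hsym a
      have h19 := hmem hN ω σ
      rw [← hτfw (hsub N hN)] at h19
      obtain ⟨y, hy, hy2⟩ := h19
      obtain ⟨b, hb⟩ := hfw hN hy
      refine ⟨b, ?_⟩
      rw [ha, hj hN ω σ, ← hy2]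
      show τ y = τ (j b)
      rw [← hb]
      rfl)
    exact ⟨τ, τ', hτ, hτ'⟩
  obtain ⟨hrr, habs⟩ := h1 QBar (PerAlg HdR HB (Gen T)) (PerAlg HdR HB (Gen M)) j hinj r r' e e'
    he he' hauto
  refine ⟨?_, ?_⟩
  · have k1 := (h5 (PerAlg HdR HB (Gen M)) r' e' he').2.1
    have k2 := (h5 (PerAlg HdR HB (Gen T)) r e he).2.1
    unfold ncomp
    rw [k1, k2]
    exact hrr
  · intro hD
    have := h16 T
    obtain ⟨i0, hi0⟩ := (h8 QBar (PerAlg HdR HB (Gen T)) r e he ℂ (c.evAlg (Gen T))).1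
    obtain ⟨k0, hk0⟩ := (h8 QBar (PerAlg HdR HB (Gen M)) r' e' he' ℂ (c.evAlg (Gen M))).1
    obtain ⟨-, g, t, hg, hgi, ht, -, htr⟩ := h4 T r e he
    obtain ⟨-, g', t', hg', hgi', ht', -, htr'⟩ := h4 M r' e' he'
    have hgt : (g : WithBot ℕ∞) = (t : WithBot ℕ∞) := by
      have hD' := hD
      unfold DimFormula at hD'
      rw [hg, htr, map_natCast] at hD'
      exact hD'
    have hi := (h2 QBar (PerAlg HdR HB (Gen T)) r e he ℂ (c.evAlg (Gen T)) i0 hi0).2
      (by rw [ht, (hgi i0).1, hgt])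
    have hk := habs ℂ (c.evAlg (Gen T)) i0 k0 hi0 (by rw [hev]; exact hk0) hi
    have hm := h3 QBar (PerAlg HdR HB (Gen M)) r' e' he' ℂ (c.evAlg (Gen M)) k0 hk0
      (fun a ha => hk a (by rw [hev]; exact ha))
    rw [ht', (hgi' k0).1] at hm
    unfold DimFormula
    rw [hg', htr', map_natCast, ← hm]
    rfl

end Pool.Agent.Lib.MP_ae0f86_nt
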