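import Pool.Agent.Lib.MP_ae0f86_nt.StmD

/-!
# MP_ae0f86_nt : [GD hilb]

We use the homogeneous version of the argument: with generators `x_1, ..., x_k` of `V`
(`k = m + 1`), `V^n` is spanned by the monomials of degree `n`; `B` is the set of all monomials
which are not in the span of the smaller monomials of the same degree.
-/

set_option autoImplicit false

universe w v u

open CategoryTheory CategoryTheory.Limits Opposite MonoidalCategory

namespace Pool.Agent.Lib.MP_ae0f86_nt

section Hilb

variable {K : Type} [Field K] {R : Type w} [CommRing R] [Algebra K R] {k : ℕ} (x : Fin k → R)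

/-- monomials -/
noncomputable def hilb_mon (a : Fin k →₀ ℕ) : R := a.prod fun i e => x i ^ e

theorem hilb_mon_zero : hilb_mon x 0 = 1 := Finsupp.prod_zero_index

theorem hilb_mon_add (a b : Fin k →₀ ℕ) :
    hilb_mon x (a + b) = hilb_mon x a * hilb_mon x b :=
  Finsupp.prod_add_index' (fun _ => pow_zero _) (fun _ _ _ => pow_add _ _ _)

theorem hilb_mon_single (i : Fin k) : hilb_mon x (Finsupp.single i 1) = x i := by
  exact (Finsupp.prod_single_index (h := fun i e => x i ^ e) (pow_zero _)).trans (pow_one _)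

/-- strict order of the exponents -/
def hilb_lt (a b : Fin k →₀ ℕ) : Prop :=
  (MonomialOrder.lex (σ := Fin k)).toSyn a < (MonomialOrder.lex (σ := Fin k)).toSyn b

theorem hilb_lt_add {a b : Fin k →₀ ℕ} (c : Fin k →₀ ℕ) (h : hilb_lt a b) :
    hilb_lt (c + a) (c + b) := by
  unfold hilb_lt at *
  rw [map_add, map_add]
  exact add_lt_add_right h _

theorem hilb_lt_trans {a b c : Fin k →₀ ℕ} (h : hilb_lt a b) (h' : hilb_lt b c) : hilb_lt a c :=
  lt_trans h h'

theorem hilb_wf : WellFounded (fun a b : Fin k →₀ ℕ => hilb_lt a b) :=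
  InvImage.wf (MonomialOrder.lex (σ := Fin k)).toSyn wellFounded_lt

/-- smaller exponents of the same degree -/
def hilb_L (a : Fin k →₀ ℕ) : Set (Fin k →₀ ℕ) := {b | b.degree = a.degree ∧ hilb_lt b a}

variable (K) in
/-- the standard monomials -/
def hilb_B : Set (Fin k →₀ ℕ) := {a | hilb_mon x a ∉ Submodule.span K (hilb_mon x '' hilb_L a)}

theorem hilb_span (a : Fin k →₀ ℕ) : hilb_mon x a ∈
    Submodule.span K (hilb_mon x '' {b | b ∈ hilb_B K x ∧ b.degree = a.degree}) := by
  induction a using hilb_wf.induction with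
  | _ a ih =>
    by_cases ha : a ∈ hilb_B K x
    · exact Submodule.subset_span ⟨a, ⟨ha, rfl⟩, rfl⟩
    · have h1 : hilb_mon x a ∈ Submodule.span K (hilb_mon x '' hilb_L a) := by
        by_contra h
        exact ha h
      refine Submodule.span_le.2 ?_ h1
      rintro _ ⟨b, ⟨hb1, hb2⟩, rfl⟩
      have := ih b hb2
      rw [hb1] at this
      exact this

theorem hilb_closed {a : Fin k →₀ ℕ} (c : Fin k →₀ ℕ) (h : c + a ∈ hilb_B K x) :
    a ∈ hilb_B K x := by
  by_contra ha
  have h1 : hilb_mon x a ∈ Submodule.span K (hilb_mon x '' hilb_L a) := by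
    by_contra h
    exact ha h
  apply h
  rw [hilb_mon_add]
  have h2 : hilb_mon x c * hilb_mon x a ∈
      (Submodule.span K (hilb_mon x '' hilb_L a)).map (LinearMap.mulLeft K (hilb_mon x c)) :=
    ⟨_, h1, rfl⟩
  rw [Submodule.map_span] at h2
  refine Submodule.span_mono ?_ h2
  rintro _ ⟨_, ⟨b, ⟨hb1, hb2⟩, rfl⟩, rfl⟩
  refine ⟨c + b, ⟨?_, hilb_lt_add c hb2⟩, ?_⟩
  · rw [map_add, map_add, hb1]
  · rw [hilb_mon_add]
    rfl

theorem hilb_indep (n : ℕ) (F : Finset (Fin k →₀ ℕ))
    (hF : ∀ a ∈ F, a ∈ hilb_B K x ∧ a.degree = n) :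
    LinearIndependent K (fun a : F => hilb_mon x a) := by
  classical
  rw [linearIndependent_iff']
  intro s g hs
  by_contra hcon
  push Not at hcon
  obtain ⟨i, his, hgi⟩ := hcon
  have hne : (s.filter fun j => g j ≠ 0).Nonempty := ⟨i, by simp [his, hgi]⟩
  obtain ⟨a, ha, hmax⟩ := Finset.exists_max_image (s.filter fun j => g j ≠ 0)
    (fun j : F => (MonomialOrder.lex (σ := Fin k)).toSyn (j : Fin k →₀ ℕ)) hne
  rw [Finset.mem_filter] at ha
  obtain ⟨has, hga⟩ := ha
  apply (hF a a.2).1
  rw [← Finset.add_sum_erase s _ has] at hs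
  have h1 : hilb_mon x a = (g a)⁻¹ • (-∑ j ∈ s.erase a, g j • hilb_mon x j) := by
    rw [eq_neg_of_add_eq_zero_right hs, neg_neg, smul_smul, inv_mul_cancel₀ hga, one_smul]
  rw [h1]
  refine Submodule.smul_mem _ _ (Submodule.neg_mem _ (Submodule.sum_mem _ fun j hj => ?_))
  rw [Finset.mem_erase] at hj
  by_cases hgj : g j = 0
  · rw [hgj, zero_smul]
    exact Submodule.zero_mem _
  · refine Submodule.smul_mem _ _ (Submodule.subset_span ⟨j, ⟨?_, ?_⟩, rfl⟩)
    · rw [(hF j j.2).2, (hF a a.2).2]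
    · have h2 := hmax j (by rw [Finset.mem_filter]; exact ⟨hj.2, hgj⟩)
      refine lt_of_le_of_ne h2 fun h3 => hj.1 ?_
      exact Subtype.ext ((MonomialOrder.lex (σ := Fin k)).toSyn.injective h3)

theorem hilb_pow (V : Submodule K R) (hV : V = Submodule.span K (Set.range x)) (n : ℕ) :
    V ^ n = Submodule.span K (hilb_mon x '' {a | a.degree = n}) := by
  induction n with
  | zero =>
    rw [pow_zero, Submodule.one_eq_span]
    congr 1
    ext y
    simp only [Set.mem_singleton_iff, Set.mem_image, Set.mem_ofPred_eq]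
    constructor
    · rintro rfl
      exact ⟨0, map_zero _, hilb_mon_zero x⟩
    · rintro ⟨a, ha, rfl⟩
      rw [Finsupp.degree_eq_zero_iff] at ha
      rw [ha, hilb_mon_zero]
  | succ n ih =>
    rw [pow_succ, ih]
    nth_rewrite 1 [hV]
    rw [Submodule.span_mul_span]
    congr 1
    ext y
    constructor
    · rintro ⟨_, ⟨a, ha, rfl⟩, _, ⟨i, rfl⟩, rfl⟩
      refine ⟨a + Finsupp.single i 1, ?_, ?_⟩
      · change (a + Finsupp.single i 1).degree = n + 1
        rw [map_add, Finsupp.degree_single]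
        exact congrArg (· + 1) ha
      · rw [hilb_mon_add, hilb_mon_single]
    · rintro ⟨a, ha, rfl⟩
      have ha' : a.degree = n + 1 := ha
      have hex : ∃ i, a i ≠ 0 := by
        by_contra h
        push Not at h
        have : a = 0 := Finsupp.ext h
        rw [this, map_zero] at ha'
        omega
      obtain ⟨i, hi⟩ := hex
      have hsplit : a - Finsupp.single i 1 + Finsupp.single i 1 = a := by
        apply tsub_add_cancel_of_le
        rw [Finsupp.single_le_iff]
        omega
      refine ⟨hilb_mon x (a - Finsupp.single i 1), ⟨a - Finsupp.single i 1, ?_, rfl⟩, x i,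
        ⟨i, rfl⟩, ?_⟩
      · change (a - Finsupp.single i 1).degree = n
        have h2 := congrArg Finsupp.degree hsplit
        rw [map_add, Finsupp.degree_single, ha'] at h2
        omega
      · change hilb_mon x (a - Finsupp.single i 1) * x i = hilb_mon x a
        rw [← hilb_mon_single x i, ← hilb_mon_add, hsplit]

open Classical in
variable (K) in
/-- standard monomials of degree `n` -/
noncomputable def hilb_F (n : ℕ) : Finset (Fin k →₀ ℕ) :=
  (Finset.finsuppAntidiag Finset.univ n).filter fun a => a ∈ hilb_B K x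

theorem hilb_mem_F (n : ℕ) (a : Fin k →₀ ℕ) :
    a ∈ hilb_F K x n ↔ a ∈ hilb_B K x ∧ a.degree = n := by
  classical
  unfold hilb_F
  rw [Finset.mem_filter, Finset.mem_finsuppAntidiag, Finsupp.degree_eq_sum]
  constructor
  · rintro ⟨⟨h1, -⟩, h2⟩
    exact ⟨h2, h1⟩
  · rintro ⟨h1, h2⟩
    exact ⟨⟨h2, Finset.subset_univ _⟩, h1⟩

theorem hilb_finrank (V : Submodule K R) (hV : V = Submodule.span K (Set.range x)) (n : ℕ) :
    Module.finrank K ↥(V ^ n) = (hilb_F K x n).card := by
  have h1 : V ^ n = Submodule.span K (Set.range fun a : hilb_F K x n => hilb_mon x a) := by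
    rw [hilb_pow x V hV n]
    apply le_antisymm
    · rw [Submodule.span_le]
      rintro _ ⟨a, ha, rfl⟩
      refine Submodule.span_mono ?_ (hilb_span (K := K) x a)
      rintro _ ⟨b, ⟨hb1, hb2⟩, rfl⟩
      exact ⟨⟨b, (hilb_mem_F x n b).2 ⟨hb1, hb2.trans ha⟩⟩, rfl⟩
    · apply Submodule.span_mono
      rintro _ ⟨b, rfl⟩
      exact ⟨b, ((hilb_mem_F x n b).1 b.2).2, rfl⟩
  rw [h1, finrank_span_eq_card (hilb_indep x n _ fun a ha => (hilb_mem_F x n a).1 ha),
    Fintype.card_coe]

theorem hilb_count (n : ℕ) :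
    (n + 1) * (hilb_F K x (n + 1)).card ≤ (n + k) * (hilb_F K x n).card := by
  classical
  have h1 : (n + 1) * (hilb_F K x (n + 1)).card = ∑ i : Fin k, ∑ a ∈ hilb_F K x (n + 1), a i := by
    rw [Finset.sum_comm, mul_comm, ← smul_eq_mul, ← Finset.sum_const]
    refine Finset.sum_congr rfl fun a ha => ?_
    rw [← Finsupp.degree_eq_sum, ((hilb_mem_F x (n + 1) a).1 ha).2]
  have h2 : (n + k) * (hilb_F K x n).card = ∑ i : Fin k, ∑ b ∈ hilb_F K x n, (b i + 1) := by
    rw [Finset.sum_comm, mul_comm, ← smul_eq_mul, ← Finset.sum_const]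
    refine Finset.sum_congr rfl fun b hb => ?_
    rw [Finset.sum_add_distrib, ← Finsupp.degree_eq_sum, ((hilb_mem_F x n b).1 hb).2]
    simp
  rw [h1, h2]
  refine Finset.sum_le_sum fun i _ => ?_
  have hsub : ∀ a : Fin k →₀ ℕ, a i ≠ 0 →
      Finsupp.single i 1 + (a - Finsupp.single i 1) = a := by
    intro a ha
    apply add_tsub_cancel_of_le
    rw [Finsupp.single_le_iff]
    omega
  rw [← Finset.sum_filter_add_sum_filter_not (hilb_F K x (n + 1)) (fun a => a i ≠ 0)]
  have h3 : ∑ a ∈ (hilb_F K x (n + 1)).filter (fun a => ¬ a i ≠ 0), a i = 0 := by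
    apply Finset.sum_eq_zero
    intro a ha
    rw [Finset.mem_filter] at ha
    exact not_not.1 ha.2
  rw [h3, add_zero]
  have h4 : ∑ a ∈ (hilb_F K x (n + 1)).filter (fun a => a i ≠ 0), a i =
      ∑ b ∈ ((hilb_F K x (n + 1)).filter (fun a => a i ≠ 0)).image
        (fun a => a - Finsupp.single i 1), (b i + 1) := by
    rw [Finset.sum_image]
    · refine Finset.sum_congr rfl fun a ha => ?_
      rw [Finset.mem_filter] at ha
      rw [Finsupp.tsub_apply, Finsupp.single_eq_same]
      omega
    · intro a ha b hb hab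
      have ha' := (Finset.mem_filter.1 (Finset.mem_coe.1 ha)).2
      have hb' := (Finset.mem_filter.1 (Finset.mem_coe.1 hb)).2
      have hab' : a - Finsupp.single i 1 = b - Finsupp.single i 1 := hab
      rw [← hsub a ha', ← hsub b hb', hab']
  rw [h4]
  refine Finset.sum_le_sum_of_subset_of_nonneg ?_ fun _ _ _ => Nat.zero_le _
  intro b hb
  rw [Finset.mem_image] at hb
  obtain ⟨a, ha, rfl⟩ := hb
  rw [Finset.mem_filter, hilb_mem_F] at ha
  obtain ⟨⟨ha1, ha2⟩, ha3⟩ := ha
  rw [hilb_mem_F]
  refine ⟨hilb_closed x (Finsupp.single i 1) (by rw [hsub a ha3]; exact ha1), ?_⟩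
  have h5 := congrArg Finsupp.degree (hsub a ha3)
  rw [map_add, Finsupp.degree_single, ha2] at h5
  omega

end Hilb

theorem d_hilb : S_hilb.{w} := by
  intro K _ R _ _ V _ _ m hm n
  -- generators
  obtain ⟨x, hx⟩ : ∃ x : Fin (m + 1) → R, V = Submodule.span K (Set.range x) := by
    let b := Module.finBasis K V
    refine ⟨fun i => if h : (i : ℕ) < Module.finrank K V then (b ⟨i, h⟩ : R) else 0, ?_⟩
    apply le_antisymm
    · intro y hy
      have h1 : (⟨y, hy⟩ : V) ∈ Submodule.span K (Set.range b) := by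
        rw [b.span_eq]
        trivial
      have h2 : y ∈ (Submodule.span K (Set.range b)).map V.subtype := ⟨_, h1, rfl⟩
      rw [Submodule.map_span] at h2
      refine Submodule.span_mono ?_ h2
      rintro _ ⟨_, ⟨i, rfl⟩, rfl⟩
      refine ⟨⟨i, by omega⟩, ?_⟩
      simp only [i.2, dite_true]
      rfl
    · rw [Submodule.span_le]
      rintro _ ⟨i, rfl⟩
      simp only
      split_ifs with h
      · exact (b ⟨i, h⟩).2
      · exact V.zero_mem
  rw [hilb_finrank x V hx, hilb_finrank x V hx]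
  have := hilb_count (K := K) x n
  rw [add_assoc n 1 m, add_comm 1 m]
  exact this

end Pool.Agent.Lib.MP_ae0f86_nt
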