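import Pool.Agent.Lib.MP_ae0f86_nt.StmD3

/-!
# MP_ae0f86_nt : [GF homfin]
-/

set_option autoImplicit false

universe w v u

open CategoryTheory CategoryTheory.Limits Opposite MonoidalCategory

namespace Pool.Agent.Lib.MP_ae0f86_nt

/-- every idempotent is a partial sum of the `e_i` -/
private theorem homfin_idem {R : Type w} [CommRing R] {r : ℕ} {e : Fin r → R} (he : Dec R r e)
    {f : R} (hf : f * f = f) : ∃ S : Finset (Fin r), f = ∑ j ∈ S, e j := by
  classical
  have h1 : ∀ i, e i * f = 0 ∨ e i * f = e i := by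
    intro i
    have h2 : e i * (f * (1 - f)) = 0 := by
      rw [mul_sub, mul_one, hf, sub_self, mul_zero]
    rcases he.dom i f (1 - f) h2 with h | h
    · exact Or.inl h
    · right
      rw [mul_sub, mul_one, sub_eq_zero] at h
      exact h.symm
  refine ⟨Finset.univ.filter fun i => e i * f ≠ 0, ?_⟩
  rw [Finset.sum_filter]
  calc f = ∑ i, e i * f := by rw [← Finset.sum_mul, he.sum, one_mul]
    _ = _ := by
      refine Finset.sum_congr rfl fun i _ => ?_
      by_cases h : e i * f = 0
      · rw [if_neg (not_not.2 h), h]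
      · rw [if_pos h]
        exact (h1 i).resolve_left h

theorem f_homfin : S_homfin.{w} := by
  intro K _ R _ _ r e he a ha
  obtain ⟨c, rfl⟩ := (Submodule.mem_span_range_iff_exists_fun K).1 ha
  refine (Set.finite_range fun S : Fin r → Finset (Fin r) => ∑ i, c i • ∑ j ∈ S i, e j).subset ?_
  rintro b ⟨τ, rfl⟩
  have h1 : ∀ i, ∃ S : Finset (Fin r), τ (e i) = ∑ j ∈ S, e j := fun i =>
    homfin_idem he (by rw [← map_mul, he.idem])
  choose S hS using h1
  refine ⟨S, ?_⟩
  show ∑ i, c i • ∑ j ∈ S i, e j = τ (∑ i, c i • e i)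
  rw [map_sum]
  refine Finset.sum_congr rfl fun i _ => ?_
  rw [map_smul, hS]

end Pool.Agent.Lib.MP_ae0f86_nt
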