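import Pool.Agent.Lib.MP_ae0f86_nt.StmD

set_option autoImplicit false

universe w v u

open CategoryTheory CategoryTheory.Limits Opposite MonoidalCategory

namespace Pool.Agent.Lib.MP_ae0f86_nt

theorem d_injdim (h1 : S_decdom.{w}) (h2 : S_fgdim.{w}) (h3 : S_surjdim.{w}) :
    S_injdim.{w} := by
  intro K _ R _ _ _ r e hD L _ _ ev i hi
  obtain ⟨hdom, hmem⟩ := h1 R r e hD i
  have := hdom
  have hker : ∀ a ∈ Ideal.span {1 - e i}, ev a = 0 := by
    intro a ha
    have h := (hmem a).1 ha
    have h' : ev (e i * a) = 0 := by rw [h, map_zero]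
    rw [map_mul, hi, one_mul] at h'
    exact h'
  let ev' : (R ⧸ Ideal.span {1 - e i}) →ₐ[K] L := Ideal.Quotient.liftₐ _ ev hker
  have hev' : ∀ a, ev' (Ideal.Quotient.mk _ a) = ev a := fun a => rfl
  have hrange : ev'.range = ev.range := by
    ext y
    constructor
    · rintro ⟨x, rfl⟩
      obtain ⟨a, rfl⟩ := Ideal.Quotient.mk_surjective x
      exact ⟨a, rfl⟩
    · rintro ⟨a, rfl⟩
      exact ⟨Ideal.Quotient.mk _ a, rfl⟩
  have hdim : ringKrullDim ev.range
      = ringKrullDim ((R ⧸ Ideal.span {1 - e i}) ⧸ RingHom.ker ev'.rangeRestrict) := by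
    rw [← hrange]
    exact (ringKrullDim_eq_of_ringEquiv
      (Ideal.quotientKerAlgEquivOfSurjective ev'.rangeRestrict_surjective).toRingEquiv).symm
  refine ⟨?_, ?_⟩
  · rw [hdim]
    exact ringKrullDim_quotient_le _
  · intro heq a ha
    have : Algebra.FiniteType K (R ⧸ Ideal.span {1 - e i}) := inferInstance
    have hbot : RingHom.ker ev'.rangeRestrict = ⊥ := by
      have hne : RingHom.ker ev'.rangeRestrict ≠ ⊤ := by
        intro htop
        have h1' : (1 : R ⧸ Ideal.span {1 - e i}) ∈ RingHom.ker ev'.rangeRestrict := by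
          rw [htop]
          trivial
        rw [RingHom.mem_ker, map_one] at h1'
        exact one_ne_zero h1'
      exact h3 _ _ (h2 K _).2 hne (hdim.symm.trans heq)
    have h0 : ev' (Ideal.Quotient.mk _ a) = 0 := by
      rw [hev']
      rw [map_mul, hi, one_mul] at ha
      exact ha
    have hmem' : Ideal.Quotient.mk (Ideal.span {1 - e i}) a
        ∈ RingHom.ker ev'.rangeRestrict := by
      rw [RingHom.mem_ker]
      exact Subtype.ext h0
    rw [hbot, Ideal.mem_bot, Ideal.Quotient.eq_zero_iff_mem] at hmem'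
    exact (hmem a).1 hmem'

end Pool.Agent.Lib.MP_ae0f86_nt
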