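import Pool.Agent.Lib.MP_ae0f86_nt.StmD2

set_option autoImplicit false

universe w v u

open CategoryTheory CategoryTheory.Limits Opposite MonoidalCategory

namespace Pool.Agent.Lib.MP_ae0f86_nt

theorem e_injdim2 (h1 : S_decdom.{w}) : S_injdim2.{w} := by
  intro K _ R _ _ r e hD L _ _ ev i hi hinj
  obtain ⟨-, hmem⟩ := h1 R r e hD i
  have hker : ∀ a ∈ Ideal.span {1 - e i}, ev a = 0 := by
    intro a ha
    have h := (hmem a).1 ha
    have h' : ev (e i * a) = 0 := by rw [h, map_zero]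
    rw [map_mul, hi, one_mul] at h'
    exact h'
  let ev' : (R ⧸ Ideal.span {1 - e i}) →ₐ[K] L := Ideal.Quotient.liftₐ _ ev hker
  have hev' : ∀ a, ev' (Ideal.Quotient.mk _ a) = ev a := fun a => rfl
  have hrange : ev'.range = ev.range := by
    ext y
    constructor
    · rintro ⟨x, rfl⟩
      obtain ⟨a, rfl⟩ := Ideal.Quotient.mk_surjective x
      exact ⟨a, rfl⟩
    · rintro ⟨a, rfl⟩
      exact ⟨Ideal.Quotient.mk _ a, rfl⟩
  have hinj' : Function.Injective ev' := by
    rw [injective_iff_map_eq_zero]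
    intro x hx
    obtain ⟨a, rfl⟩ := Ideal.Quotient.mk_surjective x
    rw [hev'] at hx
    rw [Ideal.Quotient.eq_zero_iff_mem, hmem]
    apply hinj
    rw [map_mul, hx, mul_zero]
  rw [← hrange]
  exact (ringKrullDim_eq_of_ringEquiv (AlgEquiv.ofInjective ev' hinj').toRingEquiv).symm

end Pool.Agent.Lib.MP_ae0f86_nt
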