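import Pool.Agent.Lib.MP_ae0f86_nt.StmD3

/-!
# MP_ae0f86_nt : [GF intspan]
-/

set_option autoImplicit false

universe w v u

open CategoryTheory CategoryTheory.Limits Opposite MonoidalCategory

namespace Pool.Agent.Lib.MP_ae0f86_nt

/-- a product which vanishes on one factor -/
private theorem intspan_prod {R : Type w} [CommRing R] {r : ℕ} {e : Fin r → R} (he : Dec R r e)
    (i : Fin r) {C : Type} (f : C → R) (s : Multiset C) :
    e i * (s.map f).prod = 0 → ∃ c ∈ s, e i * f c = 0 := by
  induction s using Multiset.induction with
  | empty =>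
    intro h
    rw [Multiset.map_zero, Multiset.prod_zero, mul_one] at h
    exact absurd h (he.ne i)
  | cons c s ih =>
    intro h
    rw [Multiset.map_cons, Multiset.prod_cons] at h
    rcases he.dom i _ _ h with h | h
    · exact ⟨c, Multiset.mem_cons_self c s, h⟩
    · obtain ⟨d, hd, h⟩ := ih h
      exact ⟨d, Multiset.mem_cons_of_mem hd, h⟩

theorem f_intspan : S_intspan.{w} := by
  intro K _ _ R _ _ r e he a
  constructor
  · rintro ⟨p, hp, hpa⟩
    have h1 := (IsAlgClosed.splits p).eq_prod_roots_of_monic hp
    have h2 : (p.roots.map fun c => a - algebraMap K R c).prod = 0 := by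
      rw [← Polynomial.aeval_def, h1, map_multiset_prod, Multiset.map_map] at hpa
      rw [← hpa]
      congr 1
      refine Multiset.map_congr rfl fun c _ => ?_
      simp
    have h3 : ∀ i, ∃ c : K, e i * a = c • e i := by
      intro i
      obtain ⟨c, _, hc⟩ := intspan_prod he i (fun c => a - algebraMap K R c) p.roots
        (by rw [h2, mul_zero])
      refine ⟨c, ?_⟩
      rw [mul_sub, sub_eq_zero] at hc
      rw [hc, Algebra.smul_def, mul_comm]
    choose c hc using h3
    have h4 : a = ∑ i, c i • e i := by
      rw [← Finset.sum_congr rfl fun i _ => hc i, ← Finset.sum_mul, he.sum, one_mul]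
    rw [h4]
    exact Submodule.sum_mem _ fun i _ => Submodule.smul_mem _ _
      (Submodule.subset_span ⟨i, rfl⟩)
  · intro ha
    induction ha using Submodule.span_induction with
    | mem x hx =>
      obtain ⟨i, rfl⟩ := hx
      refine ⟨Polynomial.X * (Polynomial.X - Polynomial.C 1), ?_, ?_⟩
      · exact Polynomial.monic_X.mul (Polynomial.monic_X_sub_C 1)
      · rw [Polynomial.eval₂_mul, Polynomial.eval₂_sub, Polynomial.eval₂_X, Polynomial.eval₂_C,
          map_one, mul_sub, mul_one, he.idem i, sub_self]
    | zero => exact isIntegral_zero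
    | add x y _ _ hx hy => exact hx.add hy
    | smul c x _ hx => exact hx.smul c

end Pool.Agent.Lib.MP_ae0f86_nt
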