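import Pool.Agent.Lib.MP_ae0f86_nt.StmD2

/-! [GE kuneqv] (helper58) -/

set_option autoImplicit false

open CategoryTheory CategoryTheory.Limits Opposite MonoidalCategory

universe w v u

namespace Pool.Agent.Lib.MP_ae0f86_nt

attribute [local instance] CategoryTheory.Abelian.hasFiniteBiproducts

private theorem kuneqv_zero_left {A : Type u} [Category.{v} A] [Abelian A] [MonoidalCategory A]
    [MonoidalPreadditive A] {M : A} (hM : IsZero M) (N : A) : IsZero (M ⊗ N) := by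
  rw [IsZero.iff_id_eq_zero] at hM ⊢
  rw [← id_whiskerRight, hM, MonoidalPreadditive.zero_whiskerRight]

private theorem kuneqv_zero_right {A : Type u} [Category.{v} A] [Abelian A] [MonoidalCategory A]
    [MonoidalPreadditive A] {M : A} (hM : IsZero M) (N : A) : IsZero (N ⊗ M) := by
  rw [IsZero.iff_id_eq_zero] at hM ⊢
  rw [← whiskerLeft_id, hM, MonoidalPreadditive.whiskerLeft_zero]

private theorem kuneqv_split {A : Type u} [Category.{v} A] [MonoidalCategory A]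
    {M M' N N' : A} (f : M ⟶ M') (f' : M' ⟶ M) (g : N ⟶ N') (g' : N' ⟶ N)
    (hf : f ≫ f' = 𝟙 M) (hg : g ≫ g' = 𝟙 N) : Mono (f ⊗ₘ g) := by
  have h : (f ⊗ₘ g) ≫ (f' ⊗ₘ g') = 𝟙 (M ⊗ N) := by
    rw [tensorHom_comp_tensorHom, hf, hg, id_tensorHom_id]
  have h2 : Mono ((f ⊗ₘ g) ≫ (f' ⊗ₘ g')) := by
    rw [h]
    infer_instance
  exact mono_of_mono _ (f' ⊗ₘ g')

theorem e_kuneqv {A : Type u} [Category.{v} A] [Abelian A] [MonoidalCategory A]
    [MonoidalPreadditive A] {k : Type} [Field k] (T : CohTheory k A)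
    (h1 : S_subsum A) (h2 : S_subq A) : S_kuneqv T := by
  intro hK ι ι' _ _ X X' hX hX' Y hY hYe
  obtain ⟨hsq, hsum, -, -, hself, hzero, hiff⟩ := h1
  obtain ⟨-, -, hiso, hmono, -, -⟩ := h2
  have hcard : Nat.card (ι ⊕ ι') = Nat.card ι + Nat.card ι' := Nat.card_sum
  constructor
  · rw [← hiff]
    have hs : ∀ (i : Fin (2 * Nat.card ι + 1)) (i' : Fin (2 * Nat.card ι' + 1)),
        SubSum (fun M => M = T.total (AffPair.abs hY))
          ((T.h ((i : ℕ) : ℤ)).obj (op (AffPair.abs hX)) ⊗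
            (T.h ((i' : ℕ) : ℤ)).obj (op (AffPair.abs hX'))) := by
      intro i i'
      obtain ⟨e⟩ := hK hX hX' hY hYe ((i : ℕ) + (i' : ℕ))
      have e1 : (((i : ℕ) + (i' : ℕ) : ℕ) : ℤ) - ((i : ℕ) : ℤ) = ((i' : ℕ) : ℤ) := by
        push_cast
        ring
      have hlt : (i : ℕ) < (i : ℕ) + (i' : ℕ) + 1 := by omega
      have hlt2 : (i : ℕ) + (i' : ℕ) < 2 * Nat.card (ι ⊕ ι') + 1 := by
        have := i.2
        have := i'.2
        omega
      let F : Fin ((i : ℕ) + (i' : ℕ) + 1) → A := fun j =>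
        (T.h ((j : ℕ) : ℤ)).obj (op (AffPair.abs hX)) ⊗
          (T.h ((((i : ℕ) + (i' : ℕ) : ℕ) : ℤ) - ((j : ℕ) : ℤ))).obj (op (AffPair.abs hX'))
      have hF : (T.h ((i : ℕ) : ℤ)).obj (op (AffPair.abs hX)) ⊗
            (T.h ((i' : ℕ) : ℤ)).obj (op (AffPair.abs hX')) = F ⟨i, hlt⟩ := by
        show _ = (T.h ((i : ℕ) : ℤ)).obj (op (AffPair.abs hX)) ⊗
          (T.h ((((i : ℕ) + (i' : ℕ) : ℕ) : ℤ) - ((i : ℕ) : ℤ))).obj (op (AffPair.abs hX'))
        rw [e1]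
      let G : Fin (2 * Nat.card (ι ⊕ ι') + 1) → A := fun m =>
        (T.h ((m : ℕ) : ℤ)).obj (op (AffPair.abs hY))
      let f1 : (T.h ((i : ℕ) : ℤ)).obj (op (AffPair.abs hX)) ⊗
            (T.h ((i' : ℕ) : ℤ)).obj (op (AffPair.abs hX')) ⟶ ⨁ F :=
        eqToHom hF ≫ biproduct.ι F ⟨i, hlt⟩
      have hf1 : Mono f1 := mono_comp _ _
      let e' : (⨁ F) ⟶ G ⟨(i : ℕ) + (i' : ℕ), hlt2⟩ := e.inv
      have he' : Mono e' := inferInstanceAs (Mono e.inv)
      let f2 : G ⟨(i : ℕ) + (i' : ℕ), hlt2⟩ ⟶ T.total (AffPair.abs hY) :=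
        biproduct.ι G ⟨(i : ℕ) + (i' : ℕ), hlt2⟩
      have hf2 : Mono f2 := inferInstanceAs (Mono (biproduct.ι G _))
      exact hsq _ _ _ (hself _ _ rfl) (hmono _ _ (f1 ≫ e' ≫ f2) inferInstance)
    have hs2 : ∀ i : Fin (2 * Nat.card ι + 1),
        SubSum (fun M => M = T.total (AffPair.abs hY))
          ((T.h ((i : ℕ) : ℤ)).obj (op (AffPair.abs hX)) ⊗ T.total (AffPair.abs hX')) := by
      intro i
      have h3 := hsum _ _ _ (hs i)
      exact hsq _ _ _ h3 (hiso _ _ (leftDistributor _ _))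
    have h4 := hsum _ _ _ hs2
    exact hsq _ _ _ h4 (hiso _ _ (rightDistributor _ _))
  · rw [← hiff]
    have hs : ∀ (i j : ℤ), 0 ≤ i →
        SubSum (fun M => M = T.total (AffPair.abs hX) ⊗ T.total (AffPair.abs hX'))
          ((T.h i).obj (op (AffPair.abs hX)) ⊗ (T.h j).obj (op (AffPair.abs hX'))) := by
      intro i j hi
      by_cases hi2 : 2 * (Nat.card ι : ℤ) < i
      · exact hzero _ _ (kuneqv_zero_left (T.bounded i (AffPair.abs hX) (Or.inr hi2)) _)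
      by_cases hj2 : j < 0 ∨ 2 * (Nat.card ι' : ℤ) < j
      · exact hzero _ _ (kuneqv_zero_right (T.bounded j (AffPair.abs hX') hj2) _)
      push Not at hi2 hj2
      obtain ⟨a, rfl⟩ := Int.eq_ofNat_of_zero_le hi
      obtain ⟨b, rfl⟩ := Int.eq_ofNat_of_zero_le hj2.1
      have ha : a < 2 * Nat.card ι + 1 := by omega
      have hb : b < 2 * Nat.card ι' + 1 := by omega
      let G : Fin (2 * Nat.card ι + 1) → A := fun m =>
        (T.h ((m : ℕ) : ℤ)).obj (op (AffPair.abs hX))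
      let G' : Fin (2 * Nat.card ι' + 1) → A := fun m =>
        (T.h ((m : ℕ) : ℤ)).obj (op (AffPair.abs hX'))
      have hm : Mono (biproduct.ι G ⟨a, ha⟩ ⊗ₘ biproduct.ι G' ⟨b, hb⟩) :=
        kuneqv_split _ (biproduct.π G ⟨a, ha⟩) _ (biproduct.π G' ⟨b, hb⟩)
          (biproduct.ι_π_self _ _) (biproduct.ι_π_self _ _)
      exact hsq _ _ _ (hself _ _ rfl) (hmono _ _ _ hm)
    refine hsum _ _ _ fun m => ?_
    obtain ⟨e⟩ := hK hX hX' hY hYe (m : ℕ)
    refine hsq _ _ _ (hsum _ _ _ fun j => hs _ _ (Int.natCast_nonneg _)) (hiso _ _ e)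

end Pool.Agent.Lib.MP_ae0f86_nt
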