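import Pool.Agent.Lib.MP_ae0f86_nt.StmD2

/-!
# MP_ae0f86_nt : piece `lineqv`
-/

set_option autoImplicit false

universe w v u

open CategoryTheory CategoryTheory.Limits Opposite MonoidalCategory

namespace Pool.Agent.Lib.MP_ae0f86_nt

noncomputable section

theorem e_lineqv {A : Type u} [Category.{v} A] [Abelian A] [MonoidalCategory A]
    [SymmetricCategory A] [RigidCategory A] {HdR : A ⥤ ModuleCat.{0} QBar}
    {HB : A ⥤ ModuleCat.{0} ℚ} [FibreFunctor HdR] [FibreFunctor HB] (c : Comparison HdR HB)
    (h1 : S_fwtop c) (h2 : S_fwlin HdR HB) (h3 : S_genclosed (A := A)) (h4 : S_fwfin HdR HB) :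
    S_lineqv c := by
  intro _ W W' hL
  have hle : fw HdR HB (S := fun _ : A => True) (W := W') trivial ≤
      fw HdR HB (S := fun _ : A => True) (W := W) trivial :=
    h2 h3.2.1.toClosed trivial trivial hL
  have hfin : Module.Finite QBar (fw HdR HB (S := fun _ : A => True) (W := W) trivial) :=
    h4 (S := fun _ : A => True) (W := W) trivial
  rw [(h1 W).1, (h1 W').1, (h1 W).2, (h1 W').2]
  exact ⟨Submodule.finrank_mono hle, Submodule.finrank_mono (Submodule.map_mono hle)⟩

end

end Pool.Agent.Lib.MP_ae0f86_nt
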