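import Pool.Agent.Lib.MP_ae0f86_nt.StmD3

/-!
# MP_ae0f86_nt : [GF minrep]
-/

set_option autoImplicit false

universe w v u

open CategoryTheory CategoryTheory.Limits Opposite MonoidalCategory

namespace Pool.Agent.Lib.MP_ae0f86_nt

noncomputable section

attribute [local instance] CategoryTheory.Abelian.hasFiniteBiproducts

section

variable {A : Type u} [Category.{v} A] [Abelian A] [MonoidalCategory A]
    [SymmetricCategory A] (HB : A ⥤ ModuleCat.{0} ℚ) [FibreFunctor HB]

private theorem minrep_inj {N N' : A} (i : N' ⟶ N) [Mono i] :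
    Function.Injective (HB.map i).hom := by
  have : Mono (HB.map i) := inferInstance
  exact (ModuleCat.mono_iff_injective _).mp this

private theorem minrep_surj {N N' : A} (p : N ⟶ N') [Epi p] :
    Function.Surjective (HB.map p).hom := by
  have : Epi (HB.map p) := inferInstance
  exact (ModuleCat.epi_iff_surjective _).mp this

private theorem minrep_exact {N N' : A} (i : N' ⟶ N) (x : HB.obj N)
    (hx : (HB.map (cokernel.π i)).hom x = 0) : ∃ y, (HB.map i).hom y = x := by
  have h := (ShortComplex.exact_cokernel i).map HB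
  exact (ShortComplex.moduleCat_exact_iff _).mp h x hx

private theorem minrep_iso {N N' : A} (i : N' ⟶ N) [Mono i]
    (h : Function.Surjective (HB.map i).hom) : IsIso i := by
  have h1 : Epi (HB.map i) := (ModuleCat.epi_iff_surjective _).mpr h
  have h2 : Epi i := HB.epi_of_epi_map h1
  exact isIso_of_mono_of_epi i

private theorem minrep_zero {N N' : A} (i : N' ⟶ N) [Mono i]
    (h : Function.Injective (HB.map (cokernel.π i)).hom) : IsZero N' := by
  have h1 : HB.map i = HB.map 0 := by
    rw [HB.map_zero]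
    ext x
    apply h
    have h2 : HB.map i ≫ HB.map (cokernel.π i) = 0 := by
      rw [← HB.map_comp, cokernel.condition, HB.map_zero]
    have h3 := congrArg (fun f => f.hom x) h2
    simpa using h3
  exact IsZero.of_mono_eq_zero i (HB.map_injective h1)

end

theorem f_minrep {A : Type u} [Category.{v} A] [Abelian A] [MonoidalCategory A]
    [SymmetricCategory A] (HB : A ⥤ ModuleCat.{0} ℚ) [FibreFunctor HB]
    (h1 : S_single HB HB) (h2 : S_fpring (A := A)) (h3 : S_algrel (A := A)) (h4 : S_arel HB HB) :
    S_minrep HB := by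
  classical
  intro S hS f
  obtain ⟨-, -, -, -, hfun, -, -⟩ := h4 S
  have hex : ∃ d : ℕ, ∃ (N : A) (hN : S N) (b : HB.obj N) (σ : Module.Dual ℚ (HB.obj N)),
      f = asym HB HB hN b σ ∧ Module.finrank ℚ (HB.obj N) = d := by
    obtain ⟨x, hx⟩ := (h2 HB HB S hS).2 f
    obtain ⟨N, hN, b, σ, rfl⟩ := h1 S hS.toClosed x
    exact ⟨_, N, hN, b, σ, hx.symm.trans ((h3 HB HB S).1 hN b σ), rfl⟩
  obtain ⟨N, hN, b, σ, hf, hd⟩ := Nat.find_spec hex
  have hmin : ∀ (N' : A) (hN' : S N') (b' : HB.obj N') (σ' : Module.Dual ℚ (HB.obj N')),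
      f = asym HB HB hN' b' σ' → Module.finrank ℚ (HB.obj N) ≤ Module.finrank ℚ (HB.obj N') := by
    intro N' hN' b' σ' hf'
    rw [hd]
    exact Nat.find_min' hex ⟨N', hN', b', σ', hf', rfl⟩
  refine ⟨N, hN, b, σ, hf, ?_, ?_⟩
  · rintro N' i hi ⟨b', hb'⟩
    have hN' : S N' := hS.sub i hN
    have hf' : f = asym HB HB hN' b' (σ ∘ₗ (HB.map i).hom) := by
      rw [hfun hN' hN i b' σ, hb']
      exact hf
    have hle := hmin N' hN' b' _ hf'
    have hinj := minrep_inj HB i
    have heq : Module.finrank ℚ (HB.obj N') = Module.finrank ℚ (HB.obj N) :=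
      le_antisymm (LinearMap.finrank_le_finrank_of_injective hinj) hle
    exact minrep_iso HB i ((LinearMap.injective_iff_surjective_of_finrank_eq_finrank heq).mp hinj)
  · intro N' i hi hσ
    have hN' : S (cokernel i) := hS.quot (cokernel.π i) hN
    have hsur := minrep_surj HB (cokernel.π i)
    obtain ⟨s, hs⟩ := LinearMap.exists_rightInverse_of_surjective (HB.map (cokernel.π i)).hom
      (LinearMap.range_eq_top.mpr hsur)
    have hσ' : σ = (σ ∘ₗ s) ∘ₗ (HB.map (cokernel.π i)).hom := by
      ext x
      have h5 : (HB.map (cokernel.π i)).hom (x - s ((HB.map (cokernel.π i)).hom x)) = 0 := by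
        rw [map_sub]
        have := LinearMap.congr_fun hs ((HB.map (cokernel.π i)).hom x)
        simp only [LinearMap.comp_apply, LinearMap.id_apply] at this
        rw [this, sub_self]
      obtain ⟨y, hy⟩ := minrep_exact HB i _ h5
      have h6 : σ (x - s ((HB.map (cokernel.π i)).hom x)) = 0 := by
        rw [← hy]
        exact LinearMap.congr_fun hσ y
      rw [map_sub, sub_eq_zero] at h6
      exact h6
    have hf' : f = asym HB HB hN' ((HB.map (cokernel.π i)).hom b) (σ ∘ₗ s) := by
      rw [← hfun hN hN' (cokernel.π i) b (σ ∘ₗ s), ← hσ']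
      exact hf
    have hle := hmin _ hN' _ _ hf'
    have heq : Module.finrank ℚ (HB.obj N) = Module.finrank ℚ (HB.obj (cokernel i)) :=
      le_antisymm hle (LinearMap.finrank_le_finrank_of_surjective hsur)
    exact minrep_zero HB i ((LinearMap.injective_iff_surjective_of_finrank_eq_finrank heq).mpr hsur)

end

end Pool.Agent.Lib.MP_ae0f86_nt
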