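import Pool.Agent.Lib.MP_ae0f86_nt.StmD

set_option autoImplicit false

universe w v u

open CategoryTheory CategoryTheory.Limits Opposite MonoidalCategory

namespace Pool.Agent.Lib.MP_ae0f86_nt

theorem d_pdec {A : Type u} [Category.{v} A] [Abelian A] [MonoidalCategory A]
    [SymmetricCategory A] [RigidCategory A] {HdR : A ⥤ ModuleCat.{0} QBar}
    {HB : A ⥤ ModuleCat.{0} ℚ} [FibreFunctor HdR] [FibreFunctor HB]
    (h1 : S_decomp.{u}) (h2 : S_cartier.{u}) (h3 : S_phi HdR HB) (h4 : S_nullst.{u})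
    (h5 : S_fintype HdR HB) (h6 : S_genclosed (A := A)) : S_pdec HdR HB := by
  intro M
  have : IsAlgClosed QBar := (algebraicClosure.isAlgClosure ℚ ℂ).isAlgClosed
  have := h5 M
  have : IsNoetherianRing (PerAlg HdR HB (Gen M)) :=
    Algebra.FiniteType.isNoetherianRing QBar _
  have hD : DClosed (Gen M) := ⟨h6.1 M, fun h => Gen.dual h⟩
  refine h1 _ ?_
  intro m hm a b hab
  obtain ⟨x, hx⟩ := h4 QBar (PerAlg HdR HB (Gen M)) m
  have key := h2 QBar (PerAlg HdR HB (Gen M)) x (fun D hD' => h3 (Gen M) hD x D hD') a b hab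
  have hs : ∀ s, x s ≠ 0 → s ∉ m := by
    intro s hs hsm
    rw [← hx] at hsm
    exact hs hsm
  rcases key with ⟨s, h, h'⟩ | ⟨s, h, h'⟩
  · exact Or.inl ⟨s, hs s h, h'⟩
  · exact Or.inr ⟨s, hs s h, h'⟩

end Pool.Agent.Lib.MP_ae0f86_nt
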