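import Pool.Agent.Lib.MP_ae0f86_nt.StmD

set_option autoImplicit false

universe w v u

open CategoryTheory CategoryTheory.Limits Opposite MonoidalCategory

namespace Pool.Agent.Lib.MP_ae0f86_nt

theorem d_perm {A : Type u} [Category.{v} A] [Abelian A] [MonoidalCategory A]
    [SymmetricCategory A] [RigidCategory A] {HdR : A ⥤ ModuleCat.{0} QBar}
    {HB : A ⥤ ModuleCat.{0} ℚ} [FibreFunctor HdR] [FibreFunctor HB]
    (h1 : S_trans HdR HB) (h2 : S_nullst.{u}) (h3 : S_fintype HdR HB)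
    (h4 : S_genclosed (A := A)) (h5 : S_decdom.{u}) : S_perm HdR HB := by
  intro M r e hdec i j
  have : IsAlgClosed QBar := (algebraicClosure.isAlgClosure ℚ ℂ).isAlgClosed
  have := h3 M
  have hD : DClosed (Gen M) := ⟨h4.1 M, fun h => Gen.dual h⟩
  have hpt : ∀ i, ∃ x : PerAlg HdR HB (Gen M) →ₐ[QBar] QBar, x (e i) = 1 := by
    intro i
    obtain ⟨hdom, -⟩ := h5 (PerAlg HdR HB (Gen M)) r e hdec i
    have hne : Ideal.span {1 - e i} ≠ ⊤ := by
      have := hdom.toNontrivial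
      exact Ideal.Quotient.nontrivial_iff.mp inferInstance
    obtain ⟨m, hm, hle⟩ := Ideal.exists_le_maximal _ hne
    obtain ⟨x, hx⟩ := h2 QBar (PerAlg HdR HB (Gen M)) m
    have h6 : (1 - e i) ∈ RingHom.ker x := by
      rw [hx]
      exact hle (Ideal.subset_span rfl)
    have h7 : x (1 - e i) = 0 := h6
    rw [map_sub, map_one, sub_eq_zero] at h7
    exact ⟨x, h7.symm⟩
  obtain ⟨xi, hxi⟩ := hpt i
  obtain ⟨xj, hxj⟩ := hpt j
  obtain ⟨τ, θ, hτ1, hτ2, hτ3⟩ := h1 (Gen M) hD xj xi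
  refine ⟨τ, ?_, fun hW => hτ3 hW⟩
  have hf : τ (e i) * τ (e i) = τ (e i) := by
    rw [← map_mul, hdec.idem]
  have hxf : xj (τ (e i)) = 1 := by rw [hτ2, hxi]
  have e1 : e j * τ (e i) = e j := by
    have h6 : e j * (τ (e i) * (1 - τ (e i))) = 0 := by
      rw [mul_sub, mul_one, hf, sub_self, mul_zero]
    rcases hdec.dom j _ _ h6 with h7 | h7
    · exfalso
      have h8 : xj (e j * τ (e i)) = 1 := by rw [map_mul, hxj, hxf, mul_one]
      rw [h7, map_zero] at h8
      exact zero_ne_one h8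
    · rw [mul_sub, mul_one, sub_eq_zero] at h7
      exact h7.symm
  have e2 : τ.symm (e j) * e i = τ.symm (e j) := by
    have h6 := congrArg τ.symm e1
    rw [map_mul, AlgEquiv.symm_apply_apply] at h6
    exact h6
  have hh : τ.symm (e j) * τ.symm (e j) = τ.symm (e j) := by
    rw [← map_mul, hdec.idem]
  have h9 : e i * (τ.symm (e j) * (1 - τ.symm (e j))) = 0 := by
    rw [mul_sub, mul_one, hh, sub_self, mul_zero]
  rcases hdec.dom i _ _ h9 with h10 | h10
  · exfalso
    rw [mul_comm, e2] at h10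
    have h11 := congrArg τ h10
    rw [AlgEquiv.apply_symm_apply, map_zero] at h11
    exact hdec.ne j h11
  · rw [mul_sub, mul_one, sub_eq_zero, mul_comm, e2] at h10
    rw [h10, AlgEquiv.apply_symm_apply]

end Pool.Agent.Lib.MP_ae0f86_nt
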