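import Pool.Agent.Lib.MP_ae0f86_nt.StmD2

/-!
# MP_ae0f86_nt : piece `poseqv`
-/

set_option autoImplicit false

universe w v u

open CategoryTheory CategoryTheory.Limits Opposite MonoidalCategory

namespace Pool.Agent.Lib.MP_ae0f86_nt

noncomputable section

attribute [local instance] CategoryTheory.Abelian.hasFiniteBiproducts

private theorem poseqv_zero_tensor {A : Type u} [Category.{v} A] [Abelian A]
    [MonoidalCategory A] [MonoidalPreadditive A] {X : A} (hX : IsZero X) (Y : A) :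
    IsZero (X ⊗ Y) := by
  rw [IsZero.iff_id_eq_zero] at hX ⊢
  rw [← id_whiskerRight, hX, MonoidalPreadditive.zero_whiskerRight]

private theorem poseqv_bi {A : Type u} [Category.{v} A] [Abelian A] {n : ℕ} (f : Fin n → A)
    (a : Fin n) (X : A) (h : X = f a) : ∃ (m : X ⟶ ⨁ f) (r : ⨁ f ⟶ X), m ≫ r = 𝟙 X := by
  subst h
  exact ⟨biproduct.ι f a, biproduct.π f a, biproduct.ι_π_self f a⟩

section

variable {A : Type u} [Category.{v} A] [Abelian A] [MonoidalCategory A]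
  [SymmetricCategory A] [MonoidalPreadditive A] {k : Type} [Field k] (T : CohTheory k A)

omit [SymmetricCategory A] [MonoidalPreadditive A] in
/-- the positive degree cohomology is made of summands of `T.pos P` -/
private theorem poseqv_pos (h2 : S_subsum A) (h3 : S_subq A) (P : AffPair k) (j : ℤ)
    (hj : 1 ≤ j) : SubSum (fun M => M = T.pos P) ((T.h j).obj (op P)) := by
  obtain ⟨s1, -, -, -, s5, s6, -⟩ := h2
  obtain ⟨-, -, -, q4, -, -⟩ := h3
  by_cases hjc : j ≤ 2 * (Nat.card P.ι : ℤ)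
  · have hidx : (j - 1).toNat < 2 * Nat.card P.ι := by omega
    have hjt : (((j - 1).toNat : ℕ) : ℤ) + 1 = j := by
      rw [Int.toNat_of_nonneg (by omega)]
      ring
    obtain ⟨m, r, hmr⟩ : ∃ (m : (T.h j).obj (op P) ⟶ T.pos P)
        (r : T.pos P ⟶ (T.h j).obj (op P)), m ≫ r = 𝟙 _ :=
      poseqv_bi (fun i : Fin (2 * Nat.card P.ι) => (T.h (((i : ℕ) : ℤ) + 1)).obj (op P))
        ⟨(j - 1).toNat, hidx⟩ _ (by simp only [hjt])
    exact s1 _ (T.pos P) _ (s5 _ _ rfl) (q4 _ _ m (mono_of_mono_fac hmr))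
  · exact s6 _ _ (T.bounded j _ (Or.inr (by omega)))

omit [SymmetricCategory A] in
/-- `h^i(P) ⊗ L^c` is a subquotient of `T.total P ⊗ L^c` -/
private theorem poseqv_tot (h2 : S_subsum A) (h3 : S_subq A) (P : AffPair k) (c : ℕ) (i : ℤ) :
    SubSum (fun M => M = T.total P ⊗ tpow T.L c) ((T.h i).obj (op P) ⊗ tpow T.L c) := by
  obtain ⟨s1, -, -, -, s5, s6, -⟩ := h2
  obtain ⟨-, -, -, q4, -, -⟩ := h3
  rcases lt_or_ge i 0 with hi | hi
  · exact s6 _ _ (poseqv_zero_tensor (T.bounded i _ (Or.inl hi)) _)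
  · by_cases hic : i ≤ 2 * (Nat.card P.ι : ℤ)
    · have hidx : i.toNat < 2 * Nat.card P.ι + 1 := by omega
      have hit : ((i.toNat : ℕ) : ℤ) = i := Int.toNat_of_nonneg hi
      obtain ⟨m, r, hmr⟩ : ∃ (m : (T.h i).obj (op P) ⟶ T.total P)
          (r : T.total P ⟶ (T.h i).obj (op P)), m ≫ r = 𝟙 _ :=
        poseqv_bi (fun i : Fin (2 * Nat.card P.ι + 1) => (T.h ((i : ℕ) : ℤ)).obj (op P))
          ⟨i.toNat, hidx⟩ _ (by simp only [hit])
      have hm : Mono (m ▷ tpow T.L c) := by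
        have h5 : (m ▷ tpow T.L c) ≫ (r ▷ tpow T.L c) = 𝟙 _ := by
          rw [← comp_whiskerRight, hmr, id_whiskerRight]
        exact mono_of_mono_fac h5
      exact s1 _ _ _ (s5 _ _ rfl) (q4 _ _ (m ▷ tpow T.L c) hm)
    · exact s6 _ _ (poseqv_zero_tensor (T.bounded i _ (Or.inr (by omega))) _)

end

theorem e_poseqv {A : Type u} [Category.{v} A] [Abelian A] [MonoidalCategory A]
    [SymmetricCategory A] [MonoidalPreadditive A] {k : Type} [Field k] (T : CohTheory k A)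
    (h1 : S_cubic2 T) (h2 : S_subsum A) (h3 : S_subq A) (h4 : S_subtens T) : S_poseqv T := by
  intro ι κ _ _ g c hc hs
  have h2' := h2
  have h3' := h3
  obtain ⟨s1, s2, -, -, s5, s6, s7⟩ := h2'
  obtain ⟨-, -, q3, -, -, -⟩ := h3'
  constructor
  · rw [← s7]
    refine h4 (fun M => ∃ i : ℤ, M = (T.h i).obj (op (AffPair.abs (zl_alg g)))) _ c _ ?_ ?_
    · rintro M ⟨i, rfl⟩
      rcases lt_or_ge i 0 with hi | hi
      · exact s6 _ _ (poseqv_zero_tensor (T.bounded i _ (Or.inl hi)) _)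
      · have h5 : 1 ≤ i + 2 * (c : ℤ) - 1 := by
          have : (1 : ℤ) ≤ c := by exact_mod_cast hc
          omega
        obtain ⟨φ⟩ := h1 g c hc hs i h5
        exact s1 _ _ _ (poseqv_pos T h2 h3 _ _ h5) (q3 _ _ φ.symm)
    · exact s2 _ _ _ (fun a => s5 _ _ ⟨_, rfl⟩)
  · rw [← s7]
    refine s2 _ _ _ (fun a => ?_)
    have h5 : 1 ≤ ((((a : ℕ) : ℤ) + 1) + 1 - 2 * (c : ℤ)) + 2 * (c : ℤ) - 1 := by omega
    obtain ⟨φ⟩ := h1 g c hc hs ((((a : ℕ) : ℤ) + 1) + 1 - 2 * (c : ℤ)) h5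
    have h6 := s1 _ _ _ (poseqv_tot T h2 h3 (AffPair.abs (zl_alg g)) c _) (q3 _ _ φ)
    have h7 : ((((a : ℕ) : ℤ) + 1) + 1 - 2 * (c : ℤ)) + 2 * (c : ℤ) - 1 = ((a : ℕ) : ℤ) + 1 := by
      ring
    rw [h7] at h6
    exact h6

end

end Pool.Agent.Lib.MP_ae0f86_nt
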