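import Pool.Agent.Lib.MP_ae0f86_nt.StmD2

/-!
# MP_ae0f86_nt : piece powq
-/

set_option autoImplicit false

universe w v u

open CategoryTheory CategoryTheory.Limits Opposite MonoidalCategory

namespace Pool.Agent.Lib.MP_ae0f86_nt

theorem e_powq {A : Type u} [Category.{v} A] [Abelian A] [MonoidalCategory A]
    [SymmetricCategory A] [MonoidalPreadditive A] [RigidCategory A] (T : CohTheory QBar A)
    (HdR : A ⥤ ModuleCat.{0} QBar) (HB : A ⥤ ModuleCat.{0} ℚ) [FibreFunctor HdR]
    [FibreFunctor HB] (h1 : S_qprod T) (h2 : S_fwlin HdR HB) (h3 : S_fwprod HdR HB)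
    (h4 : S_genclosed (A := A)) : S_powq T HdR HB := by
  intro hK n r c q hc hq hs hne k hk
  have hcl : Closed (fun _ : A => True) := h4.2.1.toClosed
  induction k, hk using Nat.le_induction with
  | base =>
    refine ⟨n, r, c, q, hc, hq, hs, hne, ?_⟩
    have e1 := h3.1 (S := fun _ : A => True) (M := 𝟙_ A) (N := T.tq q) trivial trivial trivial
    have e2 := h3.2 (S := fun _ : A => True) trivial
    rw [e2, Submodule.one_mul] at e1
    exact e1.symm
  | succ k hk ih =>
    obtain ⟨n', r', c', q', hc', hq', hs', hne', hfw⟩ := ih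
    obtain ⟨n'', r'', q'', hq'', hs'', hne'', hl1, hl2⟩ := h1 hK c' c q' q hq' hq hs' hs hne' hne
    refine ⟨n'', r'', c' + c, q'', by omega, hq'', hs'', hne'', ?_⟩
    have e1 : fw HdR HB (S := fun _ : A => True) (W := T.tq q'') trivial =
        fw HdR HB (S := fun _ : A => True) (W := T.tq q' ⊗ T.tq q) trivial :=
      le_antisymm (h2 hcl trivial trivial hl2) (h2 hcl trivial trivial hl1)
    have e2 := h3.1 (S := fun _ : A => True) (M := T.tq q') (N := T.tq q) trivial trivial trivial
    have e3 := h3.1 (S := fun _ : A => True) (M := tpow (T.tq q) k) (N := T.tq q)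
      trivial trivial trivial
    rw [hfw, ← e3] at e2
    exact e1.trans e2

end Pool.Agent.Lib.MP_ae0f86_nt
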