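import Pool.Agent.Lib.MP_ae0f86_nt.StmD2
import Pool.Agent.Lib.MP_ae0f86_nt.P.Quadrics

/-!
# MP_ae0f86_nt : piece qprod
-/

set_option autoImplicit false

universe w v u

open CategoryTheory CategoryTheory.Limits Opposite MonoidalCategory

namespace Pool.Agent.Lib.MP_ae0f86_nt

noncomputable section

attribute [local instance] CategoryTheory.Abelian.hasFiniteBiproducts

/-- The renaming of the coordinates is an isomorphism. -/
private theorem qprod_iso {k : Type} [Field k] {ι ι' : Type} [Finite ι] [Finite ι'] (ε : ι ≃ ι')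
    {X : Set (ι → k)} {X' : Set (ι' → k)} (hX : IsAlg X) (hX' : IsAlg X')
    (h : X' = {z | z ∘ ε ∈ X}) : Nonempty (AffPair.abs hX' ≅ AffPair.abs hX) := by
  subst h
  let f : AffPair.abs hX' ⟶ AffPair.abs hX :=
    ⟨fun z => ⟨z.1 ∘ ε, z.2⟩, ⟨fun j => MvPolynomial.X (ε j), by intro x j; simp⟩,
      fun x hx => hx.elim⟩
  let g : AffPair.abs hX ⟶ AffPair.abs hX' :=
    ⟨fun z => ⟨z.1 ∘ ε.symm, by
        show (z.1 ∘ ε.symm) ∘ ε ∈ X
        have : (z.1 ∘ ε.symm) ∘ ε = z.1 := by
          funext i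
          simp
        rw [this]
        exact z.2⟩, ⟨fun j => MvPolynomial.X (ε.symm j), by intro x j; simp⟩,
      fun x hx => hx.elim⟩
  have : IsIso f := by
    refine isIso_of_inv f g (fun x => ?_) (fun y => ?_)
    · funext i
      show (x.1 : ι' → k) (ε (ε.symm i)) = x.1 i
      rw [Equiv.apply_symm_apply]
    · funext i
      show (y.1 : ι → k) (ε.symm (ε i)) = y.1 i
      rw [Equiv.symm_apply_apply]
  exact ⟨asIso f⟩

private theorem qprod_total {k : Type} [Field k] {A : Type u} [Category.{v} A] [Abelian A]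
    [MonoidalCategory A] (T : CohTheory k A) {P Q : AffPair k} (e : P ≅ Q)
    (hc : Nat.card P.ι = Nat.card Q.ι) : Nonempty (T.total P ≅ T.total Q) := by
  unfold CohTheory.total
  have hn : 2 * Nat.card P.ι + 1 = 2 * Nat.card Q.ι + 1 := by rw [hc]
  refine ⟨biproduct.whiskerEquiv (finCongr hn) fun j => ?_⟩
  exact (T.h (j : ℤ)).mapIso e.op

private theorem qprod_lin {A : Type u} [Category.{v} A] [Abelian A] (h4 : S_lincl A) {W W' : A}
    (e : W ≅ W') : Lin W W' ∧ Lin W' W := by
  constructor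
  · exact (h4.1 W).quot e.hom (h4.2.1 W)
  · exact (h4.1 W').quot e.inv (h4.2.1 W')

theorem e_qprod {A : Type u} [Category.{v} A] [Abelian A] [MonoidalCategory A]
    [MonoidalPreadditive A] (T : CohTheory QBar A)
    (h1 : S_smprod QBar) (h2 : S_smreindex QBar) (h3 : S_kuneqv T) (h4 : S_lincl A)
    (_h5 : S_subq A) (_h6 : S_subsum A) : S_qprod T := by
  intro hK n r n' r' c c' q q' hq hq' hs hs' hne hne'
  have htr := h4.2.2.2.2
  let ε : Fin n ⊕ Fin n' ≃ Fin (n + n') := finSumFinEquiv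
  let ε' : Fin r ⊕ Fin r' ≃ Fin (r + r') := finSumFinEquiv
  let Q : Fin r ⊕ Fin r' → MvPolynomial (Fin (n + n')) ℤ :=
    Sum.elim (fun a => MvPolynomial.rename (ε ∘ Sum.inl) (q a))
      (fun b => MvPolynomial.rename (ε ∘ Sum.inr) (q' b))
  let q'' : Fin (r + r') → MvPolynomial (Fin (n + n')) ℤ := fun j => Q (ε'.symm j)
  let Y : Set (Fin n ⊕ Fin n' → QBar) := {z | z ∘ Sum.inl ∈ zq q ∧ z ∘ Sum.inr ∈ zq q'}
  have hmem : ∀ z : Fin (n + n') → QBar, z ∈ zq q'' ↔ z ∘ ε ∈ Y := by
    intro z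
    have e1 : z ∈ zq q'' ↔ ∀ j, MvPolynomial.eval z
        (MvPolynomial.map (Int.castRingHom QBar) (Q j)) = 0 := by
      constructor
      · intro h j
        have := h (ε' j)
        simpa only [q'', Equiv.symm_apply_apply] using this
      · intro h j
        exact h (ε'.symm j)
    rw [e1]
    constructor
    · intro h
      refine ⟨fun a => ?_, fun b => ?_⟩
      · have := h (Sum.inl a)
        simp only [Q, Sum.elim_inl, MvPolynomial.map_rename, MvPolynomial.eval_rename] at this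
        exact this
      · have := h (Sum.inr b)
        simp only [Q, Sum.elim_inr, MvPolynomial.map_rename, MvPolynomial.eval_rename] at this
        exact this
    · rintro ⟨ha, hb⟩ (a | b)
      · simp only [Q, Sum.elim_inl, MvPolynomial.map_rename, MvPolynomial.eval_rename]
        exact ha a
      · simp only [Q, Sum.elim_inr, MvPolynomial.map_rename, MvPolynomial.eval_rename]
        exact hb b
  have hset : zq q'' = {z | z ∘ ε ∈ Y} := by
    ext z
    exact hmem z
  have hYs : IsSmooth (c + c') Y := h1 _ _ hs hs'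
  have hYa : IsAlg Y := hYs.1
  have hs'' : IsSmooth (c + c') (zq q'') := by
    rw [hset]
    exact h2 ε _ hYs
  obtain ⟨x, hx⟩ := hne
  obtain ⟨x', hx'⟩ := hne'
  have hne'' : (zq q'').Nonempty := by
    refine ⟨Sum.elim x x' ∘ ε.symm, ?_⟩
    rw [hmem]
    have e2 : (Sum.elim x x' ∘ ε.symm) ∘ ε = Sum.elim x x' := by
      funext i
      simp
    rw [e2]
    exact ⟨hx, hx'⟩
  have hsq : ∀ j, SignQuadric (q'' j) := by
    intro j
    have : ∀ s, SignQuadric (Q s) := by
      rintro (a | b)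
      · exact p_quadrics_rename _ (ε.injective.comp Sum.inl_injective) (hq a)
      · exact p_quadrics_rename _ (ε.injective.comp Sum.inr_injective) (hq' b)
    exact this _
  obtain ⟨e⟩ := qprod_iso ε hYa (zq_alg q'') hset
  obtain ⟨E⟩ := qprod_total T e (by
    show Nat.card (Fin (n + n')) = Nat.card (Fin n ⊕ Fin n')
    exact (Nat.card_congr ε).symm)
  obtain ⟨l1, l2⟩ := qprod_lin h4 E
  obtain ⟨k1, k2⟩ := h3 hK (zq_alg q) (zq_alg q') hYa rfl
  exact ⟨n + n', r + r', q'', hsq, hs'', hne'', htr _ _ _ l1 k1, htr _ _ _ k2 l2⟩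

end

end Pool.Agent.Lib.MP_ae0f86_nt
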