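import Pool.Agent.Lib.MP_ae0f86_nt.StmD

set_option autoImplicit false

universe w v u

open CategoryTheory CategoryTheory.Limits Opposite MonoidalCategory

namespace Pool.Agent.Lib.MP_ae0f86_nt

theorem ratio_pow (x M : ℝ) (hx : 0 ≤ x) (hM : x ≤ M) (k : ℕ) :
    (1 + x) ^ k ≤ 1 + x * (k * (1 + M) ^ k) := by
  induction k with
  | zero => simp
  | succ k ih =>
    have h1 : (1 + x) ^ k ≤ (1 + M) ^ k := pow_le_pow_left₀ (by linarith) (by linarith) k
    have h2 : (1 + M) ^ k ≤ (1 + M) ^ (k + 1) := pow_le_pow_right₀ (by linarith) (Nat.le_succ k)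
    have h3 : (k : ℝ) * (1 + M) ^ k ≤ k * (1 + M) ^ (k + 1) :=
      mul_le_mul_of_nonneg_left h2 (Nat.cast_nonneg k)
    have h4 : x * ((k : ℝ) * (1 + M) ^ k) ≤ x * (k * (1 + M) ^ (k + 1)) :=
      mul_le_mul_of_nonneg_left h3 hx
    have h5 : x * (1 + x) ^ k ≤ x * (1 + M) ^ (k + 1) :=
      mul_le_mul_of_nonneg_left (h1.trans h2) hx
    push_cast
    calc (1 + x) ^ (k + 1) = (1 + x) ^ k + x * (1 + x) ^ k := by ring
      _ ≤ 1 + x * (k * (1 + M) ^ (k + 1)) + x * (1 + M) ^ (k + 1) := by linarith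
      _ = 1 + x * ((k + 1) * (1 + M) ^ (k + 1)) := by ring

theorem ratio_step (D : ℕ → ℕ) (m : ℕ)
    (hg : ∀ n, (n + 1) * D (n + 1) ≤ (n + 1 + m) * D n) (l j : ℕ) :
    (D (l + j) : ℝ) ≤ D l * (1 + (m : ℝ) / ((l : ℝ) + 1)) ^ j := by
  induction j with
  | zero => simp
  | succ j ih =>
    have h1 : (((l + j : ℕ) : ℝ) + 1) * (D (l + j + 1) : ℝ) ≤
        (((l + j : ℕ) : ℝ) + 1 + m) * D (l + j) := by exact_mod_cast hg (l + j)
    have hl : (0 : ℝ) < (l : ℝ) + 1 := by positivity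
    have hlj : (0 : ℝ) < ((l + j : ℕ) : ℝ) + 1 := by positivity
    have h2 : (D (l + j + 1) : ℝ) ≤ (1 + (m : ℝ) / (((l + j : ℕ) : ℝ) + 1)) * D (l + j) := by
      have e : (1 + (m : ℝ) / (((l + j : ℕ) : ℝ) + 1)) * D (l + j) =
          ((((l + j : ℕ) : ℝ) + 1 + m) * D (l + j)) / (((l + j : ℕ) : ℝ) + 1) := by
        field_simp
      rw [e, le_div_iff₀ hlj]
      linarith
    have h3 : (m : ℝ) / (((l + j : ℕ) : ℝ) + 1) ≤ (m : ℝ) / ((l : ℝ) + 1) := by
      apply div_le_div_of_nonneg_left (Nat.cast_nonneg m) hl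
      push_cast
      have : (0 : ℝ) ≤ j := Nat.cast_nonneg j
      linarith
    have h4 : (0 : ℝ) ≤ D (l + j) := Nat.cast_nonneg _
    have h5 : (0 : ℝ) ≤ (m : ℝ) / ((l : ℝ) + 1) := by positivity
    have e : l + (j + 1) = l + j + 1 := by ring
    rw [e]
    calc (D (l + j + 1) : ℝ) ≤ (1 + (m : ℝ) / (((l + j : ℕ) : ℝ) + 1)) * D (l + j) := h2
      _ ≤ (1 + (m : ℝ) / ((l : ℝ) + 1)) * D (l + j) :=
        mul_le_mul_of_nonneg_right (by linarith) h4
      _ ≤ (1 + (m : ℝ) / ((l : ℝ) + 1)) * (D l * (1 + (m : ℝ) / ((l : ℝ) + 1)) ^ j) :=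
        mul_le_mul_of_nonneg_left ih (by linarith)
      _ = D l * (1 + (m : ℝ) / ((l : ℝ) + 1)) ^ (j + 1) := by ring

theorem d_ratio : S_ratio := by
  intro N D r k m hr hD hDN hN hk hg
  refine ⟨(m : ℝ) * (k * (1 + m) ^ k) * (k + 1) + k, fun n => ?_⟩
  have hr0 : (0 : ℝ) < r := by exact_mod_cast hr
  have hr1 : (1 : ℝ) ≤ r := by exact_mod_cast hr
  have hDn : (0 : ℝ) < D n := by exact_mod_cast hD n
  have hNn : (0 : ℝ) < N n := by exact_mod_cast (lt_of_lt_of_le (hD n) (hDN n))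
  have hn1 : (0 : ℝ) < (n : ℝ) + 1 := by positivity
  have hm0 : (0 : ℝ) ≤ m := Nat.cast_nonneg m
  have hk0 : (0 : ℝ) ≤ k := Nat.cast_nonneg k
  have hC0 : (0 : ℝ) ≤ (m : ℝ) * (k * (1 + m) ^ k) := by positivity
  constructor
  · rw [div_le_div_iff₀ hr0 hNn]
    have : (N n : ℝ) ≤ r * D n := by exact_mod_cast hN n
    linarith
  · rcases lt_or_ge n k with hnk | hnk
    · have h1 : (D n : ℝ) / N n ≤ 1 := by
        rw [div_le_one hNn]
        exact_mod_cast hDN n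
      have h2 : (1 : ℝ) ≤ ((m : ℝ) * (k * (1 + m) ^ k) * (k + 1) + k) / ((n : ℝ) + 1) := by
        rw [le_div_iff₀ hn1]
        have h3 : (n : ℝ) + 1 ≤ k := by exact_mod_cast hnk
        have h4 : 0 ≤ (m : ℝ) * (k * (1 + m) ^ k) * (k + 1) := by positivity
        linarith
      have h5 : (0 : ℝ) ≤ 1 / r := by positivity
      linarith
    · obtain ⟨l, rfl⟩ := Nat.exists_eq_add_of_le' hnk
      have hl : (0 : ℝ) < (l : ℝ) + 1 := by positivity
      have hDl : (0 : ℝ) < D l := by exact_mod_cast hD l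
      have h1 := ratio_step D m hg l k
      have h2 : (r : ℝ) * D l ≤ N (l + k) := by exact_mod_cast hk l
      have hx0 : (0 : ℝ) ≤ (m : ℝ) / ((l : ℝ) + 1) := by positivity
      have hx1 : (m : ℝ) / ((l : ℝ) + 1) ≤ m := by
        apply div_le_self hm0
        have : (0 : ℝ) ≤ l := Nat.cast_nonneg l
        linarith
      have h3 := ratio_pow ((m : ℝ) / ((l : ℝ) + 1)) m hx0 hx1 k
      have h4 : (D (l + k) : ℝ) / N (l + k) ≤ 1 / r * (1 + (m : ℝ) / ((l : ℝ) + 1)) ^ k := by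
        rw [div_le_iff₀ hNn]
        calc (D (l + k) : ℝ) ≤ D l * (1 + (m : ℝ) / ((l : ℝ) + 1)) ^ k := h1
          _ = 1 / r * (1 + (m : ℝ) / ((l : ℝ) + 1)) ^ k * (r * D l) := by field_simp
          _ ≤ 1 / r * (1 + (m : ℝ) / ((l : ℝ) + 1)) ^ k * N (l + k) := by
            apply mul_le_mul_of_nonneg_left h2
            positivity
      have h5 : 1 / (r : ℝ) * (1 + (m : ℝ) / ((l : ℝ) + 1)) ^ k ≤
          1 / r + (m : ℝ) / ((l : ℝ) + 1) * (k * (1 + m) ^ k) := by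
        have h6 : 1 / (r : ℝ) ≤ 1 := by
          rw [div_le_one hr0]
          exact hr1
        have h7 : 0 ≤ 1 / (r : ℝ) := by positivity
        have h8 : 0 ≤ (m : ℝ) / ((l : ℝ) + 1) * (k * (1 + m) ^ k) := by positivity
        calc 1 / (r : ℝ) * (1 + (m : ℝ) / ((l : ℝ) + 1)) ^ k
            ≤ 1 / r * (1 + (m : ℝ) / ((l : ℝ) + 1) * (k * (1 + m) ^ k)) :=
              mul_le_mul_of_nonneg_left h3 h7
          _ = 1 / r + 1 / r * ((m : ℝ) / ((l : ℝ) + 1) * (k * (1 + m) ^ k)) := by ring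
          _ ≤ 1 / r + 1 * ((m : ℝ) / ((l : ℝ) + 1) * (k * (1 + m) ^ k)) := by
            gcongr
          _ = _ := by ring
      have h9 : (m : ℝ) / ((l : ℝ) + 1) * (k * (1 + m) ^ k) ≤
          ((m : ℝ) * (k * (1 + m) ^ k) * (k + 1) + k) / (((l + k : ℕ) : ℝ) + 1) := by
        rw [le_div_iff₀ hn1]
        have e : (m : ℝ) / ((l : ℝ) + 1) * (k * (1 + m) ^ k) * (((l + k : ℕ) : ℝ) + 1) =
            (m : ℝ) * (k * (1 + m) ^ k) * ((((l + k : ℕ) : ℝ) + 1) / ((l : ℝ) + 1)) := by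
          field_simp
        rw [e]
        have h10 : (((l + k : ℕ) : ℝ) + 1) / ((l : ℝ) + 1) ≤ k + 1 := by
          rw [div_le_iff₀ hl]
          push_cast
          have : (0 : ℝ) ≤ k * l := by positivity
          nlinarith
        have h11 := mul_le_mul_of_nonneg_left h10 hC0
        linarith
      linarith

end Pool.Agent.Lib.MP_ae0f86_nt
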