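import Pool.Agent.Lib.MP_ae0f86_nt.StmD3

/-! [GF stepa] (helper58) -/

set_option autoImplicit false

open CategoryTheory CategoryTheory.Limits Opposite MonoidalCategory

universe w v u

namespace Pool.Agent.Lib.MP_ae0f86_nt

open scoped TensorProduct

attribute [local instance] CategoryTheory.Abelian.hasFiniteBiproducts

private theorem stepa_up {B : Type w} [CommRing B] [Algebra ℚ B] {b : B} (h : IsIntegral ℚ b) :
    IsIntegral QBar ((1 : QBar) ⊗ₜ[ℚ] b : QBar ⊗[ℚ] B) := by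
  have h1 : IsIntegral ℚ ((Algebra.TensorProduct.includeRight : B →ₐ[ℚ] QBar ⊗[ℚ] B) b) :=
    h.map _
  exact h1.tower_top

private theorem stepa_down {B : Type w} [CommRing B] [Algebra ℚ B] {b : B}
    (h : IsIntegral QBar ((1 : QBar) ⊗ₜ[ℚ] b : QBar ⊗[ℚ] B)) : IsIntegral ℚ b := by
  have hA : Algebra.IsAlgebraic ℚ QBar := algebraicClosure.isAlgebraic ℚ ℂ
  have hI : Algebra.IsIntegral ℚ QBar := Algebra.isIntegral_def.2 fun z => (hA.isAlgebraic z).isIntegral
  have h1 : IsIntegral ℚ ((1 : QBar) ⊗ₜ[ℚ] b : QBar ⊗[ℚ] B) := isIntegral_trans (A := QBar) _ h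
  have h2 : Function.Injective (Algebra.TensorProduct.includeRight : B →ₐ[ℚ] QBar ⊗[ℚ] B) :=
    Algebra.TensorProduct.includeRight_injective (algebraMap ℚ QBar).injective
  exact (isIntegral_algHom_iff (Algebra.TensorProduct.includeRight : B →ₐ[ℚ] QBar ⊗[ℚ] B) h2).1 h1

theorem f_stepa {A : Type u} [Category.{v} A] [Abelian A] [MonoidalCategory A]
    [SymmetricCategory A] [RigidCategory A] {HdR : A ⥤ ModuleCat.{0} QBar}
    {HB : A ⥤ ModuleCat.{0} ℚ} [FibreFunctor HdR] [FibreFunctor HB]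
    (h1 : S_base2 HdR HB) (h2 : S_trans HdR HB) (h3 : S_intspan.{u}) (h4 : S_homfin.{u})
    (h5 : S_finval.{u}) (h6 : S_vans (A := A)) (h7 : S_nullst.{u}) (h8 : S_fintype HdR HB)
    (h9 : S_pdec HdR HB) (h10 : S_genclosed (A := A)) (h11 : S_arel HdR HB) :
    S_stepa HdR HB := by
  intro _ c M N hN b σ hcog hint σ'
  have hC : IsAlgClosed QBar := (algebraicClosure.isAlgClosure ℚ ℂ).isAlgClosed
  have hft : Algebra.FiniteType QBar (PerAlg HdR HB (Gen M)) := h8 M
  have hnt : Nontrivial (PerAlg HdR HB (Gen M)) :=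
    RingHom.domain_nontrivial (c.evAlg (Gen M)).toRingHom
  obtain ⟨m, hm⟩ := Ideal.exists_maximal (PerAlg HdR HB (Gen M))
  obtain ⟨x, -⟩ := h7 QBar (PerAlg HdR HB (Gen M)) m
  have hT : TClosed (Gen M) := h10.1 M
  have hS : DClosed (Gen M) := { hT with dual := Gen.dual }
  obtain ⟨ι, α, -, -, -, hα, -⟩ := h1 (Gen M) hS x
  obtain ⟨r, e, he⟩ := h9 M
  obtain ⟨hadd, -, -, -, -, hz, -⟩ := h11 (Gen M)
  -- `f` is locally constant
  have hf : IsIntegral QBar (asym HdR HB hN (ι hN b) σ) := by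
    have h12 := (stepa_up hint).map α.symm
    rwa [← hα hN b σ, AlgEquiv.symm_apply_apply] at h12
  have hspan := (h3 QBar (PerAlg HdR HB (Gen M)) r e he _).1 hf
  have hfin := h4 QBar (PerAlg HdR HB (Gen M)) r e he _ hspan
  -- injectivity
  have hinj : Function.Injective fun ω' : HdR.obj N => asym HdR HB hN ω' σ := by
    intro ω₁ ω₂ h12
    have h13 : asym HdR HB hN (ω₁ - ω₂) σ = 0 := by
      have h14 := hadd hN (ω₁ - ω₂) ω₂ σ
      rw [sub_add_cancel] at h14
      have h15 : asym HdR HB hN ω₁ σ = asym HdR HB hN ω₂ σ := h12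
      rw [h15] at h14
      exact right_eq_add.1 h14
    obtain ⟨N', i, hi, ⟨ω', hω'⟩, hσ⟩ := h6 HdR HB (Gen M) hT hN _ σ h13
    have hz' : IsZero N' := hcog N' i hi hσ
    have hi0 : i = 0 := hz'.eq_of_src _ _
    have h14 : act HdR i ω' = 0 := by
      show (HdR.map i).hom ω' = 0
      rw [hi0, Functor.map_zero]
      rfl
    rw [h14] at hω'
    exact (sub_eq_zero.1 hω'.symm)
  -- finitely many values
  have hval : {z : QBar | ∃ y : PerAlg HdR HB (Gen M) →ₐ[QBar] QBar,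
      z = y (asym HdR HB hN (ι hN b) σ')}.Finite := by
    refine ((hfin.preimage hinj.injOn).image fun ω' => x (asym HdR HB hN ω' σ')).subset ?_
    rintro z ⟨y, rfl⟩
    obtain ⟨τ, θ, hτ, hxτ, -⟩ := h2 (Gen M) hS x y
    refine ⟨θ hN (ι hN b), ⟨τ, ?_⟩, ?_⟩
    · exact (hτ hN _ _).symm
    · show x (asym HdR HB hN (θ hN (ι hN b)) σ') = _
      rw [← hτ, hxτ]
  have h12 := (h5 QBar (PerAlg HdR HB (Gen M)) r e he _ hval).map α
  rw [hα hN b σ'] at h12
  exact stepa_down h12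

end Pool.Agent.Lib.MP_ae0f86_nt
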