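import Pool.Agent.Lib.MP_ae0f86_nt.StmD3

/-!
# MP_ae0f86_nt : [GF stepb] integrality of the symbols of a generated object
-/

set_option autoImplicit false

open CategoryTheory CategoryTheory.Limits Opposite MonoidalCategory
open scoped TensorProduct

universe w v u

namespace Pool.Agent.Lib.MP_ae0f86_nt

noncomputable section

attribute [local instance] CategoryTheory.Abelian.hasFiniteBiproducts

private theorem stepb_dual {V : Type*} [AddCommGroup V] [Module ℚ V] (c : V)
    (h : ∀ l : Module.Dual ℚ V, l c = 0) : c = 0 :=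
  (Module.forall_dual_apply_eq_zero_iff ℚ c).1 h

theorem f_stepb {A : Type u} [Category.{v} A] [Abelian A] [MonoidalCategory A]
    [SymmetricCategory A] [RigidCategory A] {HdR : A ⥤ ModuleCat.{0} QBar}
    {HB : A ⥤ ModuleCat.{0} ℚ} [FibreFunctor HdR] [FibreFunctor HB]
    (h1 : S_base2 HdR HB) (h2 : S_trans2 HdR HB) (h3 : S_intspan.{u}) (h4 : S_homfin.{u})
    (h5 : S_finval.{u}) (h6 : S_vans (A := A)) (h7 : S_nullst.{u}) (h8 : S_fintype HdR HB)
    (h9 : S_pdec HdR HB) (h10 : S_genclosed (A := A)) (h11 : S_arel HdR HB) (h12 : S_arel HB HB) :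
    S_stepb HdR HB := by
  intro _ c M N hN b σ hgen hint b'
  have hac : IsAlgClosed QBar := (algebraicClosure.isAlgClosure ℚ ℂ).isAlgClosed
  have hal : Algebra.IsAlgebraic ℚ QBar := (algebraicClosure.isAlgClosure ℚ ℂ).isAlgebraic
  have hai : Algebra.IsIntegral ℚ QBar := Algebra.isAlgebraic_iff_isIntegral.1 hal
  have hT : TClosed (Gen M) := h10.1 M
  have hD : DClosed (Gen M) := { hT with dual := Gen.dual }
  have hft : Algebra.FiniteType QBar (PerAlg HdR HB (Gen M)) := h8 M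
  have hnt : Nontrivial (PerAlg HdR HB (Gen M)) := (c.evAlg (Gen M)).toRingHom.domain_nontrivial
  obtain ⟨r, e, hdec⟩ := h9 M
  obtain ⟨m, hm⟩ := Ideal.exists_maximal (PerAlg HdR HB (Gen M))
  obtain ⟨x, -⟩ := h7 QBar (PerAlg HdR HB (Gen M)) m
  obtain ⟨ι, α, hadd, hsmul, hx, hα, -⟩ := h1 (Gen M) hD x
  -- integrality and the base change
  have hup : ∀ a : PerAlg HB HB (Gen M), IsIntegral ℚ a →
      IsIntegral QBar ((1 : QBar) ⊗ₜ[ℚ] a : QBar ⊗[ℚ] PerAlg HB HB (Gen M)) := by
    intro a ha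
    have h := ha.map (Algebra.TensorProduct.includeRight :
      PerAlg HB HB (Gen M) →ₐ[ℚ] QBar ⊗[ℚ] PerAlg HB HB (Gen M))
    exact h.tower_top
  have hdown : ∀ a : PerAlg HB HB (Gen M),
      IsIntegral QBar ((1 : QBar) ⊗ₜ[ℚ] a : QBar ⊗[ℚ] PerAlg HB HB (Gen M)) →
      IsIntegral ℚ a := by
    intro a ha
    have h : IsIntegral ℚ ((Algebra.TensorProduct.includeRight :
      PerAlg HB HB (Gen M) →ₐ[ℚ] QBar ⊗[ℚ] PerAlg HB HB (Gen M)) a) := isIntegral_trans _ ha
    exact (isIntegral_algHom_iff _ (Algebra.TensorProduct.includeRight_injective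
      (algebraMap ℚ QBar).injective)).1 h
  set bN := Module.finBasis ℚ (HB.obj N) with hbN
  have hf : asym HdR HB hN (ι hN b) σ ∈ Submodule.span QBar (Set.range e) := by
    refine (h3 QBar _ r e hdec _).1 ?_
    have h := (hup _ hint).map (α.symm : QBar ⊗[ℚ] PerAlg HB HB (Gen M) →ₐ[QBar]
      PerAlg HdR HB (Gen M))
    rw [← hα hN b σ] at h
    simpa using h
  have hfin := h4 QBar _ r e hdec _ hf
  -- the linear map `L`
  let L : (Fin (Module.finrank ℚ (HB.obj N)) → QBar) →ₗ[QBar] PerAlg HdR HB (Gen M) :=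
    { toFun := fun v => ∑ j, v j • asym HdR HB hN (ι hN b) (bN.coord j)
      map_add' := fun v w => by
        simp only [Pi.add_apply, add_smul, Finset.sum_add_distrib]
      map_smul' := fun q v => by
        simp only [Pi.smul_apply, smul_eq_mul, mul_smul, Finset.smul_sum, RingHom.id_apply] }
  have hL : ∀ v, L v = ∑ j, v j • asym HdR HB hN (ι hN b) (bN.coord j) := fun _ => rfl
  -- the linear form `σ ↦ asym_B N b σ`
  let Q : Module.Dual ℚ (HB.obj N) →ₗ[ℚ] PerAlg HB HB (Gen M) :=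
    { toFun := fun τ => asym HB HB hN b τ
      map_add' := fun τ τ' => (h12 (Gen M)).2.2.1 hN b τ τ'
      map_smul' := fun q τ => by
        rw [(h12 (Gen M)).2.2.2.1 hN q b τ, Rat.cast_id, RingHom.id_apply] }
  have hQ : ∀ τ, Q τ = asym HB HB hN b τ := fun _ => rfl
  have hQinj : ∀ τ, Q τ = 0 → τ = 0 := by
    intro τ hτ
    obtain ⟨N', i, hi, ⟨b1, hb1⟩, hpull⟩ := h6 HB HB (Gen M) hT hN b τ hτ
    have hiso : IsIso i := hgen N' i hi ⟨b1, hb1⟩
    ext z
    have hz : (HB.map i).hom ((HB.map (inv i)).hom z) = z := by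
      rw [← LinearMap.comp_apply, ← ModuleCat.hom_comp, ← HB.map_comp, IsIso.inv_hom_id,
        HB.map_id]
      rfl
    have h := LinearMap.congr_fun hpull ((HB.map (inv i)).hom z)
    rw [LinearMap.comp_apply, hz] at h
    simpa using h
  have hLinj : Function.Injective L := by
    rw [← LinearMap.ker_eq_bot, LinearMap.ker_eq_bot']
    intro v hv
    have h0 : ∑ j, v j ⊗ₜ[ℚ] asym HB HB hN b (bN.coord j) =
        (0 : QBar ⊗[ℚ] PerAlg HB HB (Gen M)) := by
      rw [hL] at hv
      have h := congrArg α hv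
      rw [map_sum, map_zero] at h
      rw [← h]
      refine Finset.sum_congr rfl fun j _ => ?_
      rw [map_smul, hα, TensorProduct.smul_tmul', smul_eq_mul, mul_one]
    funext j
    refine stepb_dual (V := QBar) (v j) fun l => ?_
    have h := congrArg ((TensorProduct.lid ℚ (PerAlg HB HB (Gen M))).toLinearMap ∘ₗ
      LinearMap.rTensor (PerAlg HB HB (Gen M)) l) h0
    rw [map_sum, map_zero] at h
    have h' : Q (∑ j, l (v j) • bN.coord j) = 0 := by
      rw [map_sum, ← h]
      refine Finset.sum_congr rfl fun j _ => ?_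
      rw [map_smul, hQ]
      simp
    have h'' := LinearMap.congr_fun (hQinj _ h') (bN j)
    simpa [LinearMap.sum_apply, Module.Basis.coord_apply, Finsupp.single_apply] using h''
  -- finitely many vectors
  have hY : {v : Fin (Module.finrank ℚ (HB.obj N)) → QBar | ∃ y : PerAlg HdR HB (Gen M) →ₐ[QBar]
      QBar, v = fun j => y (asym HdR HB hN (ι hN (bN j)) σ)}.Finite := by
    refine (hfin.preimage hLinj.injOn).subset ?_
    rintro v ⟨y, rfl⟩
    obtain ⟨ρ, -, hρ⟩ := h2 (Gen M) hD x y (fun {N} => ι) hx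
    refine ⟨ρ, ?_⟩
    rw [hL, hρ hN bN]
  have hsum : ι hN b' = ∑ j, ((bN.repr b' j : ℚ) : QBar) • ι hN (bN j) := by
    let g : HB.obj N →+ HdR.obj N := AddMonoidHom.mk' (ι hN) (hadd hN)
    have hg : ∀ z, g z = ι hN z := fun _ => rfl
    conv_lhs => rw [← bN.sum_repr b', ← hg, map_sum]
    refine Finset.sum_congr rfl fun j _ => ?_
    rw [hg, hsmul]
  have hval : IsIntegral QBar (asym HdR HB hN (ι hN b') σ) := by
    refine h5 QBar _ r e hdec _ ?_
    refine (hY.image fun v => ∑ j, ((bN.repr b' j : ℚ) : QBar) * v j).subset ?_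
    rintro z ⟨y, rfl⟩
    refine ⟨_, ⟨y, rfl⟩, ?_⟩
    let g : HdR.obj N →ₗ[QBar] PerAlg HdR HB (Gen M) :=
      { toFun := fun ω => asym HdR HB hN ω σ
        map_add' := fun ω ω' => (h11 (Gen M)).1 hN ω ω' σ
        map_smul' := fun q ω => (h11 (Gen M)).2.1 hN q ω σ }
    have hg : ∀ ω, g ω = asym HdR HB hN ω σ := fun _ => rfl
    rw [← hg, hsum, map_sum, map_sum]
    refine Finset.sum_congr rfl fun j _ => ?_
    rw [map_smul, map_smul, smul_eq_mul, hg]
  apply hdown
  rw [← hα hN b' σ]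
  exact hval.map (α : PerAlg HdR HB (Gen M) →ₐ[QBar] QBar ⊗[ℚ] PerAlg HB HB (Gen M))

end

end Pool.Agent.Lib.MP_ae0f86_nt
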