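import Pool.Agent.Lib.MP_ae0f86_nt.StmD

/-!
# MP_ae0f86_nt : [GD trans] the points are permuted transitively
-/

set_option autoImplicit false

open CategoryTheory CategoryTheory.Limits Opposite MonoidalCategory
open scoped TensorProduct

universe w v u

namespace Pool.Agent.Lib.MP_ae0f86_nt

noncomputable section

attribute [local instance] CategoryTheory.Abelian.hasFiniteBiproducts

variable {A : Type u} [Category.{v} A] [Abelian A] [MonoidalCategory A] [SymmetricCategory A]
  {K : Type} [Field K] (H : A ⥤ ModuleCat.{0} K) (HB : A ⥤ ModuleCat.{0} ℚ)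
  [FibreFunctor H] [FibreFunctor HB]

/-- The functional `σ ↦ f (asym N ω σ)`. -/
def trans_pair [CharZero K] (h4 : S_arel H HB) {S : A → Prop}
    (f : PerAlg H HB S →ₗ[K] K) {N : A} (hN : S N) (ω : H.obj N) :
    Module.Dual ℚ (HB.obj N) →ₗ[ℚ] K where
  toFun σ := f (asym H HB hN ω σ)
  map_add' σ σ' := by rw [(h4 S).2.2.1 hN, map_add]
  map_smul' q σ := by
    rw [(h4 S).2.2.2.1 hN, map_smul, smul_eq_mul, RingHom.id_apply, Rat.smul_def]

theorem trans_pair_apply [CharZero K] (h4 : S_arel H HB) {S : A → Prop}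
    (f : PerAlg H HB S →ₗ[K] K) {N : A} (hN : S N) (ω : H.obj N)
    (σ : Module.Dual ℚ (HB.obj N)) : trans_pair H HB h4 f hN ω σ = f (asym H HB hN ω σ) := rfl

omit [FibreFunctor H] in
theorem trans_ext {V : Type*} [AddCommGroup V] [Module ℚ V] {M N : A}
    (g g' : Module.Dual ℚ (HB.obj (M ⊗ N)) →ₗ[ℚ] V)
    (h : ∀ σ τ, g (tdual HB σ τ) = g' (tdual HB σ τ)) : g = g' := by
  have hM : Module.Finite ℚ (HB.obj M) := FibreFunctor.finite M
  have hN : Module.Finite ℚ (HB.obj N) := FibreFunctor.finite N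
  ext φ
  obtain ⟨t, ht⟩ : ∃ t, φ = (TensorProduct.dualDistribEquiv ℚ (HB.obj M) (HB.obj N) t) ∘ₗ
      (LinearEquiv.ofBijective _ (FibreFunctor.bij (H := HB) M N)).symm.toLinearMap := by
    refine ⟨(TensorProduct.dualDistribEquiv ℚ (HB.obj M) (HB.obj N)).symm
      (φ ∘ₗ (LinearEquiv.ofBijective _ (FibreFunctor.bij (H := HB) M N)).toLinearMap), ?_⟩
    rw [LinearEquiv.apply_symm_apply]
    ext z
    simp
  rw [ht]
  clear ht
  induction t using TensorProduct.induction_on with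
  | zero => simp
  | tmul σ τ => exact h σ τ
  | add a b ha hb =>
    rw [map_add, LinearMap.add_comp, map_add, map_add, ha, hb]

theorem trans_theta [RigidCategory A] [CharZero K] (h1 : S_pointbij H HB)
    (h3 : S_algrel (A := A)) (h4 : S_arel H HB) (S : A → Prop) (hS : DClosed S)
    (x y : PerAlg H HB S →ₐ[K] K) :
    ∃ θ : ∀ {N : A}, S N → (H.obj N →ₗ[K] H.obj N),
      (∀ {N : A} (hN : S N) ω σ, x (asym H HB hN (θ hN ω) σ) = y (asym H HB hN ω σ)) ∧
      (∀ {N N' : A} (hN : S N) (hN' : S N') (f : N ⟶ N') ω,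
        (H.map f).hom (θ hN ω) = θ hN' ((H.map f).hom ω)) ∧
      (∀ {M N : A} (hM : S M) (hN : S N) (hMN : S (M ⊗ N)) ω η,
        θ hMN (FibreFunctor.mul M N ω η) = FibreFunctor.mul M N (θ hM ω) (θ hN η)) ∧
      (∀ (h1 : S (𝟙_ A)), θ h1 FibreFunctor.one = FibreFunctor.one) := by
  classical
  have hex : ∀ {N : A} (hN : S N) (ω : H.obj N), ∃! ω' : H.obj N, ∀ σ,
      x (asym H HB hN ω' σ) = y (asym H HB hN ω σ) := by
    intro N hN ω
    exact h1 S hS x hN (trans_pair H HB h4 y.toLinearMap hN ω)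
  have huniq : ∀ {N : A} (hN : S N) (ω ω1 ω2 : H.obj N),
      (∀ σ, x (asym H HB hN ω1 σ) = y (asym H HB hN ω σ)) →
      (∀ σ, x (asym H HB hN ω2 σ) = y (asym H HB hN ω σ)) → ω1 = ω2 :=
    fun hN ω ω1 ω2 e1 e2 => (hex hN ω).unique e1 e2
  let θ0 : ∀ {N : A}, S N → H.obj N → H.obj N := fun hN ω => (hex hN ω).choose
  have hθ0 : ∀ {N : A} (hN : S N) (ω : H.obj N) σ,
      x (asym H HB hN (θ0 hN ω) σ) = y (asym H HB hN ω σ) :=
    fun hN ω => (hex hN ω).choose_spec.1
  let θ : ∀ {N : A}, S N → (H.obj N →ₗ[K] H.obj N) := fun {N} hN =>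
    { toFun := θ0 hN
      map_add' := by
        intro ω ω'
        refine huniq hN (ω + ω') _ _ (hθ0 hN _) ?_
        intro σ
        rw [(h4 S).1 hN, map_add, hθ0, hθ0, ← map_add, ← (h4 S).1 hN]
      map_smul' := by
        intro a ω
        refine huniq hN (a • ω) _ _ (hθ0 hN _) ?_
        intro σ
        rw [RingHom.id_apply, (h4 S).2.1 hN, map_smul, hθ0, ← map_smul, ← (h4 S).2.1 hN] }
  have hθ : ∀ {N : A} (hN : S N) (ω : H.obj N) σ,
      x (asym H HB hN (θ hN ω) σ) = y (asym H HB hN ω σ) := fun hN ω σ => hθ0 hN ω σ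
  refine ⟨θ, fun hN ω σ => hθ hN ω σ, ?_, ?_, ?_⟩
  · intro N N' hN hN' f ω
    refine huniq hN' ((H.map f).hom ω) _ _ ?_ (hθ hN' _)
    intro σ
    rw [← (h4 S).2.2.2.2.1 hN hN', hθ, (h4 S).2.2.2.2.1 hN hN']
  · intro M N hM hN hMN ω η
    refine huniq hMN (FibreFunctor.mul M N ω η) _ _ (hθ hMN _) ?_
    have key : trans_pair H HB h4 x.toLinearMap hMN
        (FibreFunctor.mul M N (θ hM ω) (θ hN η)) =
        trans_pair H HB h4 y.toLinearMap hMN (FibreFunctor.mul M N ω η) := by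
      apply trans_ext
      intro σ τ
      rw [trans_pair_apply, trans_pair_apply, ← (h3 H HB S).2.1 hM hN hMN,
        ← (h3 H HB S).2.1 hM hN hMN, AlgHom.toLinearMap_apply, AlgHom.toLinearMap_apply,
        map_mul, map_mul, hθ, hθ]
    intro φ
    exact LinearMap.congr_fun key φ
  · intro hS1
    refine huniq hS1 FibreFunctor.one _ _ (hθ hS1 _) ?_
    intro φ
    have hc : coord HB (FibreFunctor.one (H := HB)) = 1 := by
      rw [coord, LinearEquiv.symm_apply_eq, LinearEquiv.ofBijective_apply,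
        LinearMap.toSpanSingleton_apply, one_smul]
    have hφ : φ = (φ FibreFunctor.one) • (coord HB).toLinearMap := by
      ext z
      obtain ⟨a, ha⟩ := (FibreFunctor.one_bij (H := HB)).2 z
      simp only at ha
      rw [← ha, map_smul, map_smul, LinearMap.smul_apply, LinearEquiv.coe_coe, hc]
      simp [mul_comm]
    have h11 : asym H HB hS1 FibreFunctor.one (coord HB).toLinearMap = 1 :=
      (h3 H HB S).2.2.1 hS1 _ hc
    rw [hφ, (h4 S).2.2.2.1 hS1, h11, map_smul, map_smul, map_one, map_one]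

theorem trans_uniq [RigidCategory A] [CharZero K] (h1 : S_pointbij H HB) (h4 : S_arel H HB)
    {S : A → Prop} (hS : DClosed S) (x : PerAlg H HB S →ₐ[K] K) {N : A} (hN : S N)
    (ω ω' : H.obj N) (h : ∀ σ, x (asym H HB hN ω σ) = x (asym H HB hN ω' σ)) : ω = ω' :=
  (h1 S hS x hN (trans_pair H HB h4 x.toLinearMap hN ω')).unique h (fun _ => rfl)

theorem trans_hom_ext {S : A → Prop} {B : Type*} [Semiring B] [Algebra K B]
    (f g : PerAlg H HB S →ₐ[K] B)
    (h : ∀ {N : A} (hN : S N) ω σ, f (asym H HB hN ω σ) = g (asym H HB hN ω σ)) : f = g := by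
  apply Ideal.Quotient.algHom_ext
  apply MvPolynomial.algHom_ext
  intro s
  exact h s.mem s.ω s.σ

theorem d_trans [RigidCategory A] [CharZero K] (h1 : S_pointbij H HB)
    (h2 : S_points.{u, v, u} H HB)
    (h3 : S_algrel (A := A)) (h4 : S_arel H HB) : S_trans H HB := by
  intro S hS x y
  obtain ⟨θ, hθ, hθnat, hθmul, hθone⟩ := trans_theta H HB h1 h3 h4 S hS x y
  obtain ⟨θ', hθ', hθnat', hθmul', hθone'⟩ := trans_theta H HB h1 h3 h4 S hS y x
  have e1 : ∀ {N : A} (hN : S N) ω, θ hN (θ' hN ω) = ω := by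
    intro N hN ω
    apply trans_uniq H HB h1 h4 hS x hN
    intro σ
    rw [hθ, hθ']
  have e2 : ∀ {N : A} (hN : S N) ω, θ' hN (θ hN ω) = ω := by
    intro N hN ω
    apply trans_uniq H HB h1 h4 hS y hN
    intro σ
    rw [hθ', hθ]
  obtain ⟨f, hf⟩ := h2 S (PerAlg H HB S)
    { p := fun hN ω σ => asym H HB hN (θ hN ω) σ
      add_left := by
        intro N hN ω ω' σ
        rw [map_add, (h4 S).1 hN]
      smul_left := by
        intro N hN a ω σ
        rw [map_smul, (h4 S).2.1 hN]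
      add_right := by
        intro N hN ω σ σ'
        rw [(h4 S).2.2.1 hN]
      smul_right := by
        intro N hN q ω σ
        rw [(h4 S).2.2.2.1 hN]
      nat := by
        intro N N' hN hN' g ω σ'
        rw [(h4 S).2.2.2.2.1 hN hN', hθnat hN hN']
      mul := by
        intro M N hM hN hMN ω η σ τ
        rw [hθmul hM hN hMN, (h3 H HB S).2.1 hM hN hMN]
      one := by
        intro hS1 σ hσ
        rw [hθone hS1]
        exact (h3 H HB S).2.2.1 hS1 σ hσ }
  obtain ⟨f', hf'⟩ := h2 S (PerAlg H HB S)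
    { p := fun hN ω σ => asym H HB hN (θ' hN ω) σ
      add_left := by
        intro N hN ω ω' σ
        rw [map_add, (h4 S).1 hN]
      smul_left := by
        intro N hN a ω σ
        rw [map_smul, (h4 S).2.1 hN]
      add_right := by
        intro N hN ω σ σ'
        rw [(h4 S).2.2.1 hN]
      smul_right := by
        intro N hN q ω σ
        rw [(h4 S).2.2.2.1 hN]
      nat := by
        intro N N' hN hN' g ω σ'
        rw [(h4 S).2.2.2.2.1 hN hN', hθnat' hN hN']
      mul := by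
        intro M N hM hN hMN ω η σ τ
        rw [hθmul' hM hN hMN, (h3 H HB S).2.1 hM hN hMN]
      one := by
        intro hS1 σ hσ
        rw [hθone' hS1]
        exact (h3 H HB S).2.2.1 hS1 σ hσ }
  have gf : ∀ {N : A} (hN : S N) ω σ,
      f (asym H HB hN ω σ) = asym H HB hN (θ hN ω) σ := fun hN ω σ => hf hN ω σ
  have gf' : ∀ {N : A} (hN : S N) ω σ,
      f' (asym H HB hN ω σ) = asym H HB hN (θ' hN ω) σ := fun hN ω σ => hf' hN ω σ
  have hff' : f.comp f' = AlgHom.id K _ := by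
    apply trans_hom_ext
    intro N hN ω σ
    rw [AlgHom.comp_apply, gf', gf, e1, AlgHom.id_apply]
  have hf'f : f'.comp f = AlgHom.id K _ := by
    apply trans_hom_ext
    intro N hN ω σ
    rw [AlgHom.comp_apply, gf, gf', e2, AlgHom.id_apply]
  have hxf : x.comp f = y := by
    apply trans_hom_ext
    intro N hN ω σ
    rw [AlgHom.comp_apply, gf, hθ]
  refine ⟨AlgEquiv.ofAlgHom f f' hff' hf'f,
    fun hN => LinearEquiv.ofLinear (θ hN) (θ' hN) (LinearMap.ext (e1 hN))
      (LinearMap.ext (e2 hN)), ?_, ?_, ?_⟩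
  · intro N hN ω σ
    exact hf hN ω σ
  · intro a
    exact DFunLike.congr_fun hxf a
  · intro W hW
    apply le_antisymm
    · rw [Submodule.map_le_iff_le_comap, fw, Submodule.span_le]
      rintro r ⟨ω, σ, rfl⟩
      exact Submodule.subset_span ⟨θ hW ω, σ, hf hW ω σ⟩
    · rw [fw, Submodule.span_le]
      rintro r ⟨ω, σ, rfl⟩
      refine ⟨asym H HB hW (θ' hW ω) σ, Submodule.subset_span ⟨θ' hW ω, σ, rfl⟩, ?_⟩
      exact (gf hW (θ' hW ω) σ).trans (by rw [e1])

end

end Pool.Agent.Lib.MP_ae0f86_nt
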