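import Pool.Agent.Lib.MP_ae0f86_nt.StmD3
import Pool.Agent.Lib.MP_ae0f86_nt.P.Base

/-!
# MP_ae0f86_nt : [GF trans2] the right translations (helper4)
-/

set_option autoImplicit false

open CategoryTheory CategoryTheory.Limits Opposite MonoidalCategory
open scoped TensorProduct

universe w v u

namespace Pool.Agent.Lib.MP_ae0f86_nt

noncomputable section

set_option linter.unusedSectionVars false

attribute [local instance] CategoryTheory.Abelian.hasFiniteBiproducts

section

variable {A : Type u} [Category.{v} A] [Abelian A] [MonoidalCategory A] [SymmetricCategory A]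
  {K : Type} [Field K] {H : A ⥤ ModuleCat.{0} K} {HB : A ⥤ ModuleCat.{0} ℚ}
  [FibreFunctor H] [FibreFunctor HB] {S : A → Prop}
  [RigidCategory A] [CharZero K] (h1 : S_pointbij H HB) (hS : DClosed S)
  (x y : PerAlg H HB S →ₐ[K] K)

/-- the bilinear form behind the translation -/
def trans2_B {N N' : A} (hN : S N) (hN' : S N') (ω : H.obj N) (σ : Module.Dual ℚ (HB.obj N')) :
    Module.Dual ℚ (HB.obj N) →ₗ[ℚ] HB.obj N' →ₗ[ℚ] PerAlg H HB S :=
  LinearMap.mk₂ ℚ (fun σ' b => y (asym H HB hN' (p_base_iota h1 hS x hN' b) σ) •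
      asym H HB hN ω σ')
    (fun a b c => by rw [p_base_ar, smul_add])
    (fun q a c => by
      rw [p_base_sr, ← algebraMap_smul K q (y _ • asym H HB hN ω a), eq_ratCast, smul_comm])
    (fun a b c => by rw [p_base_iota_add, p_base_al, map_add, add_smul])
    (fun q a c => by
      rw [p_base_iota_smul, p_base_sl, map_smul, smul_eq_mul, mul_smul,
        ← algebraMap_smul K q (y _ • asym H HB hN ω a), eq_ratCast])

/-- the pairing defining the translation -/
def trans2_p {N : A} (hN : S N) (ω : H.obj N) (σ : Module.Dual ℚ (HB.obj N)) :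
    PerAlg H HB S :=
  ∑ j, trans2_B h1 hS x y hN hN ω σ ((Module.finBasis ℚ (HB.obj N)).coord j)
    (Module.finBasis ℚ (HB.obj N) j)

theorem trans2_p_eq {N : A} (hN : S N) (ω : H.obj N) (σ : Module.Dual ℚ (HB.obj N))
    {J : Type} [Fintype J] (b : Module.Basis J ℚ (HB.obj N)) :
    trans2_p h1 hS x y hN ω σ =
      ∑ j, y (asym H HB hN (p_base_iota h1 hS x hN (b j)) σ) • asym H HB hN ω (b.coord j) := by
  have h := p_base_contr (Module.finBasis ℚ (HB.obj N)) b LinearMap.id
    (trans2_B h1 hS x y hN hN ω σ)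
  simp only [LinearMap.id_apply, LinearMap.comp_id] at h
  exact h

/-- the point defining the translation -/
def trans2_pt : Pt H HB S (PerAlg H HB S) where
  p := fun hN ω σ => trans2_p h1 hS x y hN ω σ
  add_left := fun hN ω ω' σ => by
    simp only [trans2_p, ← Finset.sum_add_distrib]
    refine Finset.sum_congr rfl fun j _ => ?_
    simp only [trans2_B, LinearMap.mk₂_apply]
    rw [p_base_al, smul_add]
  smul_left := fun hN a ω σ => by
    simp only [trans2_p, Finset.smul_sum]
    refine Finset.sum_congr rfl fun j _ => ?_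
    simp only [trans2_B, LinearMap.mk₂_apply]
    rw [p_base_sl, smul_comm]
  add_right := fun hN ω σ σ' => by
    simp only [trans2_p, ← Finset.sum_add_distrib]
    refine Finset.sum_congr rfl fun j _ => ?_
    simp only [trans2_B, LinearMap.mk₂_apply]
    rw [p_base_ar, map_add, add_smul]
  smul_right := fun hN q ω σ => by
    simp only [trans2_p, Finset.smul_sum]
    refine Finset.sum_congr rfl fun j _ => ?_
    simp only [trans2_B, LinearMap.mk₂_apply]
    rw [p_base_sr, map_smul, smul_eq_mul, mul_smul]
  nat := fun {N N'} hN hN' f ω σ' => by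
    have h := p_base_contr (Module.finBasis ℚ (HB.obj N)) (Module.finBasis ℚ (HB.obj N'))
      (HB.map f).hom (trans2_B h1 hS x y hN hN' ω σ')
    simp only [trans2_p]
    refine Eq.trans (Finset.sum_congr rfl fun j _ => ?_) (h.trans
      (Finset.sum_congr rfl fun k _ => ?_))
    · simp only [trans2_B, LinearMap.mk₂_apply]
      rw [p_base_nat hN hN', p_base_iota_nat h1 hS x hN hN']
    · simp only [trans2_B, LinearMap.mk₂_apply]
      rw [p_base_nat hN hN']
  mul := fun {M N} hM hN hMN ω η σ τ => by
    classical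
    let b := Module.finBasis ℚ (HB.obj M)
    let b' := Module.finBasis ℚ (HB.obj N)
    let e := LinearEquiv.ofBijective _ (FibreFunctor.bij (H := HB) M N)
    let c := (b.tensorProduct b').map e
    have hc : ∀ i j, c (i, j) = FibreFunctor.mul M N (b i) (b' j) := by
      intro i j
      show e ((b.tensorProduct b') (i, j)) = _
      rw [Module.Basis.tensorProduct_apply]
      show TensorProduct.lift (FibreFunctor.mul M N) (b i ⊗ₜ[ℚ] b' j) = _
      rw [TensorProduct.lift.tmul]
    have hcc : ∀ i j, c.coord (i, j) = tdual HB (b.coord i) (b'.coord j) := by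
      intro i j
      apply c.ext
      rintro ⟨k, l⟩
      rw [hc k l, p_algrel_tdual, ← hc k l, Module.Basis.coord_apply, Module.Basis.coord_apply,
        Module.Basis.coord_apply, Module.Basis.repr_self, Module.Basis.repr_self,
        Module.Basis.repr_self, Finsupp.single_apply, Finsupp.single_apply, Finsupp.single_apply]
      simp only [Prod.mk.injEq]
      by_cases h1 : k = i <;> by_cases h2 : l = j <;> simp [h1, h2]
    rw [trans2_p_eq h1 hS x y hMN _ _ c, trans2_p_eq h1 hS x y hM _ _ b,
      trans2_p_eq h1 hS x y hN _ _ b']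
    refine Eq.trans ?_ (p_base_sms (R := PerAlg H HB S)
      (fun i => y (asym H HB hM (p_base_iota h1 hS x hM (b i)) σ) • asym H HB hM ω (b.coord i))
      (fun j => y (asym H HB hN (p_base_iota h1 hS x hN (b' j)) τ) •
        asym H HB hN η (b'.coord j))).symm
    rw [Fintype.sum_prod_type]
    refine Finset.sum_congr rfl fun i _ => Finset.sum_congr rfl fun j _ => ?_
    rw [hcc, hc, p_base_iota_mul h1 hS x hM hN hMN, ← (p_algrel H HB S).2.1 hM hN hMN,
      ← (p_algrel H HB S).2.1 hM hN hMN, map_mul, smul_mul_smul_comm]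
  one := fun h1' σ hσ => by
    let e : ℚ ≃ₗ[ℚ] HB.obj (𝟙_ A) :=
      LinearEquiv.ofBijective (LinearMap.toSpanSingleton ℚ _ (FibreFunctor.one (H := HB)))
        FibreFunctor.one_bij
    let c := (Module.Basis.singleton Unit ℚ).map e
    have hc : ∀ i, c i = FibreFunctor.one := by
      intro i
      show e (Module.Basis.singleton Unit ℚ i) = _
      rw [Module.Basis.singleton_apply]
      show (1 : ℚ) • FibreFunctor.one (H := HB) = _
      rw [one_smul]
    have hcc : ∀ i, c.coord i = σ := by
      intro i
      apply c.ext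
      intro j
      rw [hc j, hσ, ← hc j, Module.Basis.coord_apply, Module.Basis.repr_self]
      simp
    rw [trans2_p_eq h1 hS x y h1' _ _ c]
    simp only [Finset.univ_unique, Finset.sum_singleton]
    rw [hcc, hc, p_base_iota_one h1 hS x h1', (p_algrel H HB S).2.2.1 h1' σ hσ, map_one,
      one_smul]

end

theorem f_trans2 {A : Type u} [Category.{v} A] [Abelian A] [MonoidalCategory A]
    [SymmetricCategory A] [RigidCategory A] {K : Type} [Field K] (H : A ⥤ ModuleCat.{0} K)
    (HB : A ⥤ ModuleCat.{0} ℚ) [FibreFunctor H] [FibreFunctor HB]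
    [CharZero K] (h1 : S_pointbij H HB) (h2 : S_points.{u, v, u} H HB)
    (h3 : S_algrel (A := A)) (h4 : S_arel H HB) : S_trans2 H HB := by
  intro S hS x y ι hι
  have hιe : ∀ {N : A} (hN : S N) (b : HB.obj N), ι hN b = p_base_iota h1 hS x hN b := by
    intro N hN b
    apply p_base_ext h1 hS x hN
    intro σ
    rw [hι, p_base_iota_spec]
  obtain ⟨ρ, hρ⟩ := h2 S (PerAlg H HB S) (trans2_pt h1 hS x y)
  have hρ' : ∀ {N : A} (hN : S N) (ω : H.obj N) (σ : Module.Dual ℚ (HB.obj N)),
      ρ (asym H HB hN ω σ) = trans2_p h1 hS x y hN ω σ := fun hN ω σ => hρ hN ω σ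
  refine ⟨ρ, ?_, ?_⟩
  · intro a
    induction a using p_base_induct with
    | hC a => rw [AlgHom.commutes, AlgHom.commutes, AlgHom.commutes]
    | hadd a b ha hb => rw [map_add, map_add, ha, hb, map_add]
    | hmul a b ha hb => rw [map_mul, map_mul, ha, hb, map_mul]
    | @hsym N hN ω σ =>
      rw [hρ' hN ω σ, trans2_p_eq h1 hS x y hN ω σ (Module.finBasis ℚ (HB.obj N)), map_sum]
      let L : H.obj N →+ K :=
        { toFun := fun z => y (asym H HB hN z σ)
          map_zero' := by rw [p_base_zl, map_zero]
          map_add' := fun y z => by rw [p_base_al, map_add] }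
      have e3 : L (∑ j, x (asym H HB hN ω ((Module.finBasis ℚ (HB.obj N)).coord j)) •
          p_base_iota h1 hS x hN (Module.finBasis ℚ (HB.obj N) j)) =
          ∑ j, L (x (asym H HB hN ω ((Module.finBasis ℚ (HB.obj N)).coord j)) •
          p_base_iota h1 hS x hN (Module.finBasis ℚ (HB.obj N) j)) := map_sum _ _ _
      rw [← p_base_expand h1 hS x hN ω] at e3
      show _ = L ω
      rw [e3]
      refine Finset.sum_congr rfl fun j _ => ?_
      show _ = y (asym H HB hN _ σ)
      rw [map_smul, p_base_sl, map_smul, smul_eq_mul, smul_eq_mul, mul_comm]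
  · intro N hN J _ _ b ω σ
    rw [hρ' hN ω σ, trans2_p_eq h1 hS x y hN ω σ b]
    refine Finset.sum_congr rfl fun j _ => ?_
    rw [hιe]

end

end Pool.Agent.Lib.MP_ae0f86_nt
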