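import Pool.Agent.Lib.MP_ae0f86_nt.StmD2

/-!
# MP_ae0f86_nt : piece `twisteqv`
-/

set_option autoImplicit false

universe w v u

open CategoryTheory CategoryTheory.Limits Opposite MonoidalCategory

namespace Pool.Agent.Lib.MP_ae0f86_nt

noncomputable section

/-- Multiplication by a line generated by a unit preserves the dimension. -/
private theorem twisteqv_rank {K : Type} [Field K] {R : Type w} [CommRing R] [Algebra K R]
    (V : Submodule K R) {x : R} (hx : IsUnit x) :
    Module.finrank K ↥(V * Submodule.span K {x}) = Module.finrank K V := by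
  have hb : Function.Bijective (LinearMap.mulLeft K x) := by
    refine ⟨fun a b h => ?_, fun b => ?_⟩
    · exact hx.mul_left_cancel h
    · obtain ⟨y, hy⟩ := hx.exists_right_inv
      refine ⟨y * b, ?_⟩
      rw [LinearMap.mulLeft_apply, ← mul_assoc, hy, one_mul]
  have e : V * Submodule.span K {x} = V.map (LinearEquiv.ofBijective _ hb).toLinearMap := by
    ext z
    rw [mul_comm V, Submodule.mem_span_singleton_mul, Submodule.mem_map]
    rfl
  rw [e]
  exact LinearEquiv.finrank_map_eq (LinearEquiv.ofBijective _ hb) V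

variable {A : Type u} [Category.{v} A] [Abelian A] [MonoidalCategory A] [SymmetricCategory A]

/-- the fibres of an invertible object are lines -/
private theorem twisteqv_line {F : Type} [Field F] (H : A ⥤ ModuleCat.{0} F) [FibreFunctor H]
    {L L' : A} (i : L ⊗ L' ≅ 𝟙_ A) : Module.finrank F (H.obj L) = 1 := by
  have e1 := (LinearEquiv.ofBijective _ (FibreFunctor.bij (H := H) L L')).finrank_eq
  have e2 := ((H.mapIso i).toLinearEquiv).finrank_eq
  have hb : Function.Bijective
      (LinearMap.toSpanSingleton F (H.obj (𝟙_ A)) (FibreFunctor.one (H := H))) :=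
    FibreFunctor.one_bij (H := H)
  have e3 := (LinearEquiv.ofBijective _ hb).finrank_eq
  rw [Module.finrank_self] at e3
  rw [Module.finrank_tensorProduct] at e1
  have e4 : Module.finrank F (H.obj L) * Module.finrank F (H.obj L') = 1 := by
    rw [e1, e2, ← e3]
  exact Nat.eq_one_of_mul_eq_one_right e4

private theorem twisteqv_fw {K : Type} [Field K] (H : A ⥤ ModuleCat.{0} K)
    (HB : A ⥤ ModuleCat.{0} ℚ) [FibreFunctor H] [FibreFunctor HB] (h4 : S_arel H HB)
    {S : A → Prop} {L L' : A} (hL : S L) (i : L ⊗ L' ≅ 𝟙_ A) (ω : H.obj L)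
    (σ : Module.Dual ℚ (HB.obj L)) (h0 : asym H HB hL ω σ ≠ 0) :
    fw H HB hL = Submodule.span K {asym H HB hL ω σ} := by
  obtain ⟨r1, r2, r3, r4, r5, r6, r7⟩ := h4 S
  have hω : ω ≠ 0 := by
    rintro rfl
    exact h0 (r6 hL σ)
  have hσ : σ ≠ 0 := by
    rintro rfl
    exact h0 (r7 hL ω)
  have hd : Module.finrank ℚ (Module.Dual ℚ (HB.obj L)) = 1 := by
    rw [Subspace.dual_finrank_eq, twisteqv_line HB i]
  apply le_antisymm
  · rw [fw, Submodule.span_le]
    rintro r ⟨η, τ, rfl⟩
    obtain ⟨a, rfl⟩ := exists_smul_eq_of_finrank_eq_one (twisteqv_line H i) hω η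
    obtain ⟨q, rfl⟩ := exists_smul_eq_of_finrank_eq_one hd hσ τ
    rw [SetLike.mem_coe, r2, r4]
    exact Submodule.smul_mem _ _ (Submodule.smul_mem _ _ (Submodule.mem_span_singleton_self _))
  · rw [Submodule.span_singleton_le_iff_mem]
    exact Submodule.subset_span ⟨ω, σ, rfl⟩

theorem e_twisteqv {A : Type u} [Category.{v} A] [Abelian A] [MonoidalCategory A]
    [SymmetricCategory A] [RigidCategory A] {HdR : A ⥤ ModuleCat.{0} QBar}
    {HB : A ⥤ ModuleCat.{0} ℚ} [FibreFunctor HdR] [FibreFunctor HB] (c : Comparison HdR HB)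
    (h1 : S_fwtop c) (h2 : S_fwprod HdR HB) (h3 : S_lef (A := A)) (h4 : S_arel HdR HB) :
    S_twisteqv c := by
  intro _ L L' W i e
  obtain ⟨ω, σ, hu⟩ := h3 HdR HB L L' i
  have hnt : Nontrivial (PerAlg HdR HB (fun _ : A => True)) :=
    (c.evAlg (fun _ : A => True)).toRingHom.domain_nontrivial
  have hL := twisteqv_fw HdR HB h4 (S := fun _ : A => True) (L := L) trivial i ω σ hu.ne_zero
  generalize asym HdR HB (S := fun _ : A => True) (N := L) trivial ω σ = l at hu hL
  have hp : ∀ n : ℕ, fw HdR HB (S := fun _ : A => True) (W := tpow L n) trivial =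
      Submodule.span QBar {l ^ n} := by
    intro n
    induction n with
    | zero =>
      rw [pow_zero, ← Submodule.one_eq_span]
      exact h2.2 (S := fun _ : A => True) trivial
    | succ n ih =>
      have h5 := h2.1 (S := fun _ : A => True) (M := tpow L n) (N := L) trivial trivial trivial
      rw [ih, hL, Submodule.span_mul_span, Set.singleton_mul_singleton, ← pow_succ] at h5
      exact h5
  have hW := h2.1 (S := fun _ : A => True) (M := W) (N := tpow L e) trivial trivial trivial
  rw [hp e] at hW
  rw [(h1 _).1, (h1 _).2, (h1 W).1, (h1 W).2, hW]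
  refine ⟨twisteqv_rank _ (hu.pow e), ?_⟩
  have h6 : (fw HdR HB (S := fun _ : A => True) (W := W) trivial *
      Submodule.span QBar {l ^ e}).map (c.evAlg (fun _ : A => True)).toLinearMap =
      (fw HdR HB (S := fun _ : A => True) (W := W) trivial).map
        (c.evAlg (fun _ : A => True)).toLinearMap *
      Submodule.span QBar {c.evAlg (fun _ : A => True) (l ^ e)} := by
    rw [Submodule.map_mul, Submodule.map_span, Set.image_singleton]
    rfl
  rw [h6]
  exact twisteqv_rank _ ((hu.pow e).map (c.evAlg (fun _ : A => True)))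

end

end Pool.Agent.Lib.MP_ae0f86_nt
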