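import Pool.Agent.Lib.MP_ae0f86_nt.StmD3

/-!
# MP_ae0f86_nt : piece vans
-/

set_option autoImplicit false

universe w v u

open CategoryTheory CategoryTheory.Limits Opposite MonoidalCategory

namespace Pool.Agent.Lib.MP_ae0f86_nt

theorem f_vans {A : Type u} [Category.{v} A] [Abelian A] [MonoidalCategory A]
    [SymmetricCategory A] (h1 : S_vanish (A := A)) (h2 : S_fpring (A := A))
    (h3 : S_algrel (A := A)) : S_vans (A := A) := by
  intro K _ _ H HB _ _ _ S hS N hN ω σ h
  have e1 := (h3 H HB S).1 hN ω σ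
  rw [h, ← map_zero (toPerAlg H HB S)] at e1
  have e2 : sym H HB hN ω σ = 0 := (h2 H HB S hS).injective e1
  have e3 : sym H HB (S := fun _ : A => True) (N := N) trivial ω σ = 0 := by
    have e4 := congrArg (fpMap H HB (S := S) (S' := fun _ : A => True) (fun _ _ => trivial)) e2
    rw [map_zero] at e4
    rw [← e4]
    unfold sym fpMap
    rw [Submodule.mapQ_apply, Finsupp.lmapDomain_apply, Finsupp.mapDomain_single]
    rfl
  exact (h1 H HB (fun M => FibreFunctor.finite M) ω σ).1 e3

end Pool.Agent.Lib.MP_ae0f86_nt
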