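import Pool.Agent.Lib.MP_ae0f86_nt.Main
import Pool.Agent.Lib.MP_ae0f86_nt.P.Domall
import Pool.Agent.Lib.MP_ae0f86_nt.P.Domfam
import Pool.Agent.Lib.MP_ae0f86_nt.P.Domraise
import Pool.Agent.Lib.MP_ae0f86_nt.P.Domprod
import Pool.Agent.Lib.MP_ae0f86_nt.P.Subtens
import Pool.Agent.Lib.MP_ae0f86_nt.P.Prodsub
import Pool.Agent.Lib.MP_ae0f86_nt.D.Abssub
import Pool.Agent.Lib.MP_ae0f86_nt.D.Arel
import Pool.Agent.Lib.MP_ae0f86_nt.D.Attain
import Pool.Agent.Lib.MP_ae0f86_nt.D.Base2
import Pool.Agent.Lib.MP_ae0f86_nt.D.Comps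
import Pool.Agent.Lib.MP_ae0f86_nt.D.Cubic2
import Pool.Agent.Lib.MP_ae0f86_nt.D.Cut
import Pool.Agent.Lib.MP_ae0f86_nt.D.Cut2
import Pool.Agent.Lib.MP_ae0f86_nt.D.Decdom
import Pool.Agent.Lib.MP_ae0f86_nt.D.Decomp
import Pool.Agent.Lib.MP_ae0f86_nt.D.Dimdec
import Pool.Agent.Lib.MP_ae0f86_nt.D.Dims
import Pool.Agent.Lib.MP_ae0f86_nt.D.Evcut
import Pool.Agent.Lib.MP_ae0f86_nt.D.Finval
import Pool.Agent.Lib.MP_ae0f86_nt.D.Finpart
import Pool.Agent.Lib.MP_ae0f86_nt.D.Freq
import Pool.Agent.Lib.MP_ae0f86_nt.D.Fwdim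
import Pool.Agent.Lib.MP_ae0f86_nt.D.Fwev
import Pool.Agent.Lib.MP_ae0f86_nt.D.Fwfin
import Pool.Agent.Lib.MP_ae0f86_nt.D.Fwgen2
import Pool.Agent.Lib.MP_ae0f86_nt.D.Fwlin
import Pool.Agent.Lib.MP_ae0f86_nt.D.Fwprod
import Pool.Agent.Lib.MP_ae0f86_nt.D.Fwtop
import Pool.Agent.Lib.MP_ae0f86_nt.D.Galdesc
import Pool.Agent.Lib.MP_ae0f86_nt.D.Gentate
import Pool.Agent.Lib.MP_ae0f86_nt.D.Geoz
import Pool.Agent.Lib.MP_ae0f86_nt.D.Gklow2
import Pool.Agent.Lib.MP_ae0f86_nt.D.Gkup
import Pool.Agent.Lib.MP_ae0f86_nt.D.Grown2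
import Pool.Agent.Lib.MP_ae0f86_nt.D.Growp2
import Pool.Agent.Lib.MP_ae0f86_nt.D.Herdim
import Pool.Agent.Lib.MP_ae0f86_nt.D.Hilb
import Pool.Agent.Lib.MP_ae0f86_nt.D.Homfin
import Pool.Agent.Lib.MP_ae0f86_nt.D.Injdim
import Pool.Agent.Lib.MP_ae0f86_nt.D.Injdim2
import Pool.Agent.Lib.MP_ae0f86_nt.D.Intspan
import Pool.Agent.Lib.MP_ae0f86_nt.D.Kuneqv
import Pool.Agent.Lib.MP_ae0f86_nt.D.Lineqv
import Pool.Agent.Lib.MP_ae0f86_nt.D.Minrep
import Pool.Agent.Lib.MP_ae0f86_nt.D.Nfpos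
import Pool.Agent.Lib.MP_ae0f86_nt.D.Pdec
import Pool.Agent.Lib.MP_ae0f86_nt.D.Perm
import Pool.Agent.Lib.MP_ae0f86_nt.D.Poseqv
import Pool.Agent.Lib.MP_ae0f86_nt.D.Powq
import Pool.Agent.Lib.MP_ae0f86_nt.D.Qprod
import Pool.Agent.Lib.MP_ae0f86_nt.D.Ratio
import Pool.Agent.Lib.MP_ae0f86_nt.D.Stepa
import Pool.Agent.Lib.MP_ae0f86_nt.D.Stepb
import Pool.Agent.Lib.MP_ae0f86_nt.D.Trans
import Pool.Agent.Lib.MP_ae0f86_nt.D.Trans2
import Pool.Agent.Lib.MP_ae0f86_nt.D.Twisteqv
import Pool.Agent.Lib.MP_ae0f86_nt.D.Unitq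
import Pool.Agent.Lib.MP_ae0f86_nt.D.Vans
import Pool.Agent.Lib.MP_ae0f86_nt.D.CubicLaw
import Pool.Agent.Lib.MP_ae0f86_nt.Density

/-!
# MP_ae0f86_nt : assembly of the density theorems
-/

open CategoryTheory CategoryTheory.Limits MvPolynomial Opposite MonoidalCategory

universe w v u

namespace Pool.Agent.Lib.MP_ae0f86_nt

noncomputable section

attribute [local instance] CategoryTheory.Abelian.hasFiniteBiproducts

section Lin0

variable {A : Type u} [Category.{v} A] [Abelian A]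

theorem a_subq : S_subq A := p_subq

theorem a_subsum : S_subsum A := p_subsum a_subq

theorem a_lincl : S_lincl A := p_lincl a_subq a_subsum

theorem a_endbetti : S_endbetti A := p_endbetti a_subq

theorem a_univ (HB : A ⥤ ModuleCat.{0} ℚ) : S_univ HB := p_univ HB a_subq

variable {K : Type} [Field K] (H : A ⥤ ModuleCat.{0} K) (HB : A ⥤ ModuleCat.{0} ℚ)

theorem a_fprel : S_fprel H HB := p_fprel H HB

theorem a_single : S_single H HB := p_single H HB (a_fprel H HB)

theorem a_psi : S_psi H HB := p_psi H HB (a_fprel H HB) (a_single H HB) a_lincl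

theorem a_fincat : S_fincat H HB := p_fincat H HB a_lincl

theorem a_heredity : S_heredity H HB :=
  p_heredity H HB (a_fprel H HB) (a_single H HB) (a_univ HB) (a_psi H HB) (a_fincat H HB)

end Lin0

section Ten0

variable {A : Type u} [Category.{v} A] [Abelian A] [MonoidalCategory A] [SymmetricCategory A]

theorem a_algrel : S_algrel (A := A) := p_algrel

theorem a_fpring : S_fpring (A := A) :=
  p_fpring (fun H HB => a_fprel H HB) (fun H HB => a_single H HB) a_algrel

theorem a_lef : S_lef (A := A) := p_lef a_algrel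

theorem a_vanish : S_vanish (A := A) :=
  p_vanish (fun H HB => a_fprel H HB) (fun HB => a_univ HB) (fun H HB => a_psi H HB)
    (fun H HB => a_fincat H HB)

theorem a_fwev : S_fwev (A := A) := d_fwev

theorem a_vans : S_vans (A := A) := f_vans a_vanish a_fpring a_algrel

variable {K : Type} [Field K] (H : A ⥤ ModuleCat.{0} K) (HB : A ⥤ ModuleCat.{0} ℚ)
  [FibreFunctor H] [FibreFunctor HB]

theorem a_arel : S_arel H HB := d_arel H HB (a_fprel H HB) a_algrel

theorem a_fwfin : S_fwfin H HB := d_fwfin H HB (a_arel H HB)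

theorem a_fwlin : S_fwlin H HB := d_fwlin H HB (a_arel H HB) a_lincl

theorem a_fwprod : S_fwprod H HB := d_fwprod H HB (a_arel H HB) a_algrel

theorem a_minrep : S_minrep HB :=
  f_minrep HB (a_single HB HB) a_fpring a_algrel (a_arel HB HB)

omit [FibreFunctor H] [FibreFunctor HB] in
theorem a_fwdim : S_fwdim (A := A) :=
  d_fwdim (fun HB => a_univ HB) (fun H HB => a_psi H HB) p_rank a_endbetti a_lincl
    (fun H HB => a_heredity H HB) a_fpring a_algrel (fun H HB => a_fwlin H HB)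

variable [RigidCategory A]

omit [FibreFunctor H] [FibreFunctor HB] in
theorem a_genclosed : S_genclosed (A := A) := p_genclosed a_subq a_subsum

theorem a_xmat : S_xmat H HB := p_xmat H HB (p_dualbasis H) (p_dualbasis HB) a_algrel

theorem a_gens : S_gens H HB := p_gens H HB (a_xmat H HB) a_algrel a_genclosed

theorem a_fintype : S_fintype H HB := p_fintype H HB (a_gens H HB)

theorem a_fwgen2 : S_fwgen2 H HB :=
  e_fwgen2 H HB (a_fwprod H HB) (a_fwlin H HB) (a_gens H HB) a_genclosed (a_xmat H HB)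
    (a_arel H HB)

variable [CharZero K]

theorem a_pointbij : S_pointbij H HB := p_pointbij H HB (a_xmat H HB)

theorem a_theta : S_theta H HB := p_theta H HB (a_pointbij H HB) a_algrel

theorem a_phi : S_phi H HB := p_phi H HB (a_theta H HB) (p_points H HB) a_algrel

theorem a_base : S_base H HB :=
  p_base H HB (a_pointbij H HB) (p_points HB HB) (p_points H HB) a_algrel

theorem a_trans : S_trans H HB :=
  d_trans H HB (a_pointbij H HB) (p_points H HB) a_algrel (a_arel H HB)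

theorem a_base2 : S_base2 H HB :=
  f_base2 H HB (a_pointbij H HB) (p_points HB HB) (p_points H HB) a_algrel (a_arel H HB)

theorem a_trans2 : S_trans2 H HB :=
  f_trans2 H HB (a_pointbij H HB) (p_points H HB) a_algrel (a_arel H HB)

end Ten0

section Per0

variable {A : Type u} [Category.{v} A] [Abelian A] [MonoidalCategory A] [SymmetricCategory A]
  [RigidCategory A] {HdR : A ⥤ ModuleCat.{0} QBar} {HB : A ⥤ ModuleCat.{0} ℚ}
  [FibreFunctor HdR] [FibreFunctor HB]

theorem a_cartier : S_cartier.{w} := p_cartier p_lead p_leadphi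

theorem a_fgdim : S_fgdim.{w} := p_fgdim p_intdim

theorem a_cut : S_cut.{w} := d_cut d_decdom

theorem a_cut2 : S_cut2.{w} := e_cut2 d_decdom

theorem a_injdim : S_injdim.{w} := d_injdim d_decdom a_fgdim p_surjdim

theorem a_grown2 : S_grown2.{w} := e_grown2 d_gkup e_gklow2 a_cut a_cut2 d_decdom

theorem a_growp2 : S_growp2.{w} := e_growp2 d_gkup e_gklow2

variable (HdR HB) in
theorem a_pdec : S_pdec HdR HB :=
  d_pdec d_decomp a_cartier (a_phi HdR HB) p_nullst (a_fintype HdR HB) a_genclosed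

variable (HdR HB) in
theorem a_perm : S_perm HdR HB :=
  d_perm (a_trans HdR HB) p_nullst (a_fintype HdR HB) a_genclosed d_decdom

theorem a_perfield (c : Comparison HdR HB) : S_perfield c :=
  p_perfield c (a_gens HdR HB) (a_xmat HdR HB)

theorem a_basedim : S_basedim (HdR := HdR) (HB := HB) :=
  p_basedim (a_base HdR HB) (a_fintype HdR HB) p_nullst p_intdim a_genclosed

theorem a_q1 (c : Comparison HdR HB) : S_q1 c :=
  p_q1 c (p_domain p_conn a_cartier (a_phi HdR HB) p_nullst (a_fintype HdR HB) a_genclosed)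
    a_basedim (a_perfield c) p_trdeg a_fgdim a_fgdim p_surjdim (a_fintype HdR HB)

theorem a_dims (c : Comparison HdR HB) : S_dims c :=
  d_dims c d_dimdec d_decdom a_fgdim a_fgdim a_basedim p_trdeg (a_perfield c)
    (a_fintype HdR HB) (a_perm HdR HB) d_evcut

theorem a_herdim (c : Comparison HdR HB) : S_herdim c :=
  e_herdim c e_abssub a_injdim (e_injdim2 d_decdom) (a_dims c) d_comps (a_pdec HdR HB)
    (a_perm HdR HB) d_evcut (a_heredity HdR HB) a_fpring (a_single HdR HB) a_algrel a_genclosed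
    (p_points HdR HB) (a_arel HdR HB) (a_fintype HdR HB)

theorem a_fwtop (c : Comparison HdR HB) : S_fwtop c := e_fwtop c a_fwdim a_fwev a_genclosed

theorem a_lineqv (c : Comparison HdR HB) : S_lineqv c :=
  e_lineqv c (a_fwtop c) (a_fwlin HdR HB) a_genclosed (a_fwfin HdR HB)

theorem a_twisteqv (c : Comparison HdR HB) : S_twisteqv c :=
  e_twisteqv c (a_fwtop c) (a_fwprod HdR HB) a_lef (a_arel HdR HB)

variable (HdR HB) in
theorem a_stepa : S_stepa HdR HB :=
  f_stepa (a_base2 HdR HB) (a_trans HdR HB) f_intspan f_homfin (f_finval p_nullst) a_vans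
    p_nullst (a_fintype HdR HB) (a_pdec HdR HB) a_genclosed (a_arel HdR HB)

variable (HdR HB) in
theorem a_stepb : S_stepb HdR HB :=
  f_stepb (a_base2 HdR HB) (a_trans2 HdR HB) f_intspan f_homfin (f_finval p_nullst) a_vans
    p_nullst (a_fintype HdR HB) (a_pdec HdR HB) a_genclosed (a_arel HdR HB) (a_arel HB HB)

variable (HdR HB) in
theorem a_finpart : S_finpart HdR HB :=
  f_finpart (a_base2 HdR HB) f_intspan f_galdesc (a_minrep HB) (a_stepa HdR HB)
    (a_stepb HdR HB) (a_fwlin HdR HB) (a_arel HdR HB) (a_arel HB HB) p_nullst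
    (a_fintype HdR HB) a_genclosed a_lincl

theorem a_attain (c : Comparison HdR HB) : S_attain c :=
  f_attain c (a_finpart HdR HB) (a_pdec HdR HB) d_comps a_fwdim a_fwev d_evcut a_genclosed

theorem a_law [Linear ℚ A] (c : Comparison HdR HB) (M : A) (hM : Lin M (𝟙_ A)) : LawFor c M :=
  law c M hM d_hilb d_comps a_cut a_cut2 d_evcut a_injdim a_grown2 a_growp2 d_ratio d_freq
    (a_fwfin HdR HB) (a_fwgen2 HdR HB) a_fwdim a_fwev (a_pdec HdR HB) (a_perm HdR HB) (a_dims c)
    (a_fintype HdR HB) a_genclosed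

end Per0

section Geo0

variable {A : Type u} [Category.{v} A] [Abelian A] [MonoidalCategory A]
  [MonoidalPreadditive A] [SymmetricCategory A] (T : CohTheory QBar A)

theorem a_smprod : S_smprod QBar := p_smprod p_cutcard

theorem a_smgm : S_smgm QBar := p_smgm p_cutcard

theorem a_quadrics : S_quadrics :=
  p_quadrics (p_descent p_fin (p_orbit p_autext) p_conj p_cutcard) (p_slp p_slpext)
    (p_smgraph p_cutcard) p_smreindex

theorem a_k2 : S_k2 T :=
  p_k2 T (p_zero T) (p_exc T) (p_contract T (p_zero T) (p_exc T) (p_sect T) (p_triB T))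

theorem a_snc : S_snc T := by
  have hcut : S_cutcard QBar := p_cutcard
  have hblowcut : S_blowcut QBar := p_blowcut hcut
  have hdivX : S_divX QBar := p_divX hblowcut
  have hdivY : S_divY QBar := p_divY hcut
  have hstrata : S_strata QBar := p_strata hcut
  have hblow : S_blow QBar := p_blow hblowcut
  have absD : S_absD T := p_absD T (p_homot T (p_sect T))
  have abs : S_abs T := p_abs T (p_exc T) absD (p_thomQI T) (p_triA T) hdivX hdivY
  have rel : S_rel T := p_rel T (p_exc T) (p_triB T) abs hstrata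
  exact p_snc T hblow (p_push T hblow (a_k2 T) rel hstrata) (p_tensmono T)

theorem a_gmsub : S_gmsub T := p_gmsub T (a_k2 T)

theorem a_subtens : S_subtens T := p_subtens T (p_tensmono T) a_subq a_subsum

theorem a_domall : S_domall T :=
  p_domall T (p_domfam T (p_domraise T (a_gmsub T) (a_subtens T) a_subsum a_subq (p_twist T))
    (p_domprod T (p_prodsub T) a_subsum a_subq) a_smprod a_smgm (p_twist T) (p_zero T) a_subsum)
    (a_snc T) (p_twist T) a_subq a_subsum (a_subtens T)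

theorem a_unitq : S_unitq T := e_unitq T (p_prodsub T)

theorem a_geoz : S_geoz T :=
  e_geoz T (a_domall T) a_quadrics (p_clopen T (p_exc T)) (a_gmsub T) (p_prodsub T) a_smgm
    p_smreindex (a_unitq T) (a_subtens T) a_subsum a_subq (p_twist T) a_lincl

theorem a_poseqv : S_poseqv T := e_poseqv T (e_cubic2 T) a_subsum a_subq (a_subtens T)

theorem a_qprod : S_qprod T :=
  e_qprod T a_smprod p_smreindex (e_kuneqv T a_subsum a_subq) a_lincl a_subq a_subsum

end Geo0

section Final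

variable {A : Type u} [Category.{v} A] [Abelian A] [Linear ℚ A] [MonoidalCategory A]
  [SymmetricCategory A] [RigidCategory A] {HdR : A ⥤ ModuleCat.{0} QBar}
  {HB : A ⥤ ModuleCat.{0} ℚ} [FibreFunctor HdR] [FibreFunctor HB]

theorem a_cubicdensity [MonoidalPreadditive A] (T : CohTheory QBar A) (c : Comparison HdR HB)
    (hK : T.Kunneth) :
    (∀ δ : ℝ, 0 < δ → (CubicDensity T c δ ↔
      ∀ M : A, DimFormula c M ∧ δ * (ncomp HdR HB M : ℝ) ≤ 1)) ∧
    ((∀ M : A, PeriodConjecture c M) ↔ ∃ δ : ℝ, 1 / 2 < δ ∧ CubicDensity T c δ) :=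
  cubicdensity T c hK (a_law c) (a_fwtop c) (a_lineqv c) (a_twisteqv c) (a_herdim c) e_gentate
    (a_unitq T) (a_poseqv T) (a_geoz T)
    (e_powq T HdR HB (a_qprod T) (a_fwlin HdR HB) (a_fwprod HdR HB) a_genclosed) a_genclosed
    (p_twist T) a_lincl d_comps (a_pdec HdR HB) (a_dims c)

end Final

end

end Pool.Agent.Lib.MP_ae0f86_nt
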