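import Pool.Agent.Lib.MP_ae0f86_nt.StmD

set_option autoImplicit false

universe w v u

open CategoryTheory CategoryTheory.Limits Opposite MonoidalCategory

namespace Pool.Agent.Lib.MP_ae0f86_nt

theorem d_comps : S_comps.{w} := by
  intro R _ r e h
  classical
  -- the index of a point
  have hidx : ∀ p : PrimeSpectrum R, ∃ i, e i ∉ p.asIdeal := by
    intro p
    by_contra hn
    push Not at hn
    have h1 : ∑ i, e i ∈ p.asIdeal := Ideal.sum_mem _ fun i _ => hn i
    rw [h.sum] at h1
    exact p.isPrime.ne_top ((Ideal.eq_top_iff_one _).mpr h1)
  choose idx hidx using hidx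
  have huniq : ∀ (p : PrimeSpectrum R) (i : Fin r), e i ∉ p.asIdeal → idx p = i := by
    intro p i hi
    by_contra hne
    have h0 : e (idx p) * e i ∈ p.asIdeal := by
      rw [h.orth _ _ hne]
      exact p.asIdeal.zero_mem
    rcases p.isPrime.mem_or_mem h0 with h' | h'
    · exact hidx p h'
    · exact hi h'
  have hcont : Continuous idx := by
    rw [continuous_discrete_rng]
    intro i
    have : idx ⁻¹' {i} = (PrimeSpectrum.basicOpen (e i) : Set (PrimeSpectrum R)) := by
      ext p
      simp only [Set.mem_preimage, Set.mem_singleton_iff, SetLike.mem_coe, PrimeSpectrum.mem_basicOpen]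
      constructor
      · rintro rfl
        exact hidx p
      · exact huniq p i
    rw [this]
    exact (PrimeSpectrum.basicOpen (e i)).isOpen
  -- the generic points
  have hgen : ∀ i : Fin r, ∃ p : PrimeSpectrum R, ∀ a, a ∈ p.asIdeal ↔ e i * a = 0 := by
    intro i
    let I : Ideal R :=
      { carrier := {a | e i * a = 0}
        zero_mem' := by simp
        add_mem' := by
          intro a b ha hb
          simp only [Set.mem_ofPred_eq] at ha hb ⊢
          rw [mul_add, ha, hb, add_zero]
        smul_mem' := by
          intro c a ha
          simp only [Set.mem_ofPred_eq, smul_eq_mul] at ha ⊢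
          linear_combination c * ha }
    have hI : I.IsPrime := by
      refine ⟨fun htop => ?_, fun {a b} hab => h.dom i a b hab⟩
      have h1 : (1 : R) ∈ I := by
        rw [htop]
        exact Submodule.mem_top
      have h2 : e i * 1 = 0 := h1
      rw [mul_one] at h2
      exact h.ne i h2
    exact ⟨⟨I, hI⟩, fun a => Iff.rfl⟩
  choose g hg using hgen
  have hgi : ∀ i, idx (g i) = i := by
    intro i
    apply huniq
    rw [hg, h.idem]
    exact h.ne i
  have hspec : ∀ p : PrimeSpectrum R, p ∈ connectedComponent (g (idx p)) := by
    intro p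
    have hle : g (idx p) ≤ p := by
      intro a ha
      have ha' : e (idx p) * a = 0 := (hg _ _).mp ha
      have h0 : e (idx p) * a ∈ p.asIdeal := by
        rw [ha']
        exact p.asIdeal.zero_mem
      exact (p.isPrime.mem_or_mem h0).resolve_left (hidx p)
    have hs : g (idx p) ⤳ p := (PrimeSpectrum.le_iff_specializes _ _).mp hle
    have hpre : _root_.IsPreconnected (closure {g (idx p)}) := isPreconnected_singleton.closure
    exact hpre.subset_connectedComponent (subset_closure (Set.mem_singleton _)) (specializes_iff_mem_closure.mp hs)
  have hcc : ∀ p q : PrimeSpectrum R, idx p = idx q → connectedComponent p = connectedComponent q := by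
    intro p q hpq
    have h1 := connectedComponent_eq (hspec p)
    have h2 := connectedComponent_eq (hspec q)
    rw [← h1, ← h2, hpq]
  let F : _root_.ConnectedComponents (PrimeSpectrum R) → Fin r := hcont.connectedComponentsLift
  have hF : ∀ p : PrimeSpectrum R, F (p : _root_.ConnectedComponents (PrimeSpectrum R)) = idx p := fun p => rfl
  have hbij : Function.Bijective F := by
    constructor
    · intro x y hxy
      obtain ⟨p, rfl⟩ := ConnectedComponents.surjective_coe x
      obtain ⟨q, rfl⟩ := ConnectedComponents.surjective_coe y
      rw [hF, hF] at hxy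
      exact ConnectedComponents.coe_eq_coe.mpr (hcc p q hxy)
    · intro i
      exact ⟨(g i : _root_.ConnectedComponents (PrimeSpectrum R)), (hF _).trans (hgi i)⟩
  let E := Equiv.ofBijective F hbij
  have hfin : Finite (_root_.ConnectedComponents (PrimeSpectrum R)) := Finite.of_equiv _ E.symm
  have hcard : Nat.card (_root_.ConnectedComponents (PrimeSpectrum R)) = r := by
    rw [Nat.card_congr E]
    simp
  refine ⟨hfin, hcard, ?_, ?_⟩
  · intro hconn
    rw [← hcard, Nat.card_eq_one_iff_unique]
    obtain ⟨p⟩ := hconn.toNonempty
    exact ⟨inferInstance, ⟨(p : _root_.ConnectedComponents (PrimeSpectrum R))⟩⟩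
  · rintro rfl
    have : Nonempty (PrimeSpectrum R) := ⟨g 0⟩
    have : PreconnectedSpace (PrimeSpectrum R) := by
      rw [preconnectedSpace_iff_connectedComponent]
      intro p
      ext q
      simp only [Set.mem_univ, iff_true]
      rw [hcc p q (Subsingleton.elim _ _)]
      exact mem_connectedComponent
    exact ⟨inferInstance⟩

end Pool.Agent.Lib.MP_ae0f86_nt
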