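import Pool.Agent.Lib.MP_ae0f86_nt.D.AsmD

/-!
# MP_ae0f86_nt : the density law and the density criterion for cubics

The two final theorems, in terms of the readable definitions of
`Periods.lean`, `Theory.lean`, `Pairs.lean` and `Density.lean`.
-/

open CategoryTheory CategoryTheory.Limits MvPolynomial Opposite MonoidalCategory

universe w v u

namespace Pool.Agent.Lib.MP_ae0f86_nt

noncomputable section

attribute [local instance] CategoryTheory.Abelian.hasFiniteBiproducts

section DensityFinal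

variable {A : Type u} [Category.{v} A] [Abelian A] [Linear ℚ A] [MonoidalCategory A]
  [SymmetricCategory A] [RigidCategory A] {HdR : A ⥤ ModuleCat.{0} QBar}
  {HB : A ⥤ ModuleCat.{0} ℚ} [FibreFunctor HdR] [FibreFunctor HB]

theorem densityLaw (c : Comparison HdR HB) (M T : A) (hT : Gen M T) (hM : Gen T M)
    (h1 : Lin T (𝟙_ A)) :
    ∃ r g t : ℕ, 1 ≤ r ∧ t ≤ g ∧
      Finite (_root_.ConnectedComponents (PrimeSpectrum (PerAlg HdR HB (Gen M)))) ∧
      components HdR HB M = r ∧
      ringKrullDim (PerAlg HB HB (Gen M)) = g ∧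
      Algebra.trdeg ℚ (IntermediateField.adjoin ℚ (c.Per M)) = (t : Cardinal) ∧
      (∃ a b : ℝ, 0 < a ∧ ∀ n : ℕ,
        a * ((n : ℝ) + 1) ^ g ≤ expected HB (tpow T n) ∧
        (expected HB (tpow T n) : ℝ) ≤ b * ((n : ℝ) + 1) ^ g ∧
        a * ((n : ℝ) + 1) ^ t ≤ independent c (tpow T n) ∧
        (independent c (tpow T n) : ℝ) ≤ b * ((n : ℝ) + 1) ^ t) ∧
      (t = g → (∃ C : ℝ, ∀ n : ℕ,
          (1 : ℝ) / r ≤ (independent c (tpow T n) : ℝ) / expected HB (tpow T n) ∧
          (independent c (tpow T n) : ℝ) / expected HB (tpow T n) ≤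
            1 / r + C / ((n : ℝ) + 1)) ∧
        ∀ W : A, Gen M W → expected HB W ≤ r * independent c W) ∧
      Filter.Tendsto (fun n => (independent c (tpow T n) : ℝ) / expected HB (tpow T n))
        Filter.atTop (nhds (if t = g then (1 : ℝ) / r else 0)) ∧
      (∃ U : A, Gen M U ∧ expected HB U = r ∧ independent c U = 1) ∧
      (DimensionFormula c M ↔ ∃ δ : ℝ, 0 < δ ∧
        ∃ᶠ n in Filter.atTop, δ * (expected HB (tpow T n) : ℝ) ≤ independent c (tpow T n)) ∧
      List.TFAE [
        PeriodConjecture c M,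
        ∃ δ : ℝ, 1 / 2 < δ ∧
          ∃ᶠ n in Filter.atTop, δ * (expected HB (tpow T n) : ℝ) ≤ independent c (tpow T n),
        ∀ W : A, Gen M W → ¬ IsZero W → expected HB W < 2 * independent c W] := by
  have gc : S_genclosed (A := A) := a_genclosed
  have hG : Gen M = Gen T := by
    funext N
    exact propext ⟨fun h => gc.2.2.2 T M N hM h, fun h => gc.2.2.2 M T N hT h⟩
  obtain ⟨r, g, t, hr, htg, hfin, hnc, hg, ht, hab, hlim, htend, hdf, hdf2, hpc, hpc2⟩ :=
    a_law c T h1
  have htr : Algebra.trdeg ℚ (IntermediateField.adjoin ℚ (c.Per M)) = (t : Cardinal) := by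
    rw [← ht, ← p_trdeg (c.Per M) (c.evAlg (Gen M)).range (a_perfield c M).1
      (a_perfield c M).2, ← p_trdeg (c.Per T) (c.evAlg (Gen T)).range (a_perfield c T).1
      (a_perfield c T).2, hG]
  have hgM : ringKrullDim (PerAlg HB HB (Gen M)) = g := by rw [hG, hg]
  have hdM : DimensionFormula c M ↔ DimFormula c T := by
    rw [DimensionFormula, DimFormula, hgM, hg, htr, ht]
  have hq : PeriodConjecture c M ↔ PeriodConjecture c T := by
    rw [a_q1 c M, a_q1 c T, hG]
  have hncM : components HdR HB M = r := by rw [components, hG]; exact hnc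
  obtain ⟨U, hU1, hU2, hU3⟩ := a_attain c T
  have hUM : Gen M U := by rw [hG]; exact hU1
  have hUr : expected HB U = r := by rw [← hnc]; exact hU2
  have hNpos : ∀ k : ℕ, (0 : ℝ) < Nf HB (tpow T k) := fun k => by
    obtain ⟨a, b, ha, hab'⟩ := hab
    exact lt_of_lt_of_le (by positivity) (hab' k).1
  refine ⟨r, g, t, hr, htg, by rw [hG]; exact hfin, hncM, hgM, htr, hab, ?_, htend,
    ⟨U, hUM, hUr, hU3⟩, hdM.trans hdf2, ?_⟩
  · intro h
    refine ⟨(hlim h).1, fun W hW => (hlim h).2 W (by rw [← hG]; exact hW)⟩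
  · tfae_have 1 ↔ 2 := hq.trans hpc2
    tfae_have 1 → 3 := by
      intro h W hW hne
      obtain ⟨hr1, ht1⟩ := hpc.1 (hq.1 h)
      have h2 := (hlim ht1).2 W (by rw [← hG]; exact hW)
      have h3 := (f_nfpos c W).1 hne
      rw [hr1, one_mul] at h2
      show Nf HB W < 2 * Pf c W
      omega
    tfae_have 3 → 1 := by
      intro h
      have hUne : ¬ IsZero U := fun hz => by
        have := (f_nfpos c U).2 hz
        omega
      have h2 := h U hUM hUne
      rw [hUr, show independent c U = 1 from hU3] at h2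
      have hr1 : r = 1 := by omega
      rw [hq, hpc]
      refine ⟨hr1, ?_⟩
      by_contra hne
      rw [if_neg hne] at htend
      have h3 : ∀ k, (1 : ℝ) / 2 ≤ (Pf c (tpow T k) : ℝ) / Nf HB (tpow T k) := fun k => by
        have hz : ¬ IsZero (tpow T k) := fun hz => by
          have h4 := (f_nfpos c (tpow T k)).2 hz
          obtain ⟨a, b, ha, hab'⟩ := hab
          have h5 := (hab' k).2.2.1
          rw [h4] at h5
          have h6 : 0 < a * ((k : ℝ) + 1) ^ t := by positivity
          norm_num at h5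
          linarith
        have h4 := h (tpow T k) (by rw [hG]; exact genpow_mem T k) hz
        have h5 : (Nf HB (tpow T k) : ℝ) < 2 * Pf c (tpow T k) := by exact_mod_cast h4
        rw [le_div_iff₀ (hNpos k)]
        linarith
      have h6 := ge_of_tendsto htend (Filter.Eventually.of_forall h3)
      norm_num at h6
    tfae_finish

end DensityFinal

section CubicFinal

variable {A : Type u} [Category.{v} A] [Abelian A] [Linear ℚ A] [MonoidalCategory A]
  [MonoidalPreadditive A] [SymmetricCategory A] [RigidCategory A] {HdR : A ⥤ ModuleCat.{0} QBar}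
  {HB : A ⥤ ModuleCat.{0} ℚ} [FibreFunctor HdR] [FibreFunctor HB]

theorem cubicDensity (c : Comparison HdR HB) (T : CohTheory QBar A) (hK : T.KunnethFormula) :
    (∀ δ : ℝ, 0 < δ → List.TFAE [
      ∀ M : A, DimensionFormula c M ∧ δ * (components HdR HB M : ℝ) ≤ 1,
      ∀ W : A, δ * (expected HB W : ℝ) ≤ independent c W,
      DensityForCubics T c δ,
      DensityForSmoothCubics T c δ]) ∧
    List.TFAE [
      ∀ M : A, PeriodConjecture c M,
      ∃ δ : ℝ, 1 / 2 < δ ∧ DensityForCubics T c δ,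
      ∃ δ : ℝ, 1 / 2 < δ ∧ DensityForSmoothCubics T c δ] := by
  obtain ⟨hA, hB⟩ := a_cubicdensity T c hK
  have main : ∀ δ : ℝ, 0 < δ → List.TFAE [
      ∀ M : A, DimensionFormula c M ∧ δ * (components HdR HB M : ℝ) ≤ 1,
      ∀ W : A, δ * (expected HB W : ℝ) ≤ independent c W,
      DensityForCubics T c δ,
      DensityForSmoothCubics T c δ] := by
    intro δ hδ
    tfae_have 1 → 2 := by
      intro hall W
      have hlincl : S_lincl A := a_lincl
      have hM1 : Lin (𝟙_ A ⊞ W) (𝟙_ A) :=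
        (hlincl.1 (𝟙_ A ⊞ W)).sub (biprod.inl : 𝟙_ A ⟶ 𝟙_ A ⊞ W) (hlincl.2.1 _)
      have hGW : Gen (𝟙_ A ⊞ W) W := Gen.sub (biprod.inr : W ⟶ 𝟙_ A ⊞ W) Gen.base
      obtain ⟨r', g, t, hr', htg, hfin, hnc, hg, ht, -, hlim, htend, hdf, -, -, -⟩ :=
        a_law c (𝟙_ A ⊞ W) hM1
      obtain ⟨h1, h2⟩ := hall (𝟙_ A ⊞ W)
      have h3 := (hlim (hdf.1 h1)).2 W hGW
      rw [components] at h2
      rw [ncomp] at hnc
      rw [hnc] at h2
      have h4 : (Nf HB W : ℝ) ≤ r' * Pf c W := by exact_mod_cast h3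
      calc δ * (Nf HB W : ℝ) ≤ δ * (r' * Pf c W) := mul_le_mul_of_nonneg_left h4 hδ.le
        _ = (δ * r') * Pf c W := by ring
        _ ≤ 1 * Pf c W := mul_le_mul_of_nonneg_right h2 (by positivity)
        _ = Pf c W := one_mul _
    tfae_have 2 → 3 := fun h n r q _ => h _
    tfae_have 3 → 4 := fun h n r s q _ hq _ => h n r q hq
    tfae_have 4 → 1 := fun h => (hA δ hδ).1 h
    tfae_finish
  refine ⟨main, ?_⟩
  tfae_have 1 → 3 := fun h => hB.1 h
  tfae_have 3 → 1 := fun h => hB.2 h
  tfae_have 2 ↔ 3 := by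
    refine exists_congr fun δ => and_congr_right fun hδ => ?_
    exact (main δ (by linarith)).out 2 3
  tfae_finish

end CubicFinal

end

end Pool.Agent.Lib.MP_ae0f86_nt
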