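import Pool.Agent.Lib.MP_ae0f86_nt.StmD

/-!
# MP_ae0f86_nt : piece fwdim
-/

set_option autoImplicit false

universe w v u

open CategoryTheory CategoryTheory.Limits Opposite MonoidalCategory

namespace Pool.Agent.Lib.MP_ae0f86_nt

noncomputable section

attribute [local instance] CategoryTheory.Abelian.hasFiniteBiproducts

section

variable {A : Type u} [Category.{v} A] [Abelian A]

private theorem fwdim_fpMap_sym {K : Type} [Field K] (H : A ⥤ ModuleCat.{0} K)
    (HB : A ⥤ ModuleCat.{0} ℚ) {S S' : A → Prop} (h : ∀ N, S N → S' N) {N : A} (hN : S N)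
    (ω : H.obj N) (σ : Module.Dual ℚ (HB.obj N)) :
    fpMap H HB h (sym H HB hN ω σ) = sym H HB (h N hN) ω σ := by
  unfold fpMap sym
  rw [Submodule.mapQ_apply]
  simp [symbMap]

omit [Abelian A] in
private theorem fwdim_ind {K : Type} [Field K] (H : A ⥤ ModuleCat.{0} K)
    (HB : A ⥤ ModuleCat.{0} ℚ) {S : A → Prop} {V : Type*} [AddCommGroup V] [Module K V]
    (g : FP H HB S →ₗ[K] V) (F : Submodule K V)
    (hg : ∀ {N : A} (hN : S N) (ω : H.obj N) (σ : Module.Dual ℚ (HB.obj N)),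
      g (sym H HB hN ω σ) ∈ F) (x : FP H HB S) : g x ∈ F := by
  obtain ⟨y, rfl⟩ := Submodule.Quotient.mk_surjective _ x
  induction y using Finsupp.induction_linear with
  | zero => rw [Submodule.Quotient.mk_zero, map_zero]; exact F.zero_mem
  | add y z hy hz => rw [Submodule.Quotient.mk_add, map_add]; exact F.add_mem hy hz
  | single s a =>
    have h1 : (Finsupp.single s a : Symb H HB S →₀ K) = a • Symb.fin s := by
      unfold Symb.fin
      rw [Finsupp.smul_single, smul_eq_mul, mul_one]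
    rw [h1, Submodule.Quotient.mk_smul, map_smul]
    exact F.smul_mem a (hg s.mem s.ω s.σ)

end

theorem d_fwdim {A : Type u} [Category.{v} A] [Abelian A] [MonoidalCategory A]
    [SymmetricCategory A]
    (h1 : ∀ HB : A ⥤ ModuleCat.{0} ℚ, S_univ HB)
    (h2 : ∀ {K : Type} [Field K] (H : A ⥤ ModuleCat.{0} K) (HB : A ⥤ ModuleCat.{0} ℚ), S_psi H HB)
    (h3 : S_rank (A := A)) (h4 : S_endbetti A) (h5 : S_lincl A)
    (h6 : ∀ {K : Type} [Field K] (H : A ⥤ ModuleCat.{0} K) (HB : A ⥤ ModuleCat.{0} ℚ),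
      S_heredity H HB) (h7 : S_fpring (A := A)) (h8 : S_algrel (A := A))
    (h9 : ∀ {K : Type} [Field K] (H : A ⥤ ModuleCat.{0} K) (HB : A ⥤ ModuleCat.{0} ℚ)
      [FibreFunctor H] [FibreFunctor HB], S_fwlin H HB) : S_fwdim (A := A) := by
  intro _ K _ _ _ HdR HB _ _ c S hS W hW
  obtain ⟨n, Q, π, σQ, hπ, huniq, hex, hn, b, hb⟩ := h1 HB (fun M => FibreFunctor.finite M) W
  have hQ : Lin W Q := ⟨n, ⨁ fun _ : Fin n => W, 𝟙 _, π, inferInstance, hπ⟩
  obtain ⟨Ψ, hΨ, -⟩ := h2 HdR HB W Q hQ σQ huniq hex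
  have hfin : Module.Finite K (HdR.obj Q) := FibreFunctor.finite Q
  obtain ⟨l1, l2, l3, -, -⟩ := h5
  have hsub : ∀ N, Lin W N → S N := l3 S W hS.toClosed hW
  have hinj1 : Function.Injective (fpMap HdR HB hsub) :=
    h6 HdR HB (FibreFunctor.finite (H := HB)) (Lin W) S hsub (l1 W) hS.toClosed
  have hinj2 : Function.Injective (toPerAlg HdR HB S) := (h7 HdR HB S hS).1
  obtain ⟨a1, -, -, -⟩ := h8 HdR HB S
  let g : FP HdR HB (Lin W) →ₗ[K] PerAlg HdR HB S := (toPerAlg HdR HB S) ∘ₗ (fpMap HdR HB hsub)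
  have hg : ∀ {N : A} (hN : Lin W N) (ω : HdR.obj N) (σ : Module.Dual ℚ (HB.obj N)),
      g (sym HdR HB hN ω σ) = asym HdR HB (hsub N hN) ω σ := by
    intro N hN ω σ
    change toPerAlg HdR HB S (fpMap HdR HB hsub (sym HdR HB hN ω σ)) = _
    rw [fwdim_fpMap_sym, a1]
  have hginj : Function.Injective g := fun x y hxy => hinj1 (hinj2 hxy)
  have hrange : LinearMap.range g = fw HdR HB hW := by
    apply le_antisymm
    · rintro _ ⟨x, rfl⟩
      apply fwdim_ind HdR HB g (fw HdR HB hW)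
      intro N hN ω σ
      rw [hg]
      apply h9 HdR HB hS.toClosed (hsub N hN) hW hN
      exact Submodule.subset_span ⟨ω, σ, rfl⟩
    · unfold fw
      rw [Submodule.span_le]
      rintro _ ⟨ω, σ, rfl⟩
      exact ⟨sym HdR HB (l2 W) ω σ, hg (l2 W) ω σ⟩
  rw [← hrange, ← (LinearEquiv.ofInjective g hginj).finrank_eq,
    (LinearEquiv.ofBijective Ψ hΨ).finrank_eq, h3 c Q]
  exact (h4 HB (fun M => FibreFunctor.finite M) W Q n π σQ hπ huniq hex ⟨b, hb⟩).symm

end

end Pool.Agent.Lib.MP_ae0f86_nt
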