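import Pool.Agent.Lib.MP_ae0f86_nt.StmD

/-!
# MP_ae0f86_nt : piece `fwgen`
-/

set_option autoImplicit false

universe w v u

open CategoryTheory CategoryTheory.Limits Opposite MonoidalCategory

namespace Pool.Agent.Lib.MP_ae0f86_nt

noncomputable section

attribute [local instance] CategoryTheory.Abelian.hasFiniteBiproducts

private theorem fwgen_lin {A : Type u} [Category.{v} A] [Abelian A] {N T : A} (i : N ⟶ T)
    [Mono i] : Lin T N :=
  ⟨1, N, i ≫ biproduct.ι (fun _ : Fin 1 => T) 0, 𝟙 N, inferInstance, inferInstance⟩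

private theorem fwgen_mono {K : Type} [Field K] {R : Type w} [CommRing R] [Algebra K R]
    (V : Submodule K R) (hV : (1 : R) ∈ V) (n m : ℕ) : V ^ n ≤ V ^ (n + m) := by
  rw [pow_add]
  have h1 : (1 : R) ∈ V ^ m := by
    have := Submodule.pow_mem_pow V hV m
    rwa [one_pow] at this
  intro x hx
  have := Submodule.mul_mem_mul hx h1
  rwa [mul_one] at this

private theorem fwgen_exh {K : Type} [Field K] {R : Type w} [CommRing R] [Algebra K R]
    (V : Submodule K R) (hV : (1 : R) ∈ V) (X : Set R) (hX : X ⊆ V)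
    (hX' : Algebra.adjoin K X = ⊤) (x : R) : ∃ n : ℕ, x ∈ V ^ n := by
  have hx : x ∈ Algebra.adjoin K X := by
    rw [hX']
    exact Algebra.mem_top
  induction hx using Algebra.adjoin_induction with
  | mem y hy => exact ⟨1, by rw [pow_one]; exact hX hy⟩
  | algebraMap r =>
    refine ⟨0, ?_⟩
    rw [pow_zero]
    exact Submodule.algebraMap_mem r
  | add y z _ _ hy hz =>
    obtain ⟨n, hn⟩ := hy
    obtain ⟨m, hm⟩ := hz
    refine ⟨n + m, Submodule.add_mem _ (fwgen_mono V hV n m hn) ?_⟩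
    rw [add_comm]
    exact fwgen_mono V hV m n hm
  | mul y z _ _ hy hz =>
    obtain ⟨n, hn⟩ := hy
    obtain ⟨m, hm⟩ := hz
    refine ⟨n + m, ?_⟩
    rw [pow_add]
    exact Submodule.mul_mem_mul hn hm

theorem d_fwgen {A : Type u} [Category.{v} A] [Abelian A] [MonoidalCategory A]
    [SymmetricCategory A] {K : Type} [Field K] (H : A ⥤ ModuleCat.{0} K)
    (HB : A ⥤ ModuleCat.{0} ℚ) [FibreFunctor H] [FibreFunctor HB]
    [RigidCategory A] (h1 : S_fwprod H HB) (h2 : S_fwlin H HB) (h3 : S_gens H HB)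
    (h4 : S_genclosed (A := A)) (h5 : S_subq A) (h6 : S_lincl A) : S_fwgen H HB := by
  intro M
  have hC : Closed (Gen M) := (h4.1 M).toClosed
  have hone : (1 : PerAlg H HB (Gen M)) ∈ fw H HB (gT_mem M) := by
    have h7 : fw H HB (S := Gen M) (W := 𝟙_ A) Gen.unit ≤ fw H HB (gT_mem M) :=
      h2 hC _ _ (fwgen_lin (biprod.inl : 𝟙_ A ⟶ gT M))
    rw [h1.2 (S := Gen M) Gen.unit] at h7
    exact h7 (Submodule.one_le.1 le_rfl)
  refine ⟨hone, ?_, ?_⟩
  · intro x
    refine fwgen_exh _ hone _ ?_ (h3 M) x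
    rintro r (⟨ω, σ, rfl⟩ | ⟨ω, σ, rfl⟩)
    · have h8 : fw H HB (S := Gen M) (W := M) Gen.base ≤ fw H HB (gT_mem M) :=
        h2 hC _ _ (fwgen_lin ((biprod.inl : M ⟶ M ⊞ Mᘁ) ≫ (biprod.inr : _ ⟶ gT M)))
      exact h8 (Submodule.subset_span ⟨ω, σ, rfl⟩)
    · have h8 : fw H HB (S := Gen M) (W := Mᘁ) (Gen.dual Gen.base) ≤ fw H HB (gT_mem M) :=
        h2 hC _ _ (fwgen_lin ((biprod.inr : Mᘁ ⟶ M ⊞ Mᘁ) ≫ (biprod.inr : _ ⟶ gT M)))
      exact h8 (Submodule.subset_span ⟨ω, σ, rfl⟩)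
  · intro n
    induction n with
    | zero =>
      exact (h1.2 (S := Gen M) Gen.unit).trans (pow_zero (fw H HB (gT_mem M))).symm
    | succ n ih =>
      have h9 := h1.1 (gTpow_mem M n) (gT_mem M) (gTpow_mem M (n + 1))
      rw [ih] at h9
      exact h9.trans (pow_succ (fw H HB (gT_mem M)) n).symm

end

end Pool.Agent.Lib.MP_ae0f86_nt
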