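import Pool.Agent.Lib.MP_ae0f86_nt.StmD2

set_option autoImplicit false

universe w v u

open CategoryTheory CategoryTheory.Limits Opposite MonoidalCategory

namespace Pool.Agent.Lib.MP_ae0f86_nt

theorem e_grown2 (h1 : S_gkup.{w}) (h2 : S_gklow2.{w}) (h3 : S_cut.{w}) (h4 : S_cut2.{w})
    (h5 : S_decdom.{w}) : S_grown2.{w} := by
  intro K _ R _ _ _ r e hdec hr g hg V _ hV1 hVex
  obtain ⟨c1, -, -, c4, c5, -, c7, c8⟩ := h3 K R r e hdec
  have hfg : ∀ n : ℕ, Module.Finite K ↥(V ^ n) := by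
    intro n
    have hV : V.FG := Module.Finite.iff_fg.1 inferInstance
    exact Module.Finite.iff_fg.2 (hV.pow n)
  have i0 : Fin r := ⟨0, hr⟩
  have hlow : ∃ a : ℝ, 0 < a ∧ ∀ n : ℕ, a * ((n : ℝ) + 1) ^ g ≤
      (Module.finrank K ↥((comp K (e i0) V) ^ n) : ℝ) := by
    have := (h5 R r e hdec i0).1
    have := c7 V i0
    exact h2 K (R ⧸ Ideal.span {1 - e i0}) (comp K (e i0) V) g (c5 V i0 hV1)
      ((h4 K R r e hdec).2 V i0 hVex) (hg i0)
  have hup : ∀ i : Fin r, ∃ b : ℝ, ∀ n : ℕ,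
      (Module.finrank K ↥((comp K (e i) V) ^ n) : ℝ) ≤ b * ((n : ℝ) + 1) ^ g := by
    intro i
    have := (h5 R r e hdec i).1
    have := c7 V i
    have : Algebra.FiniteType K (R ⧸ Ideal.span {1 - e i}) := inferInstance
    exact h1 K (R ⧸ Ideal.span {1 - e i}) (comp K (e i) V) g (hg i)
  obtain ⟨a, ha, hlow⟩ := hlow
  choose b hb using hup
  refine ⟨a, ∑ i, b i, ha, fun n => ⟨?_, ?_⟩⟩
  · have := hfg n
    refine (hlow n).trans ?_
    rw [← c4 V i0 n]
    exact_mod_cast c8 (V ^ n) i0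
  · have := hfg n
    have h5 := c1 (V ^ n)
    have h6 : (Module.finrank K ↥(V ^ n) : ℝ) ≤
        ∑ i, (Module.finrank K ↥((comp K (e i) V) ^ n) : ℝ) := by
      have h7 : Module.finrank K ↥(V ^ n) ≤
          ∑ i, Module.finrank K ↥((comp K (e i) V) ^ n) := by
        refine h5.trans (le_of_eq ?_)
        apply Finset.sum_congr rfl
        intro i _
        rw [c4 V i n]
      exact_mod_cast h7
    refine h6.trans ?_
    rw [Finset.sum_mul]
    exact Finset.sum_le_sum fun i _ => hb i n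

end Pool.Agent.Lib.MP_ae0f86_nt
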