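import Pool.Agent.Lib.MP_ae0f86_nt.StmD

/-!
# MP_ae0f86_nt : piece `growp`
-/

set_option autoImplicit false

universe w v u

open CategoryTheory CategoryTheory.Limits Opposite MonoidalCategory

namespace Pool.Agent.Lib.MP_ae0f86_nt

theorem d_growp (h1 : S_gkup.{0}) (h2 : S_gklow.{0}) : S_growp.{w} := by
  intro K _ R _ _ _ L _ _ ev t ht V _ h1V hex
  have hsurj : Function.Surjective ev.rangeRestrict := ev.rangeRestrict_surjective
  have hft : Algebra.FiniteType K ev.range := Algebra.FiniteType.of_surjective ev.rangeRestrict hsurj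
  set V' : Submodule K ev.range := V.map ev.rangeRestrict.toLinearMap with hV'
  have : Module.Finite K V' := Module.Finite.map V _
  have hpow : ∀ n : ℕ, V' ^ n = (V ^ n).map ev.rangeRestrict.toLinearMap := fun n =>
    (Submodule.map_pow V ev.rangeRestrict n).symm
  have hone : (1 : ev.range) ∈ V' := ⟨1, h1V, map_one ev.rangeRestrict⟩
  have hexh : ∀ x : ev.range, ∃ n : ℕ, x ∈ V' ^ n := by
    intro x
    obtain ⟨y, rfl⟩ := hsurj x
    obtain ⟨n, hn⟩ := hex y
    exact ⟨n, by rw [hpow n]; exact ⟨y, hn, rfl⟩⟩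
  have hfin : ∀ n : ℕ, Module.finrank K ((V ^ n).map ev.toLinearMap) =
      Module.finrank K ↥(V' ^ n) := by
    intro n
    have e1 : (V ^ n).map ev.toLinearMap = (V' ^ n).map ev.range.val.toLinearMap := by
      rw [hpow n, ← Submodule.map_comp]
      rfl
    rw [e1]
    exact ((V' ^ n).equivMapOfInjective ev.range.val.toLinearMap
      Subtype.val_injective).finrank_eq.symm
  obtain ⟨b, hb⟩ := h1 K ev.range V' t ht
  obtain ⟨a, ha, ha'⟩ := h2 K ev.range V' t hone hexh ht
  refine ⟨a, b, ha, fun n => ?_⟩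
  rw [hfin n]
  exact ⟨ha' n, hb n⟩

end Pool.Agent.Lib.MP_ae0f86_nt
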