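import Pool.Agent.Lib.MP_ae0f86_nt.StmD2

/-!
# MP_ae0f86_nt : the density law, from the pieces
-/

open CategoryTheory CategoryTheory.Limits MvPolynomial Opposite MonoidalCategory

universe w v u

namespace Pool.Agent.Lib.MP_ae0f86_nt

noncomputable section

attribute [local instance] CategoryTheory.Abelian.hasFiniteBiproducts

section Core

variable {K : Type} [Field K] {R : Type w} [CommRing R] [Algebra K R]

theorem comp_ind {r : ℕ} {e : Fin r → R} (hdec : Dec R r e) (hcut : S_cut.{w})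
    {F : Submodule K R} (hF : ∀ i j, ∃ τ : R ≃ₐ[K] R, τ (e i) = e j ∧ F.map τ.toLinearMap = F)
    (i0 : Fin r) :
    ∑ i, Module.finrank K (comp K (e i) F) = r * Module.finrank K (comp K (e i0) F) := by
  have : ∀ i ∈ Finset.univ, Module.finrank K (comp K (e i) F) =
      Module.finrank K (comp K (e i0) F) := fun i _ => by
    obtain ⟨τ, h1, h2⟩ := hF i i0
    exact (hcut K R r e hdec).2.2.1 F i i0 τ h1 h2
  rw [Finset.sum_congr rfl this]
  simp

/-- The abstract form of the density law. -/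
theorem core (hhilb : S_hilb.{w}) (hcut : S_cut.{w}) (hcut2 : S_cut2.{w}) (hevcut : S_evcut.{w})
    (hgrown : S_grown2.{w}) (hgrowp : S_growp2.{w}) (hratio : S_ratio)
    (hinjdim : S_injdim.{w})
    {r : ℕ} {e : Fin r → R} (hdec : Dec R r e) (hr : 1 ≤ r) [Algebra.FiniteType K R]
    (L : Type) [Field L] [Algebra K L] (ev : R →ₐ[K] L) (g t : ℕ)
    (hg : ∀ i, ringKrullDim (R ⧸ Ideal.span {1 - e i}) = g ∧
      Algebra.trdeg K (R ⧸ Ideal.span {1 - e i}) = (g : Cardinal))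
    (ht : ringKrullDim ev.range = t) (ht' : Algebra.trdeg K ev.range = (t : Cardinal))
    (V : Submodule K R) [Module.Finite K V] (h1V : (1 : R) ∈ V) (hV : GenLoc K V)
    (hVτ : ∀ i j, ∃ τ : R ≃ₐ[K] R, τ (e i) = e j ∧ V.map τ.toLinearMap = V) :
    t ≤ g ∧ (∀ n, 1 ≤ Module.finrank K ↥(V ^ n)) ∧
    (∃ a b : ℝ, 0 < a ∧ ∀ n : ℕ,
        a * ((n : ℝ) + 1) ^ g ≤ Module.finrank K ↥(V ^ n) ∧
        (Module.finrank K ↥(V ^ n) : ℝ) ≤ b * ((n : ℝ) + 1) ^ g ∧
        a * ((n : ℝ) + 1) ^ t ≤ Module.finrank K ((V ^ n).map ev.toLinearMap) ∧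
        (Module.finrank K ((V ^ n).map ev.toLinearMap) : ℝ) ≤ b * ((n : ℝ) + 1) ^ t) ∧
      (t = g → (∃ C : ℝ, ∀ n : ℕ,
          (1 : ℝ) / r ≤ (Module.finrank K ((V ^ n).map ev.toLinearMap) : ℝ) /
            Module.finrank K ↥(V ^ n) ∧
          (Module.finrank K ((V ^ n).map ev.toLinearMap) : ℝ) / Module.finrank K ↥(V ^ n) ≤
            1 / r + C / ((n : ℝ) + 1)) ∧
        ∀ F : Submodule K R, Module.Finite K F →
          (∀ i j, ∃ τ : R ≃ₐ[K] R, τ (e i) = e j ∧ F.map τ.toLinearMap = F) →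
          Module.finrank K F ≤ r * Module.finrank K (F.map ev.toLinearMap)) := by
  obtain ⟨⟨i0, hi0⟩, hev⟩ := hevcut K R r e hdec L ev
  obtain ⟨hle, hinj⟩ := hinjdim K R r e hdec L ev i0 hi0
  have htg : t ≤ g := by
    rw [ht, (hg i0).1] at hle
    exact_mod_cast hle
  obtain ⟨c1, c2, c3, c4, c5, c6, c7, c8⟩ := hcut K R r e hdec
  have hfin : ∀ n, Module.Finite K ↥(V ^ n) := fun n =>
    Module.Finite.iff_fg.2 (Submodule.FG.pow (Module.Finite.iff_fg.1 inferInstance) n)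
  have h1n : ∀ n, (1 : R) ∈ V ^ n := fun n => by
    have := Submodule.pow_mem_pow V h1V n
    simpa using this
  have hne : (1 : R) ≠ 0 := by
    intro h
    have := hdec.ne i0
    exact this (by rw [← mul_one (e i0), h, mul_zero])
  have hN1 : ∀ n, 1 ≤ Module.finrank K ↥(V ^ n) := fun n => by
    have := hfin n
    rw [Nat.one_le_iff_ne_zero]
    intro h
    rw [Module.finrank_zero_iff] at h
    have := Subsingleton.elim (⟨1, h1n n⟩ : ↥(V ^ n)) 0
    exact hne (congrArg Subtype.val this)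
  have hmono : Monotone (fun n : ℕ => V ^ n) := by
    refine monotone_nat_of_le_succ fun n => ?_
    intro x hx
    have := Submodule.mul_mem_mul hx h1V
    rwa [mul_one, ← pow_succ] at this
  -- the powers of `V` are invariant
  have hpτ : ∀ n i j, ∃ τ : R ≃ₐ[K] R, τ (e i) = e j ∧
      (V ^ n).map τ.toLinearMap = V ^ n := fun n i j => by
    obtain ⟨τ, h1, h2⟩ := hVτ i j
    refine ⟨τ, h1, ?_⟩
    have := Submodule.map_pow V (τ : R →ₐ[K] R) n
    rw [show (τ.toLinearMap : R →ₗ[K] R) = ((τ : R →ₐ[K] R)).toLinearMap from rfl, this]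
    rw [show V.map ((τ : R →ₐ[K] R)).toLinearMap = V from h2]
  set D : ℕ → ℕ := fun n => Module.finrank K (comp K (e i0) (V ^ n)) with hD
  have hND : ∀ n, Module.finrank K ↥(V ^ n) ≤ r * D n := fun n => by
    have := hfin n
    have := c1 (V ^ n)
    rwa [comp_ind hdec hcut (hpτ n) i0] at this
  have hDN : ∀ n, D n ≤ Module.finrank K ↥(V ^ n) := fun n => by
    have := hfin n
    exact c8 (V ^ n) i0
  have hD1 : ∀ n, 1 ≤ D n := fun n => by
    by_contra h
    have h0 : D n = 0 := by omega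
    have := hND n
    have h2 := hN1 n
    rw [h0] at this
    omega
  obtain ⟨δ, hδ, hδV, hloc⟩ := hV
  obtain ⟨k, s, hk, hs1, hs2⟩ : ∃ (k : ℕ) (s : Fin r → R), (∀ j, s j ∈ V ^ k) ∧
      (∀ i, e i * s i = s i) ∧ (∀ i a, s i * a = 0 → e i * a = 0) := by
    choose f f' hf using fun j => hloc (e j)
    refine ⟨Finset.univ.sup f', fun j => δ ^ f j * e j,
      fun j => hmono (Finset.le_sup (Finset.mem_univ j)) (hf j), fun i => ?_, fun i a h => ?_⟩
    · rw [mul_left_comm, hdec.idem]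
    · rw [mul_assoc] at h
      exact (hδ.pow (f i)).mul_right_eq_zero.1 h
  have hDk : ∀ n, r * D n ≤ Module.finrank K ↥(V ^ (n + k)) := fun n => by
    have := hfin n
    have := hfin k
    have := (hcut2 K R r e hdec).1 (V ^ n) (V ^ k) s hk hs1 hs2
    rw [comp_ind hdec hcut (hpτ n) i0, ← pow_add, add_comm k n] at this
    exact this
  obtain ⟨m, hm⟩ : ∃ m, Module.finrank K (comp K (e i0) V) ≤ m + 1 :=
    ⟨Module.finrank K (comp K (e i0) V), by omega⟩
  have hDh : ∀ n, (n + 1) * D (n + 1) ≤ (n + 1 + m) * D n := fun n => by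
    have := c7 V i0
    have := hhilb K _ (comp K (e i0) V) (c5 V i0 h1V) m hm n
    rwa [← c4 V i0, ← c4 V i0] at this
  have hinj' : t = g → ∀ a, ev (e i0 * a) = 0 → e i0 * a = 0 := fun h =>
    hinj (by rw [ht, (hg i0).1, h])
  refine ⟨htg, hN1, ?_, ?_⟩
  · obtain ⟨a, b, ha, hab⟩ := hgrown K R r e hdec hr g (fun i => (hg i).2) V h1V
      ⟨δ, hδ, hδV, hloc⟩
    obtain ⟨a', b', ha', hab'⟩ := hgrowp K R L ev t ht' V h1V ⟨δ, hδ, hδV, hloc⟩
    refine ⟨min a a', max b b', lt_min ha ha', fun n => ⟨?_, ?_, ?_, ?_⟩⟩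
    · exact (mul_le_mul_of_nonneg_right (min_le_left _ _) (by positivity)).trans (hab n).1
    · exact (hab n).2.trans (mul_le_mul_of_nonneg_right (le_max_left _ _) (by positivity))
    · exact (mul_le_mul_of_nonneg_right (min_le_right _ _) (by positivity)).trans (hab' n).1
    · exact (hab' n).2.trans (mul_le_mul_of_nonneg_right (le_max_right _ _) (by positivity))
  · intro h
    refine ⟨?_, ?_⟩
    · obtain ⟨C, hC⟩ := hratio (fun n => Module.finrank K ↥(V ^ n)) D r k m hr hD1 hDN hND hDk hDh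
      refine ⟨C, fun n => ?_⟩
      have := hfin n
      rw [(hev i0 hi0 (V ^ n)).2 (hinj' h)]
      exact hC n
    · intro F hF hFτ
      have h1 := c1 F
      rw [comp_ind hdec hcut hFτ i0] at h1
      rwa [(hev i0 hi0 F).2 (hinj' h)]

end Core

section Law

variable {A : Type u} [Category.{v} A] [Abelian A] [MonoidalCategory A] [SymmetricCategory A]
  [RigidCategory A] [Linear ℚ A] {HdR : A ⥤ ModuleCat.{0} QBar} {HB : A ⥤ ModuleCat.{0} ℚ}
  [FibreFunctor HdR] [FibreFunctor HB]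

/-- The asymptotic density law for the object `M` (with the unit as a subquotient of a power of
`M`) and its tensor powers. -/
def LawFor (c : Comparison HdR HB) (M : A) : Prop :=
    ∃ r g t : ℕ, 1 ≤ r ∧ t ≤ g ∧
      Finite (_root_.ConnectedComponents (PrimeSpectrum (PerAlg HdR HB (Gen M)))) ∧
      ncomp HdR HB M = r ∧
      ringKrullDim (PerAlg HB HB (Gen M)) = g ∧
      Algebra.trdeg ℚ (IntermediateField.adjoin ℚ (c.Per M)) = (t : Cardinal) ∧
      (∃ a b : ℝ, 0 < a ∧ ∀ n : ℕ,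
        a * ((n : ℝ) + 1) ^ g ≤ Nf HB (tpow M n) ∧
        (Nf HB (tpow M n) : ℝ) ≤ b * ((n : ℝ) + 1) ^ g ∧
        a * ((n : ℝ) + 1) ^ t ≤ Pf c (tpow M n) ∧
        (Pf c (tpow M n) : ℝ) ≤ b * ((n : ℝ) + 1) ^ t) ∧
      (t = g → (∃ C : ℝ, ∀ n : ℕ,
          (1 : ℝ) / r ≤ (Pf c (tpow M n) : ℝ) / Nf HB (tpow M n) ∧
          (Pf c (tpow M n) : ℝ) / Nf HB (tpow M n) ≤ 1 / r + C / ((n : ℝ) + 1)) ∧
        ∀ W : A, Gen M W → Nf HB W ≤ r * Pf c W) ∧
      Filter.Tendsto (fun n => (Pf c (tpow M n) : ℝ) / Nf HB (tpow M n)) Filter.atTop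
        (nhds (if t = g then (1 : ℝ) / r else 0)) ∧
      (DimFormula c M ↔ t = g) ∧
      (DimFormula c M ↔
        ∃ δ : ℝ, 0 < δ ∧ ∃ᶠ n in Filter.atTop, δ * (Nf HB (tpow M n) : ℝ) ≤ Pf c (tpow M n)) ∧
      (PeriodConjecture c M ↔ r = 1 ∧ t = g) ∧
      (PeriodConjecture c M ↔
        ∃ δ : ℝ, 1 / 2 < δ ∧ ∃ᶠ n in Filter.atTop,
          δ * (Nf HB (tpow M n) : ℝ) ≤ Pf c (tpow M n))

theorem law (c : Comparison HdR HB) (M : A) (hM : Lin M (𝟙_ A))
    (hhilb : S_hilb.{u}) (hcomps : S_comps.{u})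
    (hcut : S_cut.{u}) (hcut2 : S_cut2.{u}) (hevcut : S_evcut.{u}) (hinjdim : S_injdim.{u})
    (hgrown : S_grown2.{u}) (hgrowp : S_growp2.{u}) (hratio : S_ratio) (hfreq : S_freq)
    (hfwfin : S_fwfin HdR HB) (hfwgen : S_fwgen2 HdR HB) (hfwdim : S_fwdim (A := A))
    (hfwev : S_fwev (A := A)) (hpdec : S_pdec HdR HB) (hperm : S_perm HdR HB) (hdims : S_dims c)
    (hft : S_fintype HdR HB) (hgc : S_genclosed (A := A)) : LawFor c M := by
  obtain ⟨r, e, hdec⟩ := hpdec M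
  obtain ⟨hr, g, t, hg, hgi, htd, httr, ht⟩ := hdims M r e hdec
  obtain ⟨hfinc, hcard, hconn⟩ := hcomps _ r e hdec
  have := hft M
  have : Module.Finite QBar (fw HdR HB (S := Gen M) (W := M) Gen.base) := hfwfin Gen.base
  obtain ⟨h1V, hgl, hpow⟩ := hfwgen M hM
  have hT : TClosed (Gen M) := hgc.1 M
  have hN : ∀ {W : A} (hW : Gen M W), Module.finrank QBar (fw HdR HB hW) =
      Nf HB W := fun hW => hfwdim c hT hW
  have hP : ∀ {W : A} (hW : Gen M W), (fw HdR HB hW).map (c.evAlg (Gen M)).toLinearMap =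
      Submodule.span QBar (c.Per W) := fun hW => hfwev c hW
  have hNn : ∀ n, Module.finrank QBar ↥(fw HdR HB (S := Gen M) (W := M) Gen.base ^ n) =
      Nf HB (tpow M n) := fun n => by
    rw [← hN (genpow_mem M n), hpow n]
  have hPn : ∀ n, Module.finrank QBar
      ((fw HdR HB (S := Gen M) (W := M) Gen.base ^ n).map (c.evAlg (Gen M)).toLinearMap) =
      Pf c (tpow M n) := fun n => by
    rw [Pf, ← hP (genpow_mem M n), hpow n]
  obtain ⟨htg, hN1, ⟨a, b, ha, hab⟩, hlaw⟩ := core hhilb hcut hcut2 hevcut hgrown hgrowp hratio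
    hinjdim hdec hr ℂ (c.evAlg (Gen M)) g t hgi htd httr
    (fw HdR HB (S := Gen M) (W := M) Gen.base) h1V hgl
    (fun i j => by
      obtain ⟨τ, h1, h2⟩ := hperm M r e hdec i j
      exact ⟨τ, h1, h2 Gen.base⟩)
  simp only [hNn, hPn] at hN1 hab hlaw
  obtain ⟨hf1, hf2, hf3⟩ := hfreq (fun n => (Nf HB (tpow M n) : ℝ))
    (fun n => (Pf c (tpow M n) : ℝ)) r g t hr
    htg (fun n => by exact_mod_cast hN1 n) (fun n => by positivity)
    ⟨a, b, ha, fun n => ⟨(hab n).1, (hab n).2.2.2⟩⟩ (fun h => (hlaw h).1)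
  have hdf : DimFormula c M ↔ t = g := by
    rw [DimFormula, hg, ht]
    simp only [Cardinal.toENat_nat]
    constructor
    · intro h2
      exact_mod_cast h2.symm
    · intro h2
      rw [h2]; rfl
  have hpc : PeriodConjecture c M ↔ r = 1 ∧ t = g := by
    rw [PeriodConjecture, hconn]
    exact and_congr_right fun _ => hdf
  refine ⟨r, g, t, hr, htg, hfinc, hcard, hg, ht, ⟨a, b, ha, hab⟩, ?_, hf1, hdf, hdf.trans hf2,
    hpc, hpc.trans hf3⟩
  intro h
  refine ⟨(hlaw h).1, fun W hW => ?_⟩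
  have := (hlaw h).2 (fw HdR HB hW) (hfwfin hW) (fun i j => by
    obtain ⟨τ, h1, h2⟩ := hperm M r e hdec i j
    exact ⟨τ, h1, h2 hW⟩)
  rwa [hN hW, hP hW] at this

end Law

end

end Pool.Agent.Lib.MP_ae0f86_nt
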