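import Pool.Agent.Lib.MP_ae0f86_nt.StmD3

/-!
# MP_ae0f86_nt : piece `nfpos`
-/

set_option autoImplicit false

universe w v u

open CategoryTheory CategoryTheory.Limits Opposite MonoidalCategory

namespace Pool.Agent.Lib.MP_ae0f86_nt

noncomputable section

attribute [local instance] CategoryTheory.Abelian.hasFiniteBiproducts

theorem f_nfpos {A : Type u} [Category.{v} A] [Abelian A] [MonoidalCategory A]
    [SymmetricCategory A] [RigidCategory A] {HdR : A ⥤ ModuleCat.{0} QBar}
    {HB : A ⥤ ModuleCat.{0} ℚ} [FibreFunctor HdR] [FibreFunctor HB] (c : Comparison HdR HB) :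
    S_nfpos c := by
  intro W
  constructor
  · intro hW
    have hfin : Module.Finite ℚ (HB.obj W) := FibreFunctor.finite W
    show 1 ≤ Module.finrank ℚ (EndBetti HB W)
    rw [Submodule.one_le_finrank_iff]
    intro hbot
    apply hW
    have h1 : (LinearMap.id : Module.End ℚ (HB.obj W)) ∈ EndBetti HB W := by
      intro n U f m hm
      exact hm
    rw [hbot, Submodule.mem_bot] at h1
    rw [IsZero.iff_id_eq_zero]
    apply HB.map_injective
    rw [HB.map_id, HB.map_zero]
    apply ModuleCat.hom_ext
    exact h1
  · intro hW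
    show Module.finrank QBar (Submodule.span QBar (c.Per W)) = 0
    have h0 : ∀ ω : HdR.obj W, ω = 0 := by
      intro ω
      have h1 : HdR.map (𝟙 W) = 0 := by
        rw [(IsZero.iff_id_eq_zero W).1 hW, HdR.map_zero]
      rw [HdR.map_id] at h1
      have h2 := congrArg (fun g => g.hom ω) h1
      exact h2
    have h3 : c.Per W ⊆ {0} := by
      rintro z ⟨ω, σ, rfl⟩
      rw [h0 ω]
      simp [Comparison.val, PairingAt.app]
    have h4 : Submodule.span QBar (c.Per W) = ⊥ := by
      rw [Submodule.span_eq_bot]
      intro z hz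
      exact h3 hz
    rw [h4]
    exact finrank_bot QBar ℂ

end

end Pool.Agent.Lib.MP_ae0f86_nt
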