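import Pool.Agent.Lib.MP_ae0f86_nt.StmD2

/-!
# MP_ae0f86_nt : [GE unitq]
-/

set_option autoImplicit false

universe w v u

open CategoryTheory CategoryTheory.Limits Opposite MonoidalCategory

namespace Pool.Agent.Lib.MP_ae0f86_nt

noncomputable section

attribute [local instance] CategoryTheory.Abelian.hasFiniteBiproducts

/-- The point. -/
private abbrev unitq_pt (k : Type) [Field k] : AffPair k :=
  AffPair.abs (IsAlg.univ : IsAlg (Set.univ : Set (Fin 0 → k)))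

/-- `(pt, ∅) × (G_m, 1)` is `(G_m, 1)`. -/
private def unitq_iso (k : Type) [Field k] : AffPair.gmOne ≅ (unitq_pt k).gm where
  hom := ⟨fun z => ⟨Sum.elim Fin.elim0 (z.1 : Fin 2 → k), ⟨trivial, z.2⟩⟩,
    ⟨fun j => j.elim (fun i => i.elim0) (fun i => MvPolynomial.X i), by
      intro x j
      rcases j with i | i
      · exact i.elim0
      · exact (MvPolynomial.eval_X (f := x.1) i).symm⟩,
    fun z hz => ⟨trivial, z.2, Or.inr hz.2⟩⟩
  inv := ⟨fun z => ⟨(z.1 : Fin 0 ⊕ Fin 2 → k) ∘ Sum.inr, z.2.2⟩,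
    ⟨fun j => MvPolynomial.X (Sum.inr j), fun x j => by
      show (x.1 : Fin 0 ⊕ Fin 2 → k) (Sum.inr j) = MvPolynomial.eval _ (MvPolynomial.X _)
      rw [MvPolynomial.eval_X]⟩, by
      rintro z ⟨_, h2, h3 | h3⟩
      · exact h3.elim
      · exact ⟨h2, h3⟩⟩
  hom_inv_id := by
    apply AffPair.hom_ext
    intro x
    show Sum.elim Fin.elim0 (x.1 : Fin 2 → k) ∘ Sum.inr = x.1
    rw [Sum.elim_comp_inr]
  inv_hom_id := by
    apply AffPair.hom_ext
    intro x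
    show Sum.elim Fin.elim0 ((x.1 : Fin 0 ⊕ Fin 2 → k) ∘ Sum.inr) = x.1
    funext j
    rcases j with i | i
    · exact i.elim0
    · rfl

private theorem unitq_pt_iso {A : Type u} [Category.{v} A] [Abelian A] [MonoidalCategory A]
    {k : Type} [Field k] (T : CohTheory k A) :
    Nonempty ((T.h 0).obj (op (unitq_pt k)) ≅ 𝟙_ A) := by
  obtain ⟨κ⟩ := T.kunneth 0 (unitq_pt k)
  -- `L ≅ h^0(pt) ⊗ L`
  have e1 : (T.h 1).obj (op AffPair.gmOne) ≅
      (T.h 0).obj (op (unitq_pt k)) ⊗ (T.h 1).obj (op AffPair.gmOne) :=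
    ((T.h 1).mapIso (unitq_iso k).op).symm ≪≫ κ
  have e2 : 𝟙_ A ≅ (T.h 0).obj (op (unitq_pt k)) :=
    T.tateIso.symm ≪≫ whiskerRightIso e1 T.tate ≪≫ α_ _ _ _ ≪≫
      whiskerLeftIso _ T.tateIso ≪≫ ρ_ _
  exact ⟨e2.symm⟩

theorem e_unitq {A : Type u} [Category.{v} A] [Abelian A] [MonoidalCategory A] {k : Type}
    [Field k] (T : CohTheory k A) (_h1 : S_prodsub T) : S_unitq T := by
  intro ι _ X hX hne
  obtain ⟨x0, hx0⟩ := hne
  obtain ⟨e⟩ := unitq_pt_iso T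
  let s : unitq_pt k ⟶ AffPair.abs hX :=
    ⟨fun _ => ⟨x0, hx0⟩, ⟨fun j => MvPolynomial.C (x0 j), fun x j => by simp⟩, fun _ h => h.elim⟩
  let p : AffPair.abs hX ⟶ unitq_pt k :=
    ⟨fun _ => ⟨Fin.elim0, trivial⟩, ⟨fun j => j.elim0, fun x j => j.elim0⟩, fun _ h => h.elim⟩
  have hsp : s ≫ p = 𝟙 _ := by
    apply AffPair.hom_ext
    intro x
    exact Subsingleton.elim _ _
  have hm : Mono ((T.h 0).map p.op) := by
    have e : (T.h 0).map p.op ≫ (T.h 0).map s.op = 𝟙 _ := by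
      rw [← CategoryTheory.Functor.map_comp, ← op_comp, hsp, op_id,
        CategoryTheory.Functor.map_id]
    exact mono_of_mono_fac (h := 𝟙 _) e
  -- `h^0(X)` is a summand of the total cohomology
  let i0 : (T.h 0).obj (op (AffPair.abs hX)) ⟶ T.total (AffPair.abs hX) :=
    biproduct.ι (fun i : Fin (2 * Nat.card (AffPair.abs hX).ι + 1) =>
      (T.h ((i : ℕ) : ℤ)).obj (op (AffPair.abs hX))) ⟨0, Nat.succ_pos _⟩
  have hi0 : Mono i0 := by
    show Mono (biproduct.ι (fun i : Fin (2 * Nat.card (AffPair.abs hX).ι + 1) =>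
      (T.h ((i : ℕ) : ℤ)).obj (op (AffPair.abs hX))) ⟨0, Nat.succ_pos _⟩)
    infer_instance
  refine ⟨1, 𝟙_ A, e.inv ≫ (T.h 0).map p.op ≫ i0 ≫
    biproduct.ι (fun _ : Fin 1 => T.total (AffPair.abs hX)) 0, 𝟙 _, ?_, inferInstance⟩
  infer_instance

end

end Pool.Agent.Lib.MP_ae0f86_nt
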